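import Pool.Agent.H73.SG.Cd

/-!
# [H73 SG Det] Rounding of the patterns to a finite list

`PG` = pattern with grid exponents; `rdK N n p` = rounding of the real pattern `p` (upper exponents down, lower exponents `bb` up).
-/

set_option autoImplicit false

open Finset MeasureTheory

namespace Pool.Agent.H73.SG

open Pool.H70.SF Pool.Agent.H73.ES

/-- grid patterns -/
noncomputable def PG (N n : ℕ) (a : ℕ → ℕ → ℕ) (m : ℕ → ℕ → ℕ) (k : ℕ → Kd) : PatK where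
  th := (a 0 0 : ℝ) / N
  hc := (a 1 0 : ℝ) / N
  be := fun l => if l ≤ n + 1 then (a 2 l : ℝ) / N else 0
  h := fun l => if l ≤ n + 1 then (a 3 l : ℝ) / N else 0
  b := fun l => if l ≤ n + 1 then (a 4 l : ℝ) / N else 0
  bb := fun l i => if l ≤ n + 1 ∧ i ≤ n + 1 then (m l i : ℝ) / N else 0
  kd := fun l => if l ≤ n + 1 then k l else Kd.free

/-- the exponents as one function -/
noncomputable def exK (p : PatK) (i l : ℕ) : ℝ :=
  if i = 0 then p.th else if i = 1 then p.hc else if i = 2 then p.be l else if i = 3 then p.h l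
    else if i = 4 then p.b l else 0

/-- rounding -/
noncomputable def rdK (N n : ℕ) (p : PatK) : PatK :=
  PG N n (fun i l => ⌊(N : ℝ) * exK p i l⌋₊) (fun l i => ⌈(N : ℝ) * p.bb l i⌉₊) p.kd

private theorem rp_mono {d : ℕ} (hd : 1 ≤ d) {a b : ℝ} (h : a ≤ b) :
    (d : ℝ) ^ a ≤ (d : ℝ) ^ b :=
  Real.rpow_le_rpow_of_exponent_le (by exact_mod_cast hd) h

/-- rounding down an exponent -/
private theorem fl {N : ℕ} (hN : 1 ≤ N) {x B : ℝ} (h0 : 0 ≤ x) (h1 : x ≤ B) :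
    0 ≤ ((⌊(N : ℝ) * x⌋₊ : ℕ) : ℝ) / N ∧ ((⌊(N : ℝ) * x⌋₊ : ℕ) : ℝ) / N ≤ B ∧
      ((⌊(N : ℝ) * x⌋₊ : ℕ) : ℝ) / N ≤ x ∧
      x - 1 / N ≤ ((⌊(N : ℝ) * x⌋₊ : ℕ) : ℝ) / N := by
  have hN' : (0 : ℝ) < N := by exact_mod_cast hN
  have h2 : 0 ≤ (N : ℝ) * x := by positivity
  have h3 : ((⌊(N : ℝ) * x⌋₊ : ℕ) : ℝ) / N ≤ x := by
    rw [div_le_iff₀ hN', mul_comm x]
    exact Nat.floor_le h2
  refine ⟨by positivity, h3.trans h1, h3, ?_⟩
  rw [le_div_iff₀ hN', sub_mul, one_div_mul_cancel hN'.ne']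
  have := Nat.lt_floor_add_one ((N : ℝ) * x)
  linarith

/-- rounding up an exponent -/
private theorem ce {N : ℕ} (hN : 1 ≤ N) {x : ℝ} (h0 : 0 ≤ x) (h1 : x ≤ 2) :
    ⌈(N : ℝ) * x⌉₊ ≤ 2 * N ∧ 0 ≤ ((⌈(N : ℝ) * x⌉₊ : ℕ) : ℝ) / N ∧
      ((⌈(N : ℝ) * x⌉₊ : ℕ) : ℝ) / N ≤ 2 ∧ x ≤ ((⌈(N : ℝ) * x⌉₊ : ℕ) : ℝ) / N ∧
      ((⌈(N : ℝ) * x⌉₊ : ℕ) : ℝ) / N ≤ x + 1 / N := by
  have hN' : (0 : ℝ) < N := by exact_mod_cast hN
  have h2 : 0 ≤ (N : ℝ) * x := by positivity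
  have h3 : ⌈(N : ℝ) * x⌉₊ ≤ 2 * N := by
    rw [Nat.ceil_le]
    push_cast
    nlinarith
  refine ⟨h3, by positivity, ?_, ?_, ?_⟩
  · rw [div_le_iff₀ hN']
    exact_mod_cast h3
  · rw [le_div_iff₀ hN', mul_comm x]
    exact Nat.le_ceil _
  · rw [div_le_iff₀ hN', add_mul, one_div_mul_cancel hN'.ne']
    have := Nat.ceil_lt_add_one h2
    linarith

private theorem rd_be (N n : ℕ) (p : PatK) {l : ℕ} (hl : l ≤ n + 1) :
    (rdK N n p).be l = ((⌊(N : ℝ) * p.be l⌋₊ : ℕ) : ℝ) / N := by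
  show (if l ≤ n + 1 then ((⌊(N : ℝ) * exK p 2 l⌋₊ : ℕ) : ℝ) / N else 0) = _
  rw [if_pos hl]
  rfl

private theorem rd_h (N n : ℕ) (p : PatK) {l : ℕ} (hl : l ≤ n + 1) :
    (rdK N n p).h l = ((⌊(N : ℝ) * p.h l⌋₊ : ℕ) : ℝ) / N := by
  show (if l ≤ n + 1 then ((⌊(N : ℝ) * exK p 3 l⌋₊ : ℕ) : ℝ) / N else 0) = _
  rw [if_pos hl]
  rfl

private theorem rd_b (N n : ℕ) (p : PatK) {l : ℕ} (hl : l ≤ n + 1) :
    (rdK N n p).b l = ((⌊(N : ℝ) * p.b l⌋₊ : ℕ) : ℝ) / N := by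
  show (if l ≤ n + 1 then ((⌊(N : ℝ) * exK p 4 l⌋₊ : ℕ) : ℝ) / N else 0) = _
  rw [if_pos hl]
  rfl

private theorem rd_bb (N n : ℕ) (p : PatK) {l i : ℕ} (hl : l ≤ n + 1) (hi : i ≤ n + 1) :
    (rdK N n p).bb l i = ((⌈(N : ℝ) * p.bb l i⌉₊ : ℕ) : ℝ) / N := by
  show (if l ≤ n + 1 ∧ i ≤ n + 1 then ((⌈(N : ℝ) * p.bb l i⌉₊ : ℕ) : ℝ) / N else 0) = _
  rw [if_pos ⟨hl, hi⟩]

private theorem rd_kd (N n : ℕ) (p : PatK) {l : ℕ} (hl : l ≤ n + 1) :
    (rdK N n p).kd l = p.kd l := by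
  show (if l ≤ n + 1 then p.kd l else Kd.free) = _
  rw [if_pos hl]

private theorem rd_th (N n : ℕ) (p : PatK) :
    (rdK N n p).th = ((⌊(N : ℝ) * p.th⌋₊ : ℕ) : ℝ) / N := rfl

private theorem rd_hc (N n : ℕ) (p : PatK) :
    (rdK N n p).hc = ((⌊(N : ℝ) * p.hc⌋₊ : ℕ) : ℝ) / N := rfl

theorem rd_ok {N n : ℕ} (hN : 1 ≤ N) {p : PatK} (hp : p.ok) : (rdK N n p).ok := by
  refine ⟨?_, ?_, fun l => ?_, fun l => ?_, fun l => ?_, fun l i => ?_⟩
  · rw [rd_th]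
    have := fl hN hp.th0.1 hp.th0.2
    exact ⟨this.1, this.2.1⟩
  · rw [rd_hc]
    have := fl hN hp.hc0.1 hp.hc0.2
    exact ⟨this.1, this.2.1⟩
  · by_cases hl : l ≤ n + 1
    · rw [rd_be N n p hl]
      have := fl hN (hp.be0 l).1 (hp.be0 l).2
      exact ⟨this.1, this.2.1⟩
    · show 0 ≤ (if l ≤ n + 1 then _ else (0 : ℝ)) ∧ (if l ≤ n + 1 then _ else (0 : ℝ)) ≤ 1
      rw [if_neg hl]
      exact ⟨le_rfl, zero_le_one⟩
  · by_cases hl : l ≤ n + 1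
    · rw [rd_h N n p hl]
      have := fl hN (hp.h0 l).1 (hp.h0 l).2
      exact ⟨this.1, this.2.1⟩
    · show 0 ≤ (if l ≤ n + 1 then _ else (0 : ℝ)) ∧ (if l ≤ n + 1 then _ else (0 : ℝ)) ≤ 1
      rw [if_neg hl]
      exact ⟨le_rfl, zero_le_one⟩
  · by_cases hl : l ≤ n + 1
    · rw [rd_b N n p hl]
      have := fl hN (hp.b0 l).1 (hp.b0 l).2
      exact ⟨this.1, this.2.1⟩
    · show 0 ≤ (if l ≤ n + 1 then _ else (0 : ℝ)) ∧ (if l ≤ n + 1 then _ else (0 : ℝ)) ≤ 2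
      rw [if_neg hl]
      exact ⟨le_rfl, zero_le_two⟩
  · by_cases hl : l ≤ n + 1 ∧ i ≤ n + 1
    · rw [rd_bb N n p hl.1 hl.2]
      have := ce hN (hp.bb0 l i).1 (hp.bb0 l i).2
      exact ⟨this.2.1, this.2.2.1⟩
    · show 0 ≤ (if l ≤ n + 1 ∧ i ≤ n + 1 then _ else (0 : ℝ)) ∧
        (if l ≤ n + 1 ∧ i ≤ n + 1 then _ else (0 : ℝ)) ≤ 2
      rw [if_neg hl]
      exact ⟨le_rfl, zero_le_two⟩

private theorem rd_mu (N n : ℕ) (p : PatK) {i : ℕ} (hi : i ≤ n + 1) :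
    mu (rdK N n p) i = mu p i := by
  cases i with
  | zero => rfl
  | succ i =>
    show ((rdK N n p).kd i).mul = (p.kd i).mul
    rw [rd_kd N n p (by omega)]

private theorem mu_le3 (p : PatK) (i : ℕ) : (mu p i : ℝ) ≤ 3 := by
  have : mu p i ≤ 3 := by
    cases i with
    | zero => exact le_refl _
    | succ i =>
      show (p.kd i).mul ≤ 3
      cases p.kd i <;> simp [Kd.mul]
  exact_mod_cast this

private theorem rd_ML {N n : ℕ} (hN : 1 ≤ N) {p : PatK} (hp : p.ok) {l : ℕ} (hl : l ≤ n) :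
    ML (rdK N n p) l ≤ ML p l + 3 * (n + 1) / N := by
  have hN' : (0 : ℝ) < N := by exact_mod_cast hN
  have h1 : ∀ i ∈ range (l + 1), (mu (rdK N n p) i : ℝ) * max 0 ((rdK N n p).bb l i - 1 / 2) ≤
      (mu p i : ℝ) * max 0 (p.bb l i - 1 / 2) + 3 / N := by
    intro i hi
    have hi' : i ≤ n + 1 := by
      have := mem_range.1 hi
      omega
    rw [rd_mu N n p hi', rd_bb N n p (by omega) hi']
    have h2 := (ce hN (hp.bb0 l i).1 (hp.bb0 l i).2).2.2.2.2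
    have h3 := mu_le3 p i
    have h4 : (0 : ℝ) ≤ mu p i := Nat.cast_nonneg _
    have h5 : max 0 (((⌈(N : ℝ) * p.bb l i⌉₊ : ℕ) : ℝ) / N - 1 / 2) ≤
        max 0 (p.bb l i - 1 / 2) + 1 / N := by
      apply max_le
      · have := le_max_left 0 (p.bb l i - 1 / 2)
        positivity
      · have := le_max_right 0 (p.bb l i - 1 / 2)
        linarith
    have h6 := mul_le_mul_of_nonneg_left h5 h4
    have h7 : (mu p i : ℝ) * (1 / N) ≤ 3 / N := by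
      rw [mul_one_div]
      exact div_le_div_of_nonneg_right h3 hN'.le
    linarith
  unfold ML
  refine (sum_le_sum h1).trans ?_
  rw [sum_add_distrib, sum_const, card_range, nsmul_eq_mul]
  have h2 : ((l + 1 : ℕ) : ℝ) ≤ n + 1 := by exact_mod_cast (by omega : l + 1 ≤ n + 1)
  have h3 : ((l + 1 : ℕ) : ℝ) * (3 / N) ≤ 3 * (n + 1) / N := by
    rw [mul_div_assoc', div_le_div_iff_of_pos_right hN']
    linarith
  linarith

private theorem rd_stE {N n : ℕ} (hN : 1 ≤ N) {p : PatK} (hp : p.ok) {l : ℕ} (hl : l ≤ n) :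
    stE (rdK N n p) l ≤ stE p l + (18 * (n : ℝ) + 26) / N := by
  have hN' : (0 : ℝ) < N := by exact_mod_cast hN
  have hM := rd_ML (N := N) (n := n) hN hp hl
  have hn : (0 : ℝ) ≤ n := Nat.cast_nonneg n
  have e0 : (18 * (n : ℝ) + 26) / N = 6 * (3 * (n + 1) / N) + 8 * (1 / N) := by
    field_simp
    ring
  have e1 : 0 ≤ 3 * ((n : ℝ) + 1) / N := by positivity
  have e2 : 0 ≤ 1 / (N : ℝ) := by positivity
  have q1 := (fl hN (hp.be0 l).1 (hp.be0 l).2).2.2.2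
  have q2 := (fl hN (hp.h0 l).1 (hp.h0 l).2).2.2.2
  have q3 := (fl hN (hp.b0 (l + 1)).1 (hp.b0 (l + 1)).2).2.2.2
  unfold stE
  rw [rd_kd N n p (by omega), rd_be N n p (by omega), rd_h N n p (by omega),
    rd_b N n p (by omega), e0]
  cases p.kd l with
  | full =>
    simp only
    linarith
  | free =>
    simp only
    linarith
  | der =>
    simp only
    linarith
  | pos =>
    simp only
    linarith

theorem rd_bd {N n : ℕ} (hN : 1 ≤ N) {p : PatK} (hp : p.ok) {T : ℕ} (hT : T ≤ n + 1) :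
    bdK (rdK N n p) T ≤ bdK p T + 30 * ((n : ℝ) + 2) ^ 2 / N := by
  have hN' : (0 : ℝ) < N := by exact_mod_cast hN
  have hn : (0 : ℝ) ≤ n := Nat.cast_nonneg n
  have q1 := (fl hN hp.th0.1 hp.th0.2).2.2.2
  have q2 := (fl hN hp.hc0.1 hp.hc0.2).2.2.2
  have q3 := (fl hN (hp.b0 0).1 (hp.b0 0).2).2.2.2
  have hs : ∑ l ∈ range T, stE (rdK N n p) l ≤
      ∑ l ∈ range T, stE p l + ((n : ℝ) + 1) * ((18 * (n : ℝ) + 26) / N) := by
    have h1 : ∑ l ∈ range T, stE (rdK N n p) l ≤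
        ∑ l ∈ range T, (stE p l + (18 * (n : ℝ) + 26) / N) :=
      sum_le_sum fun l hl => rd_stE hN hp (by have := mem_range.1 hl; omega)
    refine h1.trans ?_
    rw [sum_add_distrib, sum_const, card_range, nsmul_eq_mul]
    have h2 : (T : ℝ) ≤ n + 1 := by exact_mod_cast hT
    have h3 : 0 ≤ (18 * (n : ℝ) + 26) / N := by positivity
    have := mul_le_mul_of_nonneg_right h2 h3
    linarith
  have e0 : 30 * ((n : ℝ) + 2) ^ 2 / N = ((n : ℝ) + 1) * ((18 * (n : ℝ) + 26) / N) + 10 * (1 / N) +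
      (12 * (n : ℝ) ^ 2 + 76 * n + 84) * (1 / N) := by
    field_simp
    ring
  have e1 : 0 ≤ (12 * (n : ℝ) ^ 2 + 76 * n + 84) * (1 / N) := by positivity
  unfold bdK
  rw [rd_th, rd_hc, rd_b N n p (by omega), e0]
  linarith

theorem rd_cd {N n : ℕ} (hN : 1 ≤ N) {p : PatK} (hp : p.ok) {T : ℕ} (hT : T ≤ n + 1) {d : ℕ}
    (hd : 1 ≤ d) {X : CV d} {c : ℂ × ℂ} (h : CdK X c p T) : CdK X c (rdK N n p) T := by
  have q0 := fl hN hp.th0.1 hp.th0.2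
  have q1 := fl hN hp.hc0.1 hp.hc0.2
  have q2 := fun l => fl hN (hp.be0 l).1 (hp.be0 l).2
  have q3 := fun l => fl hN (hp.h0 l).1 (hp.h0 l).2
  have q4 := fun l => fl hN (hp.b0 l).1 (hp.b0 l).2
  refine ⟨?_, ?_, fun l hl hk => ?_, fun l hl hk => ?_, fun l hl hk i hi => ?_, fun l hl => ?_⟩
  · rw [rd_th]
    rcases h.cth with h0 | h0
    · left
      rw [h0]
      simp
    · right
      refine h0.trans (mul_le_mul_of_nonneg_right (rp_mono hd ?_) (Real.sqrt_nonneg _))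
      linarith [q0.2.2.1]
  · rw [rd_hc]
    rcases h.chc with h0 | h0
    · left
      rw [h0]
      simp
    · right
      refine h0.trans (rp_mono hd ?_)
      linarith [q1.2.2.1]
  · rw [rd_kd N n p (by omega)] at hk
    rw [rd_be N n p (by omega)]
    rcases h.cbe l hl hk with h0 | h0
    · left
      rw [h0]
      simp
    · right
      refine h0.trans (mul_le_mul_of_nonneg_right (rp_mono hd ?_) (Real.sqrt_nonneg _))
      linarith [(q2 l).2.2.1]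
  · rw [rd_kd N n p (by omega)] at hk
    rw [rd_h N n p (by omega)]
    rcases h.ch l hl hk with h0 | h0
    · left
      rw [h0]
      simp
    · right
      refine h0.trans (rp_mono hd ?_)
      linarith [(q3 l).2.2.1]
  · rw [rd_kd N n p (by omega)] at hk
    rw [rd_bb N n p (by omega) (by omega)]
    refine le_trans (rp_mono hd ?_) (h.cbb l hl hk i hi)
    linarith [(ce hN (hp.bb0 l i).1 (hp.bb0 l i).2).2.2.2.1]
  · rw [rd_b N n p (by omega)]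
    rcases h.cb l hl with h0 | ⟨i, hi, h0⟩
    · left
      rw [h0]
      simp
    · right
      refine ⟨i, hi, h0.trans (rp_mono hd ?_)⟩
      linarith [(q4 l).2.2.1]

/-- the grid -/
def gridK (N n : ℕ) : Set PatK := {q | ∃ p : PatK, p.ok ∧ q = rdK N n p}

private theorem PG_congr {N n : ℕ} {a a' : ℕ → ℕ → ℕ} {m m' : ℕ → ℕ → ℕ} {k k' : ℕ → Kd}
    (h0 : a 0 0 = a' 0 0) (h1 : a 1 0 = a' 1 0) (h2 : ∀ i, i < 5 → ∀ l ≤ n + 1, a i l = a' i l)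
    (h3 : ∀ l ≤ n + 1, ∀ i ≤ n + 1, m l i = m' l i) (h4 : ∀ l ≤ n + 1, k l = k' l) :
    PG N n a m k = PG N n a' m' k' := by
  have e : ∀ i, i < 5 → (fun l => if l ≤ n + 1 then (a i l : ℝ) / N else 0) =
      fun l => if l ≤ n + 1 then (a' i l : ℝ) / N else 0 := by
    intro i hi
    funext l
    by_cases hl : l ≤ n + 1
    · rw [if_pos hl, if_pos hl, h2 i hi l hl]
    · rw [if_neg hl, if_neg hl]
  have e3 : (fun l i => if l ≤ n + 1 ∧ i ≤ n + 1 then (m l i : ℝ) / N else 0) =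
      fun l i => if l ≤ n + 1 ∧ i ≤ n + 1 then (m' l i : ℝ) / N else 0 := by
    funext l i
    by_cases hl : l ≤ n + 1 ∧ i ≤ n + 1
    · rw [if_pos hl, if_pos hl, h3 l hl.1 i hl.2]
    · rw [if_neg hl, if_neg hl]
  have e4 : (fun l => if l ≤ n + 1 then k l else Kd.free) =
      fun l => if l ≤ n + 1 then k' l else Kd.free := by
    funext l
    by_cases hl : l ≤ n + 1
    · rw [if_pos hl, if_pos hl, h4 l hl]
    · rw [if_neg hl, if_neg hl]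
  unfold PG
  rw [h0, h1, e 2 (by norm_num), e 3 (by norm_num), e 4 (by norm_num), e3, e4]

theorem grid_fin {N n : ℕ} (hN : 1 ≤ N) : (gridK N n).Finite := by
  have hN' : (0 : ℝ) < N := by exact_mod_cast hN
  have f : (Set.range (fun q : (Fin 5 → Fin (n + 2) → Fin (2 * N + 1)) ×
      (Fin (n + 2) → Fin (n + 2) → Fin (2 * N + 1)) × (Fin (n + 2) → Kd) =>
    PG N n (fun i l => if h : i < 5 ∧ l < n + 2 then (q.1 ⟨i, h.1⟩ ⟨l, h.2⟩ : ℕ) else 0)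
      (fun l i => if h : l < n + 2 ∧ i < n + 2 then (q.2.1 ⟨l, h.1⟩ ⟨i, h.2⟩ : ℕ) else 0)
      (fun l => if h : l < n + 2 then q.2.2 ⟨l, h⟩ else Kd.free))).Finite := Set.finite_range _
  refine f.subset ?_
  rintro q ⟨p, hp, rfl⟩
  have hex : ∀ i l, 0 ≤ exK p i l ∧ exK p i l ≤ 2 := by
    intro i l
    unfold exK
    split_ifs
    · exact ⟨hp.th0.1, hp.th0.2.trans (by norm_num)⟩
    · exact ⟨hp.hc0.1, hp.hc0.2.trans (by norm_num)⟩
    · exact ⟨(hp.be0 l).1, (hp.be0 l).2.trans (by norm_num)⟩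
    · exact ⟨(hp.h0 l).1, (hp.h0 l).2.trans (by norm_num)⟩
    · exact hp.b0 l
    · exact ⟨le_refl _, zero_le_two⟩
  have hfl : ∀ i l, ⌊(N : ℝ) * exK p i l⌋₊ < 2 * N + 1 := by
    intro i l
    rw [Nat.lt_succ_iff]
    apply Nat.floor_le_of_le
    push_cast
    nlinarith [(hex i l).2]
  have hce : ∀ l i, ⌈(N : ℝ) * p.bb l i⌉₊ < 2 * N + 1 := by
    intro l i
    exact Nat.lt_succ_iff.2 (ce hN (hp.bb0 l i).1 (hp.bb0 l i).2).1
  refine ⟨(fun i l => ⟨⌊(N : ℝ) * exK p i l⌋₊, hfl i l⟩,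
    fun l i => ⟨⌈(N : ℝ) * p.bb l i⌉₊, hce l i⟩, fun l => p.kd l), ?_⟩
  unfold rdK
  refine PG_congr ?_ ?_ (fun i hi l hl => ?_) (fun l hl i hi => ?_) (fun l hl => ?_)
  · rw [dif_pos ⟨by norm_num, by omega⟩]
  · rw [dif_pos ⟨by norm_num, by omega⟩]
  · rw [dif_pos ⟨hi, by omega⟩]
  · rw [dif_pos ⟨by omega, by omega⟩]
  · rw [dif_pos (by omega)]

end Pool.Agent.H73.SG
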