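import Pool.Agent.H73.SG.Pb
import Pool.Agent.H73.SG.Det
import Pool.Agent.H73.ES.Supb
import Pool.Agent.H73.ES.Infb
import Pool.Agent.H73.ES.Opn

/-!
# [H73 SG Main] The random part of the SHARP SmoothedFatou theorem

Outside an open set of exceptional probability `d ^ (-1 + ε)` every pattern (with real exponents) that occurs at a critical point has
cost `≤ 2 - ε/2`.
-/

set_option autoImplicit false

open Finset MeasureTheory

namespace Pool.Agent.H73.SG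

open Pool.H70.SF Pool.Agent.H73.ES

theorem sg_main (n : ℕ) {ε : ℝ} (hε : 0 < ε) (hε1 : ε ≤ 1 / 10) : ∃ κm : ℝ, 0 < κm ∧
    ∀ κ, 0 < κ → κ ≤ κm → ∃ d0 : ℕ, ∀ d ≥ d0, ∀ (A : ℝ) (X0 : CV d) (τ : ℝ), 0 ≤ A →
    (d : ℝ) ^ (-κ) ≤ τ → τ ≤ 1 → gau A X0 τ Set.univ ≤ 1 →
    (∀ u, IsU u → nn (FF X0 u) ≤ (d : ℝ) ^ κ / 2) →
    ∃ O : Set (CV d), IsOpen O ∧ gau A X0 τ Oᶜ ≤ ENNReal.ofReal ((d : ℝ) ^ (-1 + ε)) ∧ ∀ X ∈ O,
      BN2 (X - X0) ≤ (d : ℝ) ^ 2 + 1 ∧ GG ((d : ℝ) ^ κ) X ∧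
      ∀ c, IsU c → JJ X c = 0 → ∀ p : PatK, p.ok → ∀ T ≤ n + 1, CdK X c p T →
        -1 + ε / 2 ≤ bdK p T := by
  classical
  have hn : (0 : ℝ) ≤ n := Nat.cast_nonneg n
  obtain ⟨N, hN⟩ : ∃ N : ℕ, N = ⌈120 * ((n : ℝ) + 2) ^ 2 / ε⌉₊ := ⟨_, rfl⟩
  have hN1 : 120 * ((n : ℝ) + 2) ^ 2 / ε ≤ N := by
    rw [hN]
    exact Nat.le_ceil _
  have hN0 : 1 ≤ N := by
    rw [hN, Nat.one_le_ceil_iff]
    positivity
  have hN' : (0 : ℝ) < N := by exact_mod_cast hN0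
  have hNe : 30 * ((n : ℝ) + 2) ^ 2 / N ≤ ε / 4 := by
    rw [div_le_iff₀ hN']
    rw [div_le_iff₀ hε] at hN1
    linarith
  obtain ⟨κm, hκm⟩ : ∃ κm : ℝ, κm = ε / (16 * (6 * n + 14)) := ⟨_, rfl⟩
  have hκme : κm * (16 * (6 * n + 14)) = ε := by
    rw [hκm]
    field_simp
  have hκmp : 0 < κm := by
    rw [hκm]
    positivity
  obtain ⟨C1, d1, hC1, hpb⟩ := pbK n
  obtain ⟨C3, hC3, hinf⟩ := infb
  have hfin : ({q : PatK × ℕ | q.1 ∈ gridK N n ∧ q.2 ≤ n + 1 ∧ bdK q.1 q.2 ≤ -1 + 3 * ε / 4}).Finite := by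
    refine ((grid_fin (N := N) (n := n) hN0).prod (Set.finite_Iic (n + 1))).subset ?_
    rintro q ⟨h1, h2, _⟩
    exact ⟨h1, h2⟩
  obtain ⟨S, hS⟩ : ∃ S : Finset (PatK × ℕ), S = hfin.toFinset := ⟨_, rfl⟩
  have hSm : ∀ q, q ∈ S ↔ (q.1 ∈ gridK N n ∧ q.2 ≤ n + 1 ∧ bdK q.1 q.2 ≤ -1 + 3 * ε / 4) := by
    intro q
    rw [hS, Set.Finite.mem_toFinset]
    exact Iff.rfl
  refine ⟨κm, hκmp, fun κ hκp hκle => ?_⟩
  have hκs : 2 * κ * (6 * n + 14) ≤ ε / 8 := by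
    have h1 : κ * (16 * (6 * n + 14)) ≤ ε := by
      rw [← hκme]
      exact mul_le_mul_of_nonneg_right hκle (by positivity)
    linarith
  have hκ6 : 6 * κ ≤ ε / 8 := by nlinarith
  obtain ⟨d2, hsup⟩ := supb hκp
  obtain ⟨d3, hd3⟩ : ∃ d3 : ℕ, ∀ d : ℕ, d3 ≤ d → 1 + C3 + S.card * C1 ≤ (d : ℝ) ^ (ε / 8) := by
    have h1 : Filter.Tendsto (fun d : ℕ => (d : ℝ) ^ (ε / 8)) Filter.atTop Filter.atTop :=
      (tendsto_rpow_atTop (by positivity)).comp tendsto_natCast_atTop_atTop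
    exact Filter.eventually_atTop.1 (h1.eventually_ge_atTop _)
  refine ⟨max (max 2 d1) (max d2 d3), fun d hd A X0 τ hA hτ hτ1 hg hX0 => ?_⟩
  have hd2' : 2 ≤ d := le_trans (le_trans (le_max_left _ _) (le_max_left _ _)) hd
  have hdd1 : d1 ≤ d := le_trans (le_trans (le_max_right _ _) (le_max_left _ _)) hd
  have hdd2 : d2 ≤ d := le_trans (le_trans (le_max_left _ _) (le_max_right _ _)) hd
  have hdd3 : d3 ≤ d := le_trans (le_trans (le_max_right _ _) (le_max_right _ _)) hd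
  have hd1 : 1 ≤ d := by omega
  have hd1r : (1 : ℝ) ≤ d := by exact_mod_cast hd1
  have hd0 : (0 : ℝ) < d := by linarith
  have hmono : ∀ {x y : ℝ}, x ≤ y → (d : ℝ) ^ x ≤ (d : ℝ) ^ y := fun h =>
    Real.rpow_le_rpow_of_exponent_le hd1r h
  have hτ0 : 0 < τ := lt_of_lt_of_le (Real.rpow_pos_of_pos hd0 _) hτ
  obtain ⟨R, hR⟩ : ∃ R : ℝ, R = (d : ℝ) ^ κ := ⟨_, rfl⟩
  have hR1 : 1 ≤ R := by
    rw [hR]
    exact Real.one_le_rpow hd1r hκp.le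
  have hRd : R ≤ d := by
    rw [hR]
    calc (d : ℝ) ^ κ ≤ (d : ℝ) ^ (1 : ℝ) := hmono (by linarith)
      _ = d := Real.rpow_one _
  obtain ⟨t, ht⟩ : ∃ t : ℝ, t = (d : ℝ) ^ (-1 + 7 * ε / 8) := ⟨_, rfl⟩
  have ht0 : 0 < t := by
    rw [ht]
    exact Real.rpow_pos_of_pos hd0 _
  have hRτ : R / τ ≤ (d : ℝ) ^ (2 * κ) := by
    rw [div_le_iff₀ hτ0, hR]
    calc (d : ℝ) ^ κ = (d : ℝ) ^ (2 * κ) * (d : ℝ) ^ (-κ) := by
          rw [← Real.rpow_add hd0]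
          congr 1
          ring
      _ ≤ (d : ℝ) ^ (2 * κ) * τ :=
          mul_le_mul_of_nonneg_left hτ (Real.rpow_nonneg hd0.le _)
  have hRτ1 : 1 ≤ (d : ℝ) ^ (2 * κ) := Real.one_le_rpow hd1r (by linarith)
  -- the bad sets
  have hZ : ∀ q ∈ S, ∃ Z : Set (CV d), IsClosed Z ∧ BadK R q.1 q.2 ⊆ Z ∧
      gau A X0 τ Z ≤ ENNReal.ofReal (C1 * t) := by
    intro q hq
    obtain ⟨⟨p, hp, hpq⟩, h2, h3⟩ := (hSm q).1 hq
    have h1 : q.1.ok := by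
      rw [hpq]
      exact rd_ok hN0 hp
    obtain ⟨Z, hZ1, hZ2, hZ3⟩ := hpb d hdd1 A X0 τ hA hτ0 hτ1 hg R hR1 hRd q.1 h1 q.2 h2
    refine ⟨Z, hZ1, hZ2, hZ3.trans (ENNReal.ofReal_le_ofReal ?_)⟩
    rw [mul_assoc]
    apply mul_le_mul_of_nonneg_left _ hC1
    have h4 : (R / τ) ^ (6 * q.2 + 8) ≤ (d : ℝ) ^ (ε / 8) := by
      calc (R / τ) ^ (6 * q.2 + 8) ≤ ((d : ℝ) ^ (2 * κ)) ^ (6 * q.2 + 8) :=
            pow_le_pow_left₀ (by positivity) hRτ _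
        _ ≤ ((d : ℝ) ^ (2 * κ)) ^ (6 * n + 14) := pow_le_pow_right₀ hRτ1 (by omega)
        _ = (d : ℝ) ^ (2 * κ * (6 * n + 14)) := by
            rw [← Real.rpow_natCast, ← Real.rpow_mul hd0.le]
            congr 2
            push_cast
            ring
        _ ≤ (d : ℝ) ^ (ε / 8) := hmono hκs
    calc (R / τ) ^ (6 * q.2 + 8) * (d : ℝ) ^ bdK q.1 q.2
        ≤ (d : ℝ) ^ (ε / 8) * (d : ℝ) ^ (-1 + 3 * ε / 4) :=
          mul_le_mul h4 (hmono h3) (Real.rpow_nonneg hd0.le _) (Real.rpow_nonneg hd0.le _)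
      _ = t := by
          rw [← Real.rpow_add hd0, ht]
          congr 1
          ring
  choose! Z hZc hZs hZm using hZ
  obtain ⟨O1, hO1⟩ : ∃ O1 : Set (CV d), O1 = {X : CV d | BN2 (X - X0) < (d : ℝ) ^ 2 + 1 ∧
    ∀ u, IsU u → (d : ℝ)⁻¹ < nn (FF X u) ∧ nn (FF X u) < R} := ⟨_, rfl⟩
  have hO1o : IsOpen O1 := by
    rw [hO1]
    exact gg_open X0 _ _ _
  obtain ⟨E1, hE1⟩ : ∃ E1 : Set (CV d), E1 = {X : CV d | ¬ (BN2 (X - X0) ≤ (d : ℝ) ^ 2 ∧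
    ∀ u, IsU u → nn (FF X u) < (d : ℝ) ^ κ)} := ⟨_, rfl⟩
  obtain ⟨E2, hE2⟩ : ∃ E2 : Set (CV d), E2 = {X : CV d | (∀ u, IsU u → nn (FF X u) ≤ R) ∧
    ∃ u, IsU u ∧ nn (FF X u) ≤ (d : ℝ)⁻¹} := ⟨_, rfl⟩
  have m1 : gau A X0 τ E1 ≤ ENNReal.ofReal t := by
    rw [hE1]
    refine (hsup d hdd2 A X0 τ hA hτ0 hτ1 hg hX0).trans (ENNReal.ofReal_le_ofReal ?_)
    rw [ht, one_div, ← Real.rpow_neg_one]
    exact hmono (by linarith)
  have m2 : gau A X0 τ E2 ≤ ENNReal.ofReal (C3 * t) := by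
    rw [hE2]
    refine (hinf d hd2' A X0 τ hA hτ0 hτ1 hg R hR1).trans (ENNReal.ofReal_le_ofReal ?_)
    rw [mul_div_assoc]
    apply mul_le_mul_of_nonneg_left _ hC3
    have h1 : ((d : ℝ) ^ (-κ)) ^ 4 ≤ τ ^ 4 :=
      pow_le_pow_left₀ (Real.rpow_nonneg hd0.le _) hτ 4
    have h2 : ((d : ℝ) ^ (-κ)) ^ 4 = (d : ℝ) ^ (-(4 * κ)) := by
      rw [← Real.rpow_natCast, ← Real.rpow_mul hd0.le]
      congr 1
      push_cast
      ring
    have h3 : R ^ 2 = (d : ℝ) ^ (2 * κ) := by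
      rw [hR, ← Real.rpow_natCast, ← Real.rpow_mul hd0.le]
      congr 1
      push_cast
      ring
    rw [h2] at h1
    rw [div_le_iff₀ (by positivity), h3]
    calc (d : ℝ) ^ (2 * κ) ≤ (d : ℝ) ^ ((-1 + 7 * ε / 8) + 1 + -(4 * κ)) := hmono (by linarith)
      _ = t * (d * (d : ℝ) ^ (-(4 * κ))) := by
          rw [Real.rpow_add hd0, Real.rpow_add hd0, Real.rpow_one, ht]
          ring
      _ ≤ t * (d * τ ^ 4) := by
          apply mul_le_mul_of_nonneg_left _ ht0.le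
          exact mul_le_mul_of_nonneg_left h1 hd0.le
  refine ⟨O1 \ ⋃ q ∈ S, Z q, ?_, ?_, ?_⟩
  · exact hO1o.sdiff (isClosed_biUnion_finset hZc)
  · have hsub : (O1 \ ⋃ q ∈ S, Z q)ᶜ ⊆ (E1 ∪ E2) ∪ ⋃ q ∈ S, Z q := by
      intro X hX
      by_cases hXZ : X ∈ ⋃ q ∈ S, Z q
      · exact Or.inr hXZ
      · left
        have hXO : X ∉ O1 := fun h => hX ⟨h, hXZ⟩
        by_cases hXE : X ∈ E1
        · exact Or.inl hXE
        · right
          rw [hE1] at hXE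
          have hXE := not_not.1 hXE
          obtain ⟨h1, h2⟩ := hXE
          rw [hE2]
          rw [← hR] at h2
          refine ⟨fun u hu => (h2 u hu).le, ?_⟩
          by_contra hcon
          apply hXO
          rw [hO1]
          refine ⟨by linarith, fun u hu => ⟨?_, h2 u hu⟩⟩
          by_contra h3
          exact hcon ⟨u, hu, not_lt.1 h3⟩
    refine (measure_mono hsub).trans ((measure_union_le _ _).trans ?_)
    refine (add_le_add ((measure_union_le _ _).trans (add_le_add m1 m2))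
      ((measure_biUnion_finset_le S Z).trans (sum_le_sum hZm))).trans ?_
    rw [sum_const, ← ENNReal.ofReal_nsmul, ← ENNReal.ofReal_add ht0.le (by positivity),
      ← ENNReal.ofReal_add (by positivity) (by positivity)]
    apply ENNReal.ofReal_le_ofReal
    rw [nsmul_eq_mul]
    calc t + C3 * t + S.card * (C1 * t) = (1 + C3 + S.card * C1) * t := by ring
      _ ≤ (d : ℝ) ^ (ε / 8) * t := mul_le_mul_of_nonneg_right (hd3 d hdd3) ht0.le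
      _ = (d : ℝ) ^ (-1 + ε) := by
          rw [ht, ← Real.rpow_add hd0]
          congr 1
          ring
  · rintro X ⟨hXO, hXZ⟩
    rw [hO1] at hXO
    obtain ⟨h1, h2⟩ := hXO
    have hGG : GG R X := fun u hu => ⟨(h2 u hu).1.le, (h2 u hu).2.le⟩
    refine ⟨h1.le, ?_, ?_⟩
    · rw [← hR]
      exact hGG
    · intro c hc hJ p hp T hT hcd
      by_contra hcon
      rw [not_le] at hcon
      apply hXZ
      rw [Set.mem_iUnion₂]
      have hq : (rdK N n p, T) ∈ S := by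
        rw [hSm]
        refine ⟨⟨p, hp, rfl⟩, hT, ?_⟩
        have := rd_bd (N := N) (n := n) hN0 hp hT
        simp only
        linarith
      refine ⟨(rdK N n p, T), hq, hZs _ hq ⟨hGG, c, hc, hJ, ?_⟩⟩
      exact rd_cd hN0 hp hT hd1 hcd

end Pool.Agent.H73.SG
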