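import Pool.Agent.H73.ES.Cd

/-!
# [H73 SG Cd] SHARP SmoothedFatou, random part: patterns with kinds of steps (definitions)

`u 0` is the net point near the critical point `c = pt 0`, `u (l + 1)` the one near `y_l = ob X c l = pt (l + 1)`.
Kinds of the step at `y_l`: `full` (`y_l` far from all earlier points: all exponents), `free` (near point, no condition), `der` (near point,
derivative event), `pos` (near point, the next point is close to an earlier point). `mu p i` is the number of jets of `pt i` used by the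
conditions, `ML p l` the loss exponent at `y_l`, `stE p l` the exponent of the factor of step `l`, `bdK p T` the exponent of the bound of the
measure: `1 - cost`.
-/

set_option autoImplicit false

open Finset MeasureTheory

namespace Pool.Agent.H73.SG

open Pool.H70.SF Pool.Agent.H73.ES

/-- kinds of steps -/
inductive Kd : Type
  | full | free | der | pos
  deriving DecidableEq

instance : Fintype Kd where
  elems := {Kd.full, Kd.free, Kd.der, Kd.pos}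
  complete := by intro k; cases k <;> simp

/-- a pattern of exponents and kinds -/
structure PatK where
  th : ℝ
  hc : ℝ
  be : ℕ → ℝ
  h : ℕ → ℝ
  b : ℕ → ℝ
  bb : ℕ → ℕ → ℝ
  kd : ℕ → Kd

/-- bounds of the exponents -/
structure PatK.ok (p : PatK) : Prop where
  th0 : 0 ≤ p.th ∧ p.th ≤ 1
  hc0 : 0 ≤ p.hc ∧ p.hc ≤ 1
  be0 : ∀ l, 0 ≤ p.be l ∧ p.be l ≤ 1
  h0 : ∀ l, 0 ≤ p.h l ∧ p.h l ≤ 1
  b0 : ∀ l, 0 ≤ p.b l ∧ p.b l ≤ 2
  bb0 : ∀ l i, 0 ≤ p.bb l i ∧ p.bb l i ≤ 2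

/-- multiplicity of the kind -/
def Kd.mul : Kd → ℕ
  | .full => 2
  | .free => 1
  | .der => 2
  | .pos => 1

/-- multiplicity of `pt i` -/
def mu (p : PatK) : ℕ → ℕ
  | 0 => 3
  | i + 1 => (p.kd i).mul

/-- loss exponent at `y_l` -/
noncomputable def ML (p : PatK) (l : ℕ) : ℝ :=
  ∑ i ∈ range (l + 1), (mu p i : ℝ) * max 0 (p.bb l i - 1 / 2)

/-- exponent of the factor of the step `l` -/
noncomputable def stE (p : PatK) (l : ℕ) : ℝ :=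
  match p.kd l with
  | .full => -(4 * p.h l + 2 * p.be l) - 2 * p.b (l + 1) + 6 * ML p l
  | .free => 0
  | .der => -(2 * p.be l) + 2 * ML p l
  | .pos => -(2 * p.b (l + 1)) + 2 * ML p l

/-- the exponent of the bound: `1 - cost` -/
noncomputable def bdK (p : PatK) (T : ℕ) : ℝ :=
  1 - 4 * p.th - 4 * p.hc - 2 * p.b 0 + ∑ l ∈ range T, stE p l

/-- disc conditions at the start -/
def StK0 {d : ℕ} (K R : ℝ) (η : ℕ → ℝ) (p : PatK) (u : ℕ → ℂ × ℂ) (X : CV d) : Prop :=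
  ‖wd (FF X (u 0)) (u 1)‖ ≤ K * R * η 1 * (d : ℝ) ^ (-p.hc) ∧
    ‖hm (FF X (u 0)) (u 1)‖ ≤ K * R * (d : ℝ) ^ (-p.hc) ∧
    ‖wd (jv X (u 0) 1) (u 1)‖ ≤ K * R * (d : ℝ) ^ (1 - p.th) * η 0 ∧
    ‖wd (jv X (u 0) 2) (u 1)‖ ≤ K * R * (d : ℝ) ^ (1 - p.th)

/-- conditions of a step at the net point `v`, target `w` (mesh `e`), by kind -/
def StV {d : ℕ} (K R e be h : ℝ) (k : Kd) (v w : ℂ × ℂ) (X : CV d) : Prop :=
  match k with
  | .full => ‖wd (FF X v) w‖ ≤ K * R * e * (d : ℝ) ^ (-h) ∧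
      ‖hm (FF X v) w‖ ≤ K * R * (d : ℝ) ^ (-h) ∧
      ‖wd (jv X v 1) w‖ ≤ K * R * (d : ℝ) ^ (1 / 2 - be)
  | .free => (d : ℝ)⁻¹ ≤ nn (FF X v) ∧ ‖wd (FF X v) w‖ ≤ K * e * nn (FF X v)
  | .der => ((d : ℝ)⁻¹ ≤ nn (FF X v) ∧ ‖wd (FF X v) w‖ ≤ K * e * nn (FF X v)) ∧
      ‖wd (jv X v 1) w‖ ≤ K * R * (d : ℝ) ^ (1 / 2 - be)
  | .pos => ‖wd (FF X v) w‖ ≤ K * R * e

/-- conditions of step `l` (at the point `u (l + 1)`, target `u (l + 2)`) -/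
def StK {d : ℕ} (K R : ℝ) (η : ℕ → ℝ) (p : PatK) (u : ℕ → ℂ × ℂ) (l : ℕ) (X : CV d) : Prop :=
  StV K R (η (l + 2)) (p.be l) (p.h l) (p.kd l) (u (l + 1)) (u (l + 2)) X

/-- `u (l + 1)` is close to an earlier point -/
def DeK (d : ℕ) (p : PatK) (u : ℕ → ℂ × ℂ) (l : ℕ) : Prop :=
  p.b l = 0 ∨ ∃ i ≤ l, ‖wd (u (l + 1)) (u i)‖ ≤ 2 * (d : ℝ) ^ (-p.b l)

/-- `u (l + 1)` is not too close to the earlier points (if the kind is not `free`) -/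
def DlK (d : ℕ) (p : PatK) (u : ℕ → ℂ × ℂ) (l : ℕ) : Prop :=
  p.kd l = Kd.free ∨ ∀ i ≤ l, (d : ℝ) ^ (-p.bb l i) / 2 ≤ ‖wd (u (l + 1)) (u i)‖

/-- the coded set -/
def CodK {d : ℕ} (K R : ℝ) (η : ℕ → ℝ) (N : ℕ → Finset (ℂ × ℂ)) (p : PatK) (T : ℕ) :
    Set (CV d) :=
  {X | ∃ u : ℕ → ℂ × ℂ, (∀ k ≤ T + 1, u k ∈ N k) ∧ StK0 K R η p u X ∧
    (∀ l < T, StK K R η p u l X ∧ DlK d p u l) ∧ ∀ l ≤ T, DeK d p u l}

/-- the conditions of the pattern `p` hold for the critical point `c` of `X`, for `T` steps -/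
structure CdK {d : ℕ} (X : CV d) (c : ℂ × ℂ) (p : PatK) (T : ℕ) : Prop where
  cth : p.th = 0 ∨ 2 * ‖wd (FF X c) (jv X c 2)‖ ≤ (d : ℝ) ^ (1 - p.th) * nn (FF X c)
  chc : p.hc = 0 ∨ nn (FF X c) ≤ (d : ℝ) ^ (-p.hc)
  cbe : ∀ l < T, (p.kd l = Kd.full ∨ p.kd l = Kd.der) → (p.be l = 0 ∨
    ‖wd (FF X (ob X c l)) (jv X (ob X c l) 1)‖ ≤ (d : ℝ) ^ (1 / 2 - p.be l) * nn (FF X (ob X c l)))
  ch : ∀ l < T, p.kd l = Kd.full → (p.h l = 0 ∨ nn (FF X (ob X c l)) ≤ (d : ℝ) ^ (-p.h l))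
  cbb : ∀ l < T, p.kd l ≠ Kd.free → ∀ i ≤ l, (d : ℝ) ^ (-p.bb l i) ≤ ‖wd (ob X c l) (pt X c i)‖
  cb : ∀ l ≤ T, p.b l = 0 ∨ ∃ i ≤ l, ‖wd (ob X c l) (pt X c i)‖ ≤ (d : ℝ) ^ (-p.b l)

/-- the bad set of a pattern -/
def BadK {d : ℕ} (R : ℝ) (p : PatK) (T : ℕ) : Set (CV d) :=
  {X | GG R X ∧ ∃ c, IsU c ∧ JJ X c = 0 ∧ CdK X c p T}

end Pool.Agent.H73.SG
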