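import Pool.Agent.H73.SG.CntB

/-!
# [H73 SG Cnt] The counting induction with kinds

Adaptation of `Pool.Agent.H73.ES.Cnt`.
-/

set_option autoImplicit false

open Finset MeasureTheory

namespace Pool.Agent.H73.SG

open Pool.H70.SF Pool.Agent.H73.ES

/-- conditions up to step `l` -/
private def EP {d : ℕ} (K R : ℝ) (η : ℕ → ℝ) (p : PatK) (l : ℕ) (u : ℕ → ℂ × ℂ) : Set (CV d) :=
  {X | StK0 K R η p u X ∧ ∀ k < l, StK K R η p u k X}

/-- the coded set above the first `l + 2` points -/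
private def WW {d : ℕ} (K R : ℝ) (η : ℕ → ℝ) (N : ℕ → Finset (ℂ × ℂ)) (p : PatK) (T l : ℕ)
    (u : ℕ → ℂ × ℂ) : Set (CV d) :=
  {X | X ∈ EP (d := d) K R η p l u ∧ ∃ u' : ℕ → ℂ × ℂ, (∀ i ≤ l + 1, u' i = u i) ∧
    (∀ k ≤ T + 1, u' k ∈ N k) ∧ (∀ k < T, StK K R η p u' k X ∧ DlK d p u' k) ∧
    ∀ k ≤ T, DeK d p u' k}

private theorem EP_meas {d : ℕ} (K R : ℝ) (η : ℕ → ℝ) (p : PatK) (l : ℕ) (u : ℕ → ℂ × ℂ) :
    MeasurableSet (EP (d := d) K R η p l u) := by
  apply IsClosed.measurableSet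
  have e : EP (d := d) K R η p l u =
      {X | StK0 K R η p u X} ∩ ⋂ k ∈ {k | k < l}, {X | StK K R η p u k X} := by
    ext X
    simp [EP]
  rw [e]
  exact (st0_closed K R η p u).inter (isClosed_biInter fun k _ => stV_closed _ _ _ _ _ _ _ _)

private theorem EP_inv {d : ℕ} (K R : ℝ) (η : ℕ → ℝ) (p : PatK) (l : ℕ) (u : ℕ → ℂ × ℂ)
    (X f : CV d) (h1 : VanE (mu p) u (l + 1) f.1) (h2 : VanE (mu p) u (l + 1) f.2) :
    X + f ∈ EP K R η p l u ↔ X ∈ EP K R η p l u := by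
  have e0 : mu p 0 = 3 := rfl
  have a0 := ff_van X f (u 0) (h1 0 (by omega) 0 (by omega)) (h2 0 (by omega) 0 (by omega))
  have a1 := jv_van X f (u 0) 1 (h1 0 (by omega) 1 (by omega)) (h2 0 (by omega) 1 (by omega))
  have a2 := jv_van X f (u 0) 2 (h1 0 (by omega) 2 (by omega)) (h2 0 (by omega) 2 (by omega))
  have c0 : StK0 K R η p u (X + f) ↔ StK0 K R η p u X := by
    unfold StK0
    rw [a0, a1, a2]
  have c1 : ∀ k < l, (StK K R η p u k (X + f) ↔ StK K R η p u k X) := by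
    intro k hk
    have em : mu p (k + 1) = (p.kd k).mul := rfl
    have hm1 : 0 < mu p (k + 1) := by
      rw [em]
      cases p.kd k <;> simp [Kd.mul]
    have b0 := ff_van X f (u (k + 1)) (h1 (k + 1) (by omega) 0 hm1) (h2 (k + 1) (by omega) 0 hm1)
    have b1 : (p.kd k = Kd.full ∨ p.kd k = Kd.der) →
        jv (X + f) (u (k + 1)) 1 = jv X (u (k + 1)) 1 := by
      intro h
      have hm2 : 1 < mu p (k + 1) := by
        rw [em]
        rcases h with h | h <;> rw [h] <;> simp [Kd.mul]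
      exact jv_van X f _ 1 (h1 (k + 1) (by omega) 1 hm2) (h2 (k + 1) (by omega) 1 hm2)
    unfold StK
    cases hkd : p.kd k with
    | full =>
      unfold StV
      simp only
      rw [b0, b1 (Or.inl hkd)]
    | free =>
      unfold StV
      simp only
      rw [b0]
    | der =>
      unfold StV
      simp only
      rw [b0, b1 (Or.inr hkd)]
    | pos =>
      unfold StV
      simp only
      rw [b0]
  unfold EP
  change _ ∧ _ ↔ _ ∧ _
  rw [c0]
  exact and_congr_right fun _ => forall_congr' fun k => forall_congr' fun hk => c1 k hk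

private theorem st0_congr {d : ℕ} {K R : ℝ} {η : ℕ → ℝ} {p : PatK} {u v : ℕ → ℂ × ℂ} {X : CV d}
    (h0 : u 0 = v 0) (h1 : u 1 = v 1) (h : StK0 K R η p u X) : StK0 K R η p v X := by
  unfold StK0 at h ⊢
  rw [← h0, ← h1]
  exact h

private theorem st_congr {d : ℕ} {K R : ℝ} {η : ℕ → ℝ} {p : PatK} {u v : ℕ → ℂ × ℂ} {X : CV d}
    {k : ℕ} (h0 : u (k + 1) = v (k + 1)) (h1 : u (k + 2) = v (k + 2)) (h : StK K R η p u k X) :
    StK K R η p v k X := by
  unfold StK at h ⊢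
  rw [← h0, ← h1]
  exact h

theorem et_le2 {d n k : ℕ} (hd : 1 ≤ d) (hk : k ≤ n + 2) :
    et d (6 * n + 30) k ≤ ((d : ℝ) ^ 2)⁻¹ := by
  have hd1 : (1 : ℝ) ≤ d := by exact_mod_cast hd
  have hd0 : (0 : ℝ) < d := by linarith
  have h1 : (d : ℝ) ^ 10 * et d (6 * n + 30) k ≤ 1 := et_f5 hd hk
  have h2 := et_pos (B := 6 * n + 30) hd k
  rw [← one_div, le_div_iff₀ (by positivity), mul_comm]
  refine le_trans ?_ h1
  exact mul_le_mul_of_nonneg_right (pow_le_pow_right₀ hd1 (by norm_num)) h2.le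

/-- factor of the step `k` -/
private noncomputable def Fk (n : ℕ) (K : ℝ) (d : ℕ) (ρ : ℝ) (p : PatK) (k : ℕ) : ℝ :=
  C1 n K * ρ ^ 6 * (d : ℝ) ^ stE p k

private theorem step {n : ℕ} {K : ℝ} (hK : 1 ≤ K) {d : ℕ} (hd : 3 * n + 10 ≤ d) {A : ℝ}
    (X0 : CV d) {τ : ℝ} (hA : 0 ≤ A) (hτ : 0 < τ) (hτ1 : τ ≤ 1) {R : ℝ} (hR : 1 ≤ R) {p : PatK}
    (hp : p.ok) {T : ℕ} (hT : T ≤ n + 1) {N : ℕ → Finset (ℂ × ℂ)}
    (hN : ∀ k ≤ T + 1, IsNet (N k) (et d (6 * n + 30) k)) {l : ℕ} (hl : l < T) {P : ℝ}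
    (hP : 0 ≤ P)
    (IH : ∀ u : ℕ → ℂ × ℂ, (∀ i ≤ l + 2, u i ∈ N i) →
      gau A X0 τ (WW K R (et d (6 * n + 30)) N p T (l + 1) u) ≤
        ENNReal.ofReal P * gau A X0 τ (EP K R (et d (6 * n + 30)) p (l + 1) u))
    (u : ℕ → ℂ × ℂ) (hu : ∀ i ≤ l + 1, u i ∈ N i) :
    gau A X0 τ (WW K R (et d (6 * n + 30)) N p T l u) ≤
      ENNReal.ofReal (Fk n K d (R / τ) p l * P) *
        gau A X0 τ (EP K R (et d (6 * n + 30)) p l u) := by
  classical
  set η := et d (6 * n + 30) with hη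
  have hd1 : 1 ≤ d := by omega
  have hdR : (0 : ℝ) < d := by exact_mod_cast hd1
  by_cases hD : DlK d p u l
  swap
  · have h0 : (WW K R η N p T l u : Set (CV d)) = ∅ := by
      rw [Set.eq_empty_iff_forall_notMem]
      rintro X ⟨_, u', h1, _, h3, _⟩
      apply hD
      rcases (h3 l hl).2 with h | h
      · exact Or.inl h
      · right
        intro i hi
        have := h i hi
        rw [h1 (l + 1) le_rfl, h1 i (by omega)] at this
        exact this
    rw [h0, measure_empty]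
    exact zero_le
  · have hU : ∀ i ≤ l + 1, IsU (u i) := fun i hi => (hN i (by omega)).unit _ (hu i hi)
    set S : Finset (ℂ × ℂ) := (N (l + 2)).filter fun w =>
      p.b (l + 1) = 0 ∨ ∃ i ≤ l + 1, ‖wd w (u i)‖ ≤ 2 * (d : ℝ) ^ (-p.b (l + 1)) with hS
    have hNl := hN (l + 2) (by omega)
    have hηpos : 0 < η (l + 2) := et_pos hd1 _
    have hsub : (WW K R η N p T l u : Set (CV d)) ⊆
        ⋃ w ∈ S, WW K R η N p T (l + 1) (Function.update u (l + 2) w) := by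
      rintro X ⟨hX, u', h1, h2, h3, h4⟩
      rw [Set.mem_iUnion₂]
      have hupd : ∀ i ≤ l + 2, u' i = Function.update u (l + 2) (u' (l + 2)) i := by
        intro i hi
        rcases eq_or_ne i (l + 2) with rfl | hne
        · rw [Function.update_self]
        · rw [Function.update_of_ne hne]
          exact h1 i (by omega)
      refine ⟨u' (l + 2), ?_, ⟨?_, ?_⟩, u', ?_, h2, h3, h4⟩
      · rw [hS, Finset.mem_filter]
        refine ⟨h2 _ (by omega), ?_⟩
        rcases h4 (l + 1) (by omega) with h | ⟨i, hi, h⟩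
        · exact Or.inl h
        · right
          refine ⟨i, hi, ?_⟩
          rw [← h1 i hi]
          exact h
      · refine st0_congr ?_ ?_ hX.1
        · rw [← h1 0 (by omega)]
          exact hupd 0 (by omega)
        · rw [← h1 1 (by omega)]
          exact hupd 1 (by omega)
      · intro k hk
        exact st_congr (hupd (k + 1) (by omega)) (hupd (k + 2) (by omega)) (h3 k (by omega)).1
      · intro i hi
        exact hupd i (by omega)
    have hks := kind_sum hK hd X0 hA hτ hτ1 hR hp hT hNl hηpos (et_le2 hd1 (by omega)) hl hU hD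
      (EP_meas (d := d) K R η p l u) (fun X f h1 h2 => EP_inv K R η p l u X f h1 h2) S (by
        intro w hw
        rw [hS, Finset.mem_filter] at hw
        exact hw)
    have hone : ∀ w ∈ S, gau A X0 τ (WW K R η N p T (l + 1) (Function.update u (l + 2) w)) ≤
        ENNReal.ofReal P * gau A X0 τ (EP K R η p l u ∩
          {X | StV K R (η (l + 2)) (p.be l) (p.h l) (p.kd l) (u (l + 1)) w X}) := by
      intro w hw
      have hwN : w ∈ N (l + 2) := by
        rw [hS, Finset.mem_filter] at hw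
        exact hw.1
      have hupd : ∀ i ≤ l + 1, Function.update u (l + 2) w i = u i := by
        intro i hi
        rw [Function.update_of_ne (by omega)]
      refine (IH (Function.update u (l + 2) w) ?_).trans ?_
      · intro i hi
        rcases eq_or_ne i (l + 2) with rfl | hne
        · rw [Function.update_self]
          exact hwN
        · rw [hupd i (by omega)]
          exact hu i (by omega)
      · refine mul_le_mul_right (measure_mono ?_) _
        rintro X ⟨hX0, hX1⟩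
        refine ⟨⟨?_, ?_⟩, ?_⟩
        · exact st0_congr (hupd 0 (by omega)) (hupd 1 (by omega)) hX0
        · intro k hk
          exact st_congr (hupd (k + 1) (by omega)) (hupd (k + 2) (by omega)) (hX1 k (by omega))
        · have h5 := hX1 l (by omega)
          unfold StK at h5
          rw [hupd (l + 1) le_rfl, Function.update_self] at h5
          exact h5
    calc gau A X0 τ (WW K R η N p T l u)
        ≤ gau A X0 τ (⋃ w ∈ S, WW K R η N p T (l + 1) (Function.update u (l + 2) w)) :=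
          measure_mono hsub
      _ ≤ ∑ w ∈ S, gau A X0 τ (WW K R η N p T (l + 1) (Function.update u (l + 2) w)) :=
          measure_biUnion_finset_le _ _
      _ ≤ ∑ w ∈ S, ENNReal.ofReal P * gau A X0 τ (EP K R η p l u ∩
          {X | StV K R (η (l + 2)) (p.be l) (p.h l) (p.kd l) (u (l + 1)) w X}) :=
          Finset.sum_le_sum hone
      _ = ENNReal.ofReal P * ∑ w ∈ S, gau A X0 τ (EP K R η p l u ∩
          {X | StV K R (η (l + 2)) (p.be l) (p.h l) (p.kd l) (u (l + 1)) w X}) := by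
          rw [Finset.mul_sum]
      _ ≤ ENNReal.ofReal P * (ENNReal.ofReal (Fk n K d (R / τ) p l) *
          gau A X0 τ (EP K R η p l u)) := mul_le_mul_right hks _
      _ = _ := by
          rw [← mul_assoc, ← ENNReal.ofReal_mul hP, mul_comm P]

private theorem Fk_nonneg {n : ℕ} {K : ℝ} (hK : 1 ≤ K) {d : ℕ} {ρ : ℝ} (hρ : 0 ≤ ρ) (p : PatK)
    (k : ℕ) : 0 ≤ Fk n K d ρ p k := by
  unfold Fk
  have := C1_one n hK
  have h2 : (0 : ℝ) ≤ (d : ℝ) ^ stE p k := Real.rpow_nonneg (Nat.cast_nonneg d) _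
  positivity

private theorem ind {n : ℕ} {K : ℝ} (hK : 1 ≤ K) {d : ℕ} (hd : 3 * n + 10 ≤ d) {A : ℝ}
    (X0 : CV d) {τ : ℝ} (hA : 0 ≤ A) (hτ : 0 < τ) (hτ1 : τ ≤ 1) {R : ℝ} (hR : 1 ≤ R) {p : PatK}
    (hp : p.ok) {T : ℕ} (hT : T ≤ n + 1) {N : ℕ → Finset (ℂ × ℂ)}
    (hN : ∀ k ≤ T + 1, IsNet (N k) (et d (6 * n + 30) k)) :
    ∀ j l : ℕ, l + j = T → ∀ u : ℕ → ℂ × ℂ, (∀ i ≤ l + 1, u i ∈ N i) →
      gau A X0 τ (WW K R (et d (6 * n + 30)) N p T l u) ≤
        ENNReal.ofReal (∏ k ∈ Ico l T, Fk n K d (R / τ) p k) *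
          gau A X0 τ (EP K R (et d (6 * n + 30)) p l u) := by
  have hρ : 0 ≤ R / τ := by positivity
  intro j
  induction j with
  | zero =>
    intro l hl u hu
    have : l = T := by omega
    subst this
    rw [Finset.Ico_self, Finset.prod_empty, ENNReal.ofReal_one, one_mul]
    exact measure_mono fun X hX => hX.1
  | succ j ih =>
    intro l hl u hu
    have hlT : l < T := by omega
    rw [Finset.prod_eq_prod_Ico_succ_bot hlT]
    exact step hK hd X0 hA hτ hτ1 hR hp hT hN hlT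
      (Finset.prod_nonneg fun k _ => Fk_nonneg hK hρ p k)
      (fun v hv => ih (l + 1) (by omega) v hv) u hu

private theorem prod_Fk {n : ℕ} {K : ℝ} {d : ℕ} (hd : 1 ≤ d) {ρ : ℝ} (p : PatK) (T : ℕ) :
    ∏ k ∈ Ico 0 T, Fk n K d ρ p k = C1 n K ^ T * ρ ^ (6 * T) *
      (d : ℝ) ^ (∑ k ∈ range T, stE p k) := by
  have hd0 : (0 : ℝ) < d := by exact_mod_cast hd
  rw [← Finset.range_eq_Ico]
  unfold Fk
  rw [Finset.prod_mul_distrib, Finset.prod_const, Finset.card_range, Real.rpow_sum_of_pos hd0,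
    mul_pow, ← pow_mul]

private theorem pw_id0 {d : ℕ} (hd : 1 ≤ d) (hc th b : ℝ) :
    ((d : ℝ) ^ (-hc)) ^ 4 * ((d : ℝ) ^ (1 - th)) ^ 4 / (d : ℝ) ^ 3 * ((d : ℝ) ^ (-b)) ^ 2 =
      (d : ℝ) ^ (1 - 4 * th - 4 * hc - 2 * b) := by
  have hd0 : (0 : ℝ) < d := by exact_mod_cast hd
  rw [← Real.rpow_natCast, ← Real.rpow_mul hd0.le, ← Real.rpow_natCast, ← Real.rpow_mul hd0.le,
    ← Real.rpow_natCast, ← Real.rpow_natCast, ← Real.rpow_mul hd0.le, ← Real.rpow_add hd0,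
    ← Real.rpow_sub hd0, ← Real.rpow_add hd0]
  congr 1
  push_cast
  ring

private theorem alg_start {d : ℕ} {K R τ η0 η1 x t z P a b : ℝ} (hK : 1 ≤ K) (hR : 1 ≤ R)
    (hτ : 0 < τ) (h0 : 0 < η0) (h1 : 0 < η1) (hd : 1 ≤ d) (hx : 0 < x) (ht : 0 < t)
    (hz : 0 < z) (hP : 0 ≤ P) (ha0 : 0 ≤ a) (ha : a ≤ 10000 * 1 ^ 2 / η0 ^ 2) (hb0 : 0 ≤ b)
    (hb : b ≤ (((0 : ℕ) : ℝ) + 1) * 40000 * z ^ 2 / η1 ^ 2) :
    a * (b * (P * (4 * (K * R * η1 * x * (K * R * x) * (K * R * t * η0) * (K * R * t)) ^ 2 /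
      ((d : ℝ) ^ 3 * τ ^ 8)))) ≤
      1600000000 * K ^ 8 * (R / τ) ^ 8 * (x ^ 4 * t ^ 4 / (d : ℝ) ^ 3 * z ^ 2) * P := by
  have hd0 : (0 : ℝ) < d := by exact_mod_cast hd
  calc a * (b * (P * (4 * (K * R * η1 * x * (K * R * x) * (K * R * t * η0) * (K * R * t)) ^ 2 /
      ((d : ℝ) ^ 3 * τ ^ 8))))
      ≤ (10000 * 1 ^ 2 / η0 ^ 2) * (((((0 : ℕ) : ℝ) + 1) * 40000 * z ^ 2 / η1 ^ 2) *
        (P * (4 * (K * R * η1 * x * (K * R * x) * (K * R * t * η0) * (K * R * t)) ^ 2 /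
      ((d : ℝ) ^ 3 * τ ^ 8)))) := by gcongr
    _ = _ := by
      push_cast
      field_simp
      ring

theorem cntK (n : ℕ) {K : ℝ} (hK : 1 ≤ K) : ∃ C : ℝ, 0 ≤ C ∧ ∀ d : ℕ, 3 * n + 10 ≤ d →
    ∀ (A : ℝ) (X0 : CV d) (τ : ℝ), 0 ≤ A → 0 < τ → τ ≤ 1 → gau A X0 τ Set.univ ≤ 1 →
    ∀ R : ℝ, 1 ≤ R → ∀ p : PatK, p.ok → ∀ T ≤ n + 1,
    ∀ N : ℕ → Finset (ℂ × ℂ), (∀ k ≤ T + 1, IsNet (N k) (et d (6 * n + 30) k)) →
      gau A X0 τ (CodK K R (et d (6 * n + 30)) N p T) ≤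
        ENNReal.ofReal (C * (R / τ) ^ (6 * T + 8) * (d : ℝ) ^ bdK p T) := by
  classical
  refine ⟨C1 n K ^ (n + 1) * (1600000000 * K ^ 8), ?_, ?_⟩
  · have := C1_one n hK
    positivity
  intro d hd A X0 τ hA hτ hτ1 hgau R hR p hp T hT N hN
  set η := et d (6 * n + 30) with hη
  have hd1 : 1 ≤ d := by omega
  have hdR : (0 : ℝ) < d := by exact_mod_cast hd1
  have hρ : 0 ≤ R / τ := by positivity
  have hη0 : 0 < η 0 := et_pos hd1 _
  have hη1 : 0 < η 1 := et_pos hd1 _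
  have hC1 := C1_one n hK
  set x : ℝ := (d : ℝ) ^ (-p.hc) with hx
  set t : ℝ := (d : ℝ) ^ (1 - p.th) with ht
  set z : ℝ := (d : ℝ) ^ (-p.b 0) with hz
  have hx0 : 0 < x := Real.rpow_pos_of_pos hdR _
  have ht0 : 0 < t := Real.rpow_pos_of_pos hdR _
  have hz0 : 0 < z := Real.rpow_pos_of_pos hdR _
  set P : ℝ := ∏ k ∈ Ico 0 T, Fk n K d (R / τ) p k with hP
  have hP0 : 0 ≤ P := Finset.prod_nonneg fun k _ => Fk_nonneg hK hρ p k
  set c0 : ℝ := 4 * (K * R * η 1 * x * (K * R * x) * (K * R * t * η 0) * (K * R * t)) ^ 2 /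
      ((d : ℝ) ^ 3 * τ ^ 8) with hc0
  have hc00 : 0 ≤ c0 := by positivity
  set S1 : ℂ × ℂ → Finset (ℂ × ℂ) := fun a => (N 1).filter fun w =>
      p.b 0 = 0 ∨ ∃ i ≤ 0, ‖wd w ((fun _ : ℕ => a) i)‖ ≤ 2 * (d : ℝ) ^ (-p.b 0) with hS1
  set vv : ℂ × ℂ → ℂ × ℂ → ℕ → ℂ × ℂ := fun a b i => if i = 0 then a else b with hvv
  have hsub : (CodK K R η N p T : Set (CV d)) ⊆
      ⋃ a ∈ N 0, ⋃ b ∈ S1 a, WW K R η N p T 0 (vv a b) := by
    rintro X ⟨u, h1, h2, h3, h4⟩
    rw [Set.mem_iUnion₂]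
    refine ⟨u 0, h1 0 (by omega), ?_⟩
    rw [Set.mem_iUnion₂]
    have hv0 : vv (u 0) (u 1) 0 = u 0 := by simp [hvv]
    have hv1 : vv (u 0) (u 1) 1 = u 1 := by simp [hvv]
    refine ⟨u 1, ?_, ⟨?_, ?_⟩, u, ?_, h1, h3, h4⟩
    · rw [hS1]
      simp only
      rw [Finset.mem_filter]
      refine ⟨h1 1 (by omega), ?_⟩
      rcases h4 0 (by omega) with h | ⟨i, hi, h⟩
      · exact Or.inl h
      · right
        refine ⟨0, le_rfl, ?_⟩
        have : i = 0 := by omega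
        rw [this] at h
        exact h
    · exact st0_congr hv0.symm hv1.symm h2
    · intro k hk
      omega
    · intro i hi
      have : i = 0 ∨ i = 1 := by omega
      rcases this with rfl | rfl
      · exact hv0.symm
      · exact hv1.symm
  have hsm : ∀ k ≤ 1, η k ≤ ((d : ℝ) ^ 2)⁻¹ := fun k hk => et_le2 hd1 (by omega)
  have hcN : ((N 0).card : ℝ) ≤ 10000 * 1 ^ 2 / η 0 ^ 2 := by
    have hu1 : IsU ((1, 0) : ℂ × ℂ) := by
      unfold IsU n2
      simp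
    have hd1' : (1 : ℝ) ≤ d := by exact_mod_cast hd1
    have hle : η 0 ≤ 1 := (hsm 0 (by omega)).trans
      (inv_le_one_of_one_le₀ (one_le_pow₀ hd1'))
    have h := (hN 0 (by omega)).cnt (1, 0) hu1 1 hle
    have h2 : ((N 0).filter fun w => ‖wd (1, 0) w‖ ≤ 1) = N 0 := by
      rw [Finset.filter_eq_self]
      intro w hw
      exact wd_le_one' hu1 ((hN 0 (by omega)).unit w hw)
    rw [h2] at h
    exact h
  have hcS : ∀ a ∈ N 0, ((S1 a).card : ℝ) ≤ (((0 : ℕ) : ℝ) + 1) * 40000 * z ^ 2 / η 1 ^ 2 := by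
    intro a ha
    exact card_bd (m := 0) hd1 (hN 1 (by omega)) hη1 (hsm 1 le_rfl)
      (u := fun _ => a) (fun i _ => (hN 0 (by omega)).unit a ha) (b := p.b 0) (hp.b0 _).2 (S1 a)
      (by
        intro w hw
        rw [hS1] at hw
        simp only at hw
        rw [Finset.mem_filter] at hw
        exact hw)
  have hone : ∀ a ∈ N 0, ∀ b ∈ S1 a, gau A X0 τ (WW K R η N p T 0 (vv a b)) ≤
      ENNReal.ofReal (P * c0) := by
    intro a ha b hb
    have hbN : b ∈ N 1 := by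
      rw [hS1] at hb
      simp only at hb
      rw [Finset.mem_filter] at hb
      exact hb.1
    have hv0 : vv a b 0 = a := by simp [hvv]
    have hv1 : vv a b 1 = b := by simp [hvv]
    refine (ind hK hd X0 hA hτ hτ1 hR hp hT hN T 0 (by omega) (vv a b) ?_).trans ?_
    · intro i hi
      have : i = 0 ∨ i = 1 := by omega
      rcases this with rfl | rfl
      · rw [hv0]
        exact ha
      · rw [hv1]
        exact hbN
    · rw [ENNReal.ofReal_mul hP0]
      refine mul_le_mul_right ?_ _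
      have hms := m_start (d := d) hA (by omega) X0 hτ ((hN 0 (by omega)).unit a ha)
        ((hN 1 (by omega)).unit b hbN)
        (r1 := K * R * η 1 * x) (r2 := K * R * x) (r3 := K * R * t * η 0) (r4 := K * R * t)
        (by positivity) (by positivity) (by positivity) (by positivity)
      have hm2 : ENNReal.ofReal c0 * gau A X0 τ Set.univ ≤ ENNReal.ofReal c0 :=
        (mul_le_mul_right hgau _).trans (le_of_eq (mul_one _))
      refine le_trans (measure_mono ?_) (hms.trans hm2)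
      rintro X ⟨hX0, _⟩
      unfold StK0 at hX0
      rw [hv0, hv1] at hX0
      exact hX0
  have hmain : gau A X0 τ (CodK K R η N p T) ≤
      ENNReal.ofReal (1600000000 * K ^ 8 * (R / τ) ^ 8 *
        (x ^ 4 * t ^ 4 / (d : ℝ) ^ 3 * z ^ 2) * P) := by
    have hb2 : 0 ≤ (((0 : ℕ) : ℝ) + 1) * 40000 * z ^ 2 / η 1 ^ 2 := by positivity
    calc gau A X0 τ (CodK K R η N p T)
        ≤ gau A X0 τ (⋃ a ∈ N 0, ⋃ b ∈ S1 a, WW K R η N p T 0 (vv a b)) := measure_mono hsub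
      _ ≤ ∑ a ∈ N 0, gau A X0 τ (⋃ b ∈ S1 a, WW K R η N p T 0 (vv a b)) :=
          measure_biUnion_finset_le _ _
      _ ≤ ∑ a ∈ N 0, ∑ b ∈ S1 a, gau A X0 τ (WW K R η N p T 0 (vv a b)) :=
          Finset.sum_le_sum fun a _ => measure_biUnion_finset_le _ _
      _ ≤ ∑ a ∈ N 0, ENNReal.ofReal ((((0 : ℕ) : ℝ) + 1) * 40000 * z ^ 2 / η 1 ^ 2 *
            (P * c0)) := by
          refine Finset.sum_le_sum fun a ha => ?_
          refine (Finset.sum_le_sum (hone a ha)).trans ?_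
          rw [Finset.sum_const, nsmul_eq_mul, ← ENNReal.ofReal_natCast,
            ← ENNReal.ofReal_mul (Nat.cast_nonneg _)]
          exact ENNReal.ofReal_le_ofReal
            (mul_le_mul_of_nonneg_right (hcS a ha) (mul_nonneg hP0 hc00))
      _ = ENNReal.ofReal (((N 0).card : ℝ) * ((((0 : ℕ) : ℝ) + 1) * 40000 * z ^ 2 / η 1 ^ 2 *
            (P * c0))) := by
          rw [Finset.sum_const, nsmul_eq_mul, ← ENNReal.ofReal_natCast,
            ← ENNReal.ofReal_mul (Nat.cast_nonneg _)]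
      _ ≤ _ := ENNReal.ofReal_le_ofReal
          (alg_start hK hR hτ hη0 hη1 hd1 hx0 ht0 hz0 hP0 (Nat.cast_nonneg _) hcN hb2 le_rfl)
  refine hmain.trans (ENNReal.ofReal_le_ofReal ?_)
  have hPe := prod_Fk (n := n) (K := K) hd1 (ρ := R / τ) p T
  have hbd : bdK p T = (1 - 4 * p.th - 4 * p.hc - 2 * p.b 0) + ∑ k ∈ range T, stE p k := rfl
  rw [hP, hPe, hx, ht, hz, pw_id0 hd1, hbd, Real.rpow_add hdR]
  set e1 : ℝ := (d : ℝ) ^ (1 - 4 * p.th - 4 * p.hc - 2 * p.b 0) with he1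
  set e2 : ℝ := (d : ℝ) ^ (∑ k ∈ range T, stE p k) with he2
  have he10 : 0 ≤ e1 := Real.rpow_nonneg hdR.le _
  have he20 : 0 ≤ e2 := Real.rpow_nonneg hdR.le _
  have hCT : C1 n K ^ T ≤ C1 n K ^ (n + 1) := pow_le_pow_right₀ hC1 hT
  have hC0 : 0 ≤ C1 n K := by linarith
  calc 1600000000 * K ^ 8 * (R / τ) ^ 8 * e1 * (C1 n K ^ T * (R / τ) ^ (6 * T) * e2)
      = C1 n K ^ T * ((1600000000 * K ^ 8) * ((R / τ) ^ (6 * T + 8)) * (e1 * e2)) := by
        rw [pow_add]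
        ring
    _ ≤ C1 n K ^ (n + 1) * ((1600000000 * K ^ 8) * ((R / τ) ^ (6 * T + 8)) * (e1 * e2)) := by
        refine mul_le_mul_of_nonneg_right hCT ?_
        positivity
    _ = _ := by ring

end Pool.Agent.H73.SG
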