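import Pool.Agent.H73.ES.Dual
import Pool.Agent.H73.SG.Cd

/-!
# [H73 SG Dual] Dual vectors with multiplicities

Adaptation of `Pool.Agent.H73.ES.Dual.dual_step` to multiplicities `e i ≤ 3`.
-/

set_option autoImplicit false

open Finset MeasureTheory

namespace Pool.Agent.H73.SG

open Pool.H70.SF Pool.Agent.H73.ES

/-- the loss factor at the point `u m`, multiplicities `e` -/
noncomputable def KE (d : ℕ) (e : ℕ → ℕ) (u : ℕ → ℂ × ℂ) (m : ℕ) : ℝ :=
  ∏ i ∈ range m, (1 + 1 / (Real.sqrt d * ‖wd (u m) (u i)‖)) ^ e i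

/-- the jets of order `< e i` at `u i`, `i < m`, vanish -/
def VanE {d : ℕ} (e : ℕ → ℕ) (u : ℕ → ℂ × ℂ) (m : ℕ) (p : Fin (d + 1) → ℂ) : Prop :=
  ∀ i < m, ∀ j < e i, jt p (u i) j = 0

private theorem sg_np_one {x : ℝ} : NP x 1 = 1 := by
  unfold NP
  simp

private theorem sg_np_prod {x : ℝ} (hx : 0 ≤ x) (s : Finset ℕ) (f : ℕ → Polynomial ℂ) :
    NP x (∏ i ∈ s, f i) ≤ ∏ i ∈ s, NP x (f i) := by
  classical
  induction s using Finset.induction_on with
  | empty => simp [sg_np_one]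
  | insert a s ha ih =>
    rw [prod_insert ha, prod_insert ha]
    exact (np_mul hx _ _).trans (mul_le_mul_of_nonneg_left ih (np_nonneg hx _))

theorem dualE {d m : ℕ} {e : ℕ → ℕ} (he : ∀ i, e i ≤ 3) (hd : 3 * m + 2 ≤ d) {u : ℕ → ℂ × ℂ}
    (hu : ∀ i ≤ m, IsU (u i)) (hw : ∀ i < m, wd (u m) (u i) ≠ 0) :
    ∃ p0 p1 : Fin (d + 1) → ℂ, jt p0 (u m) 0 = 1 ∧ jt p1 (u m) 0 = 0 ∧ jt p1 (u m) 1 = 1 ∧
      VanE e u m p0 ∧ VanE e u m p1 ∧
      CN p0 ≤ ((3 * m + 2 : ℕ) : ℝ) ^ (3 * m + 2) * KE d e u m ^ 2 ∧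
      CN p1 ≤ ((3 * m + 2 : ℕ) : ℝ) ^ (3 * m + 2) * KE d e u m ^ 2 / d := by
  set z := u m with hz
  have hzu : IsU z := hu m le_rfl
  have hd0 : (0 : ℝ) < d := by
    have : 0 < d := by omega
    exact_mod_cast this
  set x : ℝ := (Real.sqrt d)⁻¹ with hx
  have hx0 : 0 ≤ x := inv_nonneg.2 (Real.sqrt_nonneg _)
  have hxx : x ^ 2 = 1 / d := by
    rw [hx, inv_pow, Real.sq_sqrt hd0.le, one_div]
  have hes : ∑ i ∈ range m, e i ≤ 3 * m := by
    refine (sum_le_sum fun i _ => he i).trans ?_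
    simp
    omega
  let ρ : ℕ → ℂ := fun i => wd (pp z) (u i) / wd z (u i)
  let L : ℕ → Polynomial ℂ := fun i => 1 + Polynomial.C (ρ i) * Polynomial.X
  have hLdeg : ∀ s : Finset ℕ, (∏ i ∈ s, L i ^ e i).natDegree ≤ ∑ i ∈ s, e i := by
    intro s
    refine (Polynomial.natDegree_prod_le _ _).trans (sum_le_sum fun i _ => ?_)
    refine Polynomial.natDegree_pow_le.trans ?_
    have h1 : (L i).natDegree ≤ 1 := by
      refine (Polynomial.natDegree_add_le _ _).trans ?_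
      rw [Polynomial.natDegree_one]
      exact max_le (Nat.zero_le _) ((Polynomial.natDegree_C_mul_le _ _).trans Polynomial.natDegree_X_le)
    calc e i * (L i).natDegree ≤ e i * 1 := Nat.mul_le_mul_left _ h1
      _ = e i := mul_one _
  set g0 : Polynomial ℂ := ∏ i ∈ range m, L i ^ e i with hg0
  set g1 : Polynomial ℂ := Polynomial.X * g0 with hg1
  have hg0d : g0.natDegree ≤ 3 * m := (hLdeg (range m)).trans hes
  have hg1d : g1.natDegree ≤ 3 * m + 2 := by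
    refine Polynomial.natDegree_mul_le.trans ?_
    have := Polynomial.natDegree_X_le (R := ℂ)
    omega
  have hg00 : g0.coeff 0 = 1 := by
    rw [Polynomial.coeff_zero_eq_eval_zero, hg0, Polynomial.eval_prod]
    apply prod_eq_one
    intro i _
    simp [L]
  obtain ⟨p0, hp0⟩ := kos_surj hzu (fun k => g0.coeff k)
  obtain ⟨p1, hp1⟩ := kos_surj hzu (fun k => g1.coeff k)
  have hvan : ∀ (q : Polynomial ℂ) (hq : q.natDegree ≤ 1) (p : Fin (d + 1) → ℂ),
      (∀ k : Fin (d + 1), jt p z k = (q * g0).coeff k) → VanE e u m p := by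
    intro q hq p hp i hi j hj
    refine van hzu (hu i hi.le) (hw i hi) (q * ∏ k ∈ (range m).erase i, L k ^ e k) ?_ p ?_ hj
    · have h2 := hLdeg ((range m).erase i)
      have h3 := sum_erase_add (range m) e (mem_range.2 hi)
      have h4 := Polynomial.natDegree_mul_le (p := q) (q := ∏ k ∈ (range m).erase i, L k ^ e k)
      omega
    · intro k
      rw [hp k, hg0, ← prod_erase_mul (range m) _ (mem_range.2 hi), mul_assoc]
  have hNP0 : NP x g0 ≤ KE d e u m := by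
    refine (sg_np_prod hx0 (range m) _).trans ?_
    unfold KE
    refine prod_le_prod (fun i _ => np_nonneg hx0 _) fun i hi => ?_
    have hwi := hw i (mem_range.1 hi)
    have h1 : NP x (L i) ≤ 1 + 1 / (Real.sqrt d * ‖wd (u m) (u i)‖) := by
      refine (np_lin hx0 _).trans ?_
      have h2 := rho_le hzu (hu i (mem_range.1 hi).le)
      have h3 := mul_le_mul_of_nonneg_right h2 hx0
      have h4 : 1 / ‖wd z (u i)‖ * x = 1 / (Real.sqrt d * ‖wd (u m) (u i)‖) := by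
        rw [hx, ← hz, mul_comm (Real.sqrt d), ← one_div, div_mul_div_comm, one_mul]
      rw [h4] at h3
      linarith
    calc NP x (L i ^ e i) ≤ NP x (L i) ^ e i := np_pow hx0 _ _
      _ ≤ (1 + 1 / (Real.sqrt d * ‖wd (u m) (u i)‖)) ^ e i :=
        pow_le_pow_left₀ (np_nonneg hx0 _) h1 _
  have hNP1 : NP x g1 ≤ x * KE d e u m := by
    refine (np_mul hx0 _ _).trans ?_
    exact mul_le_mul (np_X hx0) hNP0 (np_nonneg hx0 _) hx0
  have hCN0 : CN p0 ≤ ((3 * m + 2 : ℕ) : ℝ) ^ (3 * m + 2) * NP x g0 ^ 2 := by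
    rw [← kos p0 hzu]
    simp only [hp0]
    exact np_norm (by omega) hd g0 (by omega)
  have hCN1 : CN p1 ≤ ((3 * m + 2 : ℕ) : ℝ) ^ (3 * m + 2) * NP x g1 ^ 2 := by
    rw [← kos p1 hzu]
    simp only [hp1]
    exact np_norm (by omega) hd g1 hg1d
  refine ⟨p0, p1, ?_, ?_, ?_, ?_, ?_, ?_, ?_⟩
  · have := hp0 ⟨0, by omega⟩
    exact this.trans hg00
  · have := hp1 ⟨0, by omega⟩
    exact this.trans (Polynomial.coeff_X_mul_zero g0)
  · have := hp1 ⟨1, by omega⟩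
    exact this.trans ((Polynomial.coeff_X_mul g0 0).trans hg00)
  · refine hvan 1 ?_ p0 fun k => ?_
    · rw [Polynomial.natDegree_one]
      exact Nat.zero_le _
    · rw [one_mul]
      exact hp0 k
  · exact hvan Polynomial.X Polynomial.natDegree_X_le p1 hp1
  · refine hCN0.trans ?_
    exact mul_le_mul_of_nonneg_left (pow_le_pow_left₀ (np_nonneg hx0 _) hNP0 2) (by positivity)
  · refine hCN1.trans ?_
    have h1 := pow_le_pow_left₀ (np_nonneg hx0 _) hNP1 2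
    rw [mul_pow, hxx] at h1
    calc ((3 * m + 2 : ℕ) : ℝ) ^ (3 * m + 2) * NP x g1 ^ 2 ≤
        ((3 * m + 2 : ℕ) : ℝ) ^ (3 * m + 2) * (1 / d * KE d e u m ^ 2) :=
          mul_le_mul_of_nonneg_left h1 (by positivity)
      _ = _ := by ring

/-- bound of the loss factor -/
theorem ke_bd {d m T : ℕ} (hd : 1 ≤ d) {e : ℕ → ℕ} (he : ∀ i, e i ≤ 3) {u : ℕ → ℂ × ℂ}
    {q : ℕ → ℝ} (hm : m ≤ T + 1) (h : ∀ i < m, (d : ℝ) ^ (-q i) / 2 ≤ ‖wd (u m) (u i)‖) :
    1 ≤ KE d e u m ∧ KE d e u m ^ 2 ≤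
      3 ^ (6 * (T + 1)) * (d : ℝ) ^ (2 * ∑ i ∈ range m, (e i : ℝ) * max 0 (q i - 1 / 2)) := by
  have hd1 : (1 : ℝ) ≤ d := by exact_mod_cast hd
  have hd0 : (0 : ℝ) < d := by linarith
  set D : ℕ → ℝ := fun i => (d : ℝ) ^ (max 0 (q i - 1 / 2)) with hD
  have hD1 : ∀ i, 1 ≤ D i := fun i => Real.one_le_rpow hd1 (le_max_left _ _)
  have hfac : ∀ i ∈ range m, 1 ≤ (1 + 1 / (Real.sqrt d * ‖wd (u m) (u i)‖)) ^ e i ∧
      (1 + 1 / (Real.sqrt d * ‖wd (u m) (u i)‖)) ^ e i ≤ 3 ^ 3 * D i ^ e i := by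
    intro i hi
    have h1 := h i (Finset.mem_range.1 hi)
    have hs : 0 < Real.sqrt d := Real.sqrt_pos.2 hd0
    have hq : 0 < (d : ℝ) ^ (-q i) := Real.rpow_pos_of_pos hd0 _
    have hw : 0 < ‖wd (u m) (u i)‖ := by linarith
    have h0 : 1 ≤ 1 + 1 / (Real.sqrt d * ‖wd (u m) (u i)‖) := by
      have : 0 ≤ 1 / (Real.sqrt d * ‖wd (u m) (u i)‖) := by positivity
      linarith
    refine ⟨one_le_pow₀ h0, ?_⟩
    have h2 : 1 / (Real.sqrt d * ‖wd (u m) (u i)‖) ≤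
        1 / (Real.sqrt d * ((d : ℝ) ^ (-q i) / 2)) :=
      one_div_le_one_div_of_le (by positivity) (mul_le_mul_of_nonneg_left h1 hs.le)
    have h3 : 1 / (Real.sqrt d * ((d : ℝ) ^ (-q i) / 2)) = 2 * (d : ℝ) ^ (q i - 1 / 2) := by
      rw [Real.sqrt_eq_rpow, Real.rpow_sub hd0, Real.rpow_neg hd0.le]
      have e1 : 0 < (d : ℝ) ^ (1 / 2 : ℝ) := Real.rpow_pos_of_pos hd0 _
      have e2 : 0 < (d : ℝ) ^ q i := Real.rpow_pos_of_pos hd0 _
      field_simp
    have h4 : (d : ℝ) ^ (q i - 1 / 2) ≤ D i := by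
      rw [hD]
      exact Real.rpow_le_rpow_of_exponent_le hd1 (le_max_right _ _)
    have h5 : 1 + 1 / (Real.sqrt d * ‖wd (u m) (u i)‖) ≤ 3 * D i := by
      have := hD1 i
      linarith
    calc (1 + 1 / (Real.sqrt d * ‖wd (u m) (u i)‖)) ^ e i ≤ (3 * D i) ^ e i :=
          pow_le_pow_left₀ (by linarith) h5 _
      _ = 3 ^ e i * D i ^ e i := mul_pow _ _ _
      _ ≤ 3 ^ 3 * D i ^ e i := by
          refine mul_le_mul_of_nonneg_right (pow_le_pow_right₀ (by norm_num) (he i)) ?_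
          have := hD1 i
          positivity
  have hK1 : 1 ≤ KE d e u m := by
    unfold KE
    calc (1 : ℝ) = ∏ i ∈ range m, (1 : ℝ) := by rw [prod_const_one]
      _ ≤ _ := Finset.prod_le_prod (fun i _ => zero_le_one) fun i hi => (hfac i hi).1
  refine ⟨hK1, ?_⟩
  have hK2 : KE d e u m ≤ (3 ^ 3) ^ (T + 1) * ∏ i ∈ range m, D i ^ e i := by
    unfold KE
    refine (Finset.prod_le_prod (fun i hi => zero_le_one.trans (hfac i hi).1)
      fun i hi => (hfac i hi).2).trans ?_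
    rw [Finset.prod_mul_distrib, Finset.prod_const, Finset.card_range]
    refine mul_le_mul_of_nonneg_right (pow_le_pow_right₀ (by norm_num) hm) ?_
    exact prod_nonneg fun i _ => pow_nonneg (zero_le_one.trans (hD1 i)) _
  have hpr : ∏ i ∈ range m, D i ^ e i =
      (d : ℝ) ^ (∑ i ∈ range m, (e i : ℝ) * max 0 (q i - 1 / 2)) := by
    rw [Real.rpow_sum_of_pos hd0]
    refine prod_congr rfl fun i _ => ?_
    rw [hD]
    simp only
    rw [← Real.rpow_natCast, ← Real.rpow_mul hd0.le]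
    congr 1
    ring
  rw [hpr] at hK2
  refine (pow_le_pow_left₀ (by linarith) hK2 2).trans (le_of_eq ?_)
  rw [mul_pow, ← pow_mul, ← pow_mul]
  congr 1
  · congr 1
    ring
  · rw [← Real.rpow_natCast, ← Real.rpow_mul hd0.le]
    congr 1
    push_cast
    ring

end Pool.Agent.H73.SG
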