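import Pool.Agent.H73.ES.Meas
import Pool.Agent.H73.SG.Dual

/-!
# [H73 SG Meas] The measure of one step, by kind

Adaptation of `Pool.Agent.H73.ES.Meas`.
-/

set_option autoImplicit false

open Finset MeasureTheory

namespace Pool.Agent.H73.SG

open Pool.H70.SF Pool.Agent.H73.ES

private noncomputable def meas_T {d : ℕ} (p : Fin (d + 1) → ℂ) (a : ℂ × ℂ) : CV d :=
  (a.1 • p, a.2 • p)

private theorem meas_bn {d : ℕ} (p : Fin (d + 1) → ℂ) (a : ℂ × ℂ) :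
    BN2 (meas_T p a) = n2 a * CN p := by
  unfold BN2 CN n2 meas_T
  rw [mul_sum]
  refine sum_congr rfl fun k _ => ?_
  simp only [Pi.smul_apply, smul_eq_mul, norm_mul]
  ring

private theorem meas_jv {d : ℕ} (X : CV d) (p : Fin (d + 1) → ℂ) (a : ℂ × ℂ) (t : ℂ)
    (u : ℂ × ℂ) (k : ℕ) :
    jv (X + t • meas_T p a) u k = jv X u k + (t * jt p u k) • a := by
  unfold jv meas_T
  ext
  · show jt (X.1 + t • (a.1 • p)) u k = jt X.1 u k + (t * jt p u k) * a.1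
    rw [jt_add, jt_smul, jt_smul]
    ring
  · show jt (X.2 + t • (a.2 • p)) u k = jt X.2 u k + (t * jt p u k) * a.2
    rw [jt_add, jt_smul, jt_smul]
    ring

private theorem meas_ff0 {d : ℕ} (p : Fin (d + 1) → ℂ) (a : ℂ × ℂ) (t : ℂ) (u : ℂ × ℂ)
    (h : jt p u 0 = 0) : FF (t • meas_T p a) u = 0 := by
  rw [← jv_zero]
  unfold jv meas_T
  ext
  · show jt (t • (a.1 • p)) u 0 = 0
    rw [jt_smul, jt_smul, h, mul_zero, mul_zero]
  · show jt (t • (a.2 • p)) u 0 = 0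
    rw [jt_smul, jt_smul, h, mul_zero, mul_zero]

private theorem meas_cwd {α : Type*} [TopologicalSpace α] {f : α → ℂ × ℂ} (hf : Continuous f)
    (w : ℂ × ℂ) : Continuous fun X => wd (f X) w := by
  unfold wd
  fun_prop

private theorem meas_chm {α : Type*} [TopologicalSpace α] {f : α → ℂ × ℂ} (hf : Continuous f)
    (w : ℂ × ℂ) : Continuous fun X => hm (f X) w := by
  unfold hm
  fun_prop

private theorem meas_wda (v a w : ℂ × ℂ) (s : ℂ) : wd (v + s • a) w = wd v w + s * wd a w := by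
  unfold wd
  simp only [Prod.fst_add, Prod.snd_add, Prod.smul_fst, Prod.smul_snd, smul_eq_mul]
  ring

private theorem meas_hma (v a w : ℂ × ℂ) (s : ℂ) : hm (v + s • a) w = hm v w + s * hm a w := by
  unfold hm
  simp only [Prod.fst_add, Prod.snd_add, Prod.smul_fst, Prod.smul_snd, smul_eq_mul]
  ring

private theorem meas_cn {w : ℂ × ℂ} (hw : IsU w) :
    w.1 * starRingEnd ℂ w.1 + w.2 * starRingEnd ℂ w.2 = 1 := by
  rw [Complex.mul_conj, Complex.mul_conj, Complex.normSq_eq_norm_sq, Complex.normSq_eq_norm_sq]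
  have h : n2 w = 1 := hw
  unfold n2 at h
  exact_mod_cast h

private theorem meas_wd {w : ℂ × ℂ} (hw : IsU w) : wd (-pp w) w = 1 := by
  rw [← meas_cn hw]
  unfold wd pp
  simp only [Prod.fst_neg, Prod.snd_neg]
  ring

private theorem meas_wdw (w : ℂ × ℂ) : wd w w = 0 := by
  unfold wd
  ring

private theorem meas_hmw {w : ℂ × ℂ} (hw : IsU w) : hm w w = 1 := meas_cn hw

private theorem meas_n2 {w : ℂ × ℂ} (hw : IsU w) : n2 (-pp w) = 1 := by
  have h : n2 w = 1 := hw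
  unfold n2 at h
  unfold n2 pp
  simp only [Prod.fst_neg, Prod.snd_neg, norm_neg, RCLike.norm_conj]
  linarith

private theorem meas_van {d m : ℕ} {e : ℕ → ℕ} {u : ℕ → ℂ × ℂ} {p : Fin (d + 1) → ℂ}
    (hp : VanE e u m p) (c : ℂ) : VanE e u m (c • p) := by
  intro i hi j hj
  rw [jt_smul, hp i hi j hj, mul_zero]

private theorem meas_one {d : ℕ} {A : ℝ} (hA : 0 ≤ A) (X0 : CV d) {τ : ℝ} (hτ : 0 < τ)
    {z : ℂ × ℂ} (hz : IsU z) {p : Fin (d + 1) → ℂ} {k : ℕ} (hk : k ≤ d) (hp : jt p z k = 1)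
    {a : ℂ × ℂ} (ha : n2 a = 1) (l : CV d → ℂ) (hl : Continuous l)
    (hlf : ∀ X, ∀ t : ℂ, l (X + t • meas_T p a) = l X + t) (E : Set (CV d))
    (hE : MeasurableSet E) (hEf : ∀ X, ∀ t : ℂ, X ∈ E → X + t • meas_T p a ∈ E) {r : ℝ}
    (hr : 0 ≤ r) {B : ℝ} (hB : CN p ≤ B) :
    gau A X0 τ (E ∩ {X | ‖l X‖ ≤ r}) ≤ ENNReal.ofReal (r ^ 2 * B / τ ^ 2) * gau A X0 τ E := by
  have h1 : BN2 (meas_T p a) = CN p := by rw [meas_bn, ha, one_mul]
  have h2 : 0 < CN p := by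
    rw [← kos p hz]
    have h3 : ‖jt p z ((⟨k, by omega⟩ : Fin (d + 1)) : ℕ)‖ ^ 2 /
        (d.choose ((⟨k, by omega⟩ : Fin (d + 1)) : ℕ) : ℝ) ≤
        ∑ j : Fin (d + 1), ‖jt p z j‖ ^ 2 / (d.choose j : ℝ) :=
      single_le_sum (f := fun j : Fin (d + 1) => ‖jt p z j‖ ^ 2 / (d.choose j : ℝ))
        (fun j _ => by positivity) (mem_univ _)
    refine lt_of_lt_of_le ?_ h3
    have h4 : 0 < d.choose k := Nat.choose_pos hk
    have h5 : (0 : ℝ) < d.choose k := by exact_mod_cast h4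
    simp only [hp, norm_one]
    positivity
  refine (Pool.H26.SF.sb1_gau hA hτ X0 (meas_T p a) (by rw [h1]; exact h2) l hl.measurable hlf
    E hE hEf hr).trans ?_
  rw [h1]
  gcongr

/-- the position of the image: one disc -/
theorem mE_pos {d m : ℕ} {e : ℕ → ℕ} (he : ∀ i, e i ≤ 3) {A : ℝ} (hA : 0 ≤ A)
    (hd : 3 * m + 2 ≤ d) (X0 : CV d) {τ : ℝ} (hτ : 0 < τ) {u : ℕ → ℂ × ℂ}
    (hu : ∀ i ≤ m, IsU (u i)) (hw0 : ∀ i < m, wd (u m) (u i) ≠ 0) {w : ℂ × ℂ} (hw : IsU w)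
    {S : Set (CV d)} (hS : MeasurableSet S)
    (hinv : ∀ (X f : CV d), VanE e u m f.1 → VanE e u m f.2 → (X + f ∈ S ↔ X ∈ S))
    {r : ℝ} (hr : 0 ≤ r) :
    gau A X0 τ (S ∩ {X | ‖wd (FF X (u m)) w‖ ≤ r}) ≤
      ENNReal.ofReal (((3 * m + 2 : ℕ) : ℝ) ^ (3 * m + 2) * KE d e u m ^ 2 * r ^ 2 / τ ^ 2) *
        gau A X0 τ S := by
  obtain ⟨p0, p1, hj0, hj10, hj11, hv0, hv1, hc0, hc1⟩ := dualE he hd hu hw0
  have hz := hu m le_rfl
  have h := meas_one hA X0 hτ hz (k := 0) (by omega) hj0 (a := -pp w) (meas_n2 hw)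
      (fun X => wd (FF X (u m)) w) (meas_cwd (ff_cont (u m)) w) (by
        intro X t
        rw [← jv_zero, ← jv_zero, meas_jv, hj0, mul_one, meas_wda, meas_wd hw, mul_one]) S hS
      (fun X t hX => (hinv X (t • meas_T p0 (-pp w)) (meas_van (meas_van hv0 _) t)
        (meas_van (meas_van hv0 _) t)).2 hX) hr hc0
  refine h.trans (le_of_eq ?_)
  congr 2
  ring

/-- the derivative: one disc; the set may depend on the value at `u m` -/
theorem mE_der {d m : ℕ} {e : ℕ → ℕ} (he : ∀ i, e i ≤ 3) {A : ℝ} (hA : 0 ≤ A)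
    (hd : 3 * m + 2 ≤ d) (X0 : CV d) {τ : ℝ} (hτ : 0 < τ) {u : ℕ → ℂ × ℂ}
    (hu : ∀ i ≤ m, IsU (u i)) (hw0 : ∀ i < m, wd (u m) (u i) ≠ 0) {w : ℂ × ℂ} (hw : IsU w)
    {S : Set (CV d)} (hS : MeasurableSet S)
    (hinv : ∀ (X f : CV d), VanE e u m f.1 → VanE e u m f.2 → FF f (u m) = 0 →
      (X + f ∈ S ↔ X ∈ S)) {r : ℝ} (hr : 0 ≤ r) :
    gau A X0 τ (S ∩ {X | ‖wd (jv X (u m) 1) w‖ ≤ r}) ≤
      ENNReal.ofReal (((3 * m + 2 : ℕ) : ℝ) ^ (3 * m + 2) * KE d e u m ^ 2 * r ^ 2 /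
        (d * τ ^ 2)) * gau A X0 τ S := by
  obtain ⟨p0, p1, hj0, hj10, hj11, hv0, hv1, hc0, hc1⟩ := dualE he hd hu hw0
  have hz := hu m le_rfl
  have h := meas_one hA X0 hτ hz (k := 1) (by omega) hj11 (a := -pp w) (meas_n2 hw)
      (fun X => wd (jv X (u m) 1) w) (meas_cwd (jv_cont (u m) 1) w) (by
        intro X t
        rw [meas_jv, hj11, mul_one, meas_wda, meas_wd hw, mul_one]) S hS
      (fun X t hX => (hinv X (t • meas_T p1 (-pp w)) (meas_van (meas_van hv1 _) t)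
        (meas_van (meas_van hv1 _) t) (meas_ff0 p1 _ t _ hj10)).2 hX) hr hc1
  refine h.trans (le_of_eq ?_)
  congr 2
  have hd0 : (0 : ℝ) < d := by
    have : 0 < d := by omega
    exact_mod_cast this
  field_simp

/-- all three discs -/
theorem mE_full {d m : ℕ} {e : ℕ → ℕ} (he : ∀ i, e i ≤ 3) {A : ℝ} (hA : 0 ≤ A)
    (hd : 3 * m + 2 ≤ d) (X0 : CV d) {τ : ℝ} (hτ : 0 < τ) {u : ℕ → ℂ × ℂ}
    (hu : ∀ i ≤ m, IsU (u i)) (hw0 : ∀ i < m, wd (u m) (u i) ≠ 0) {w : ℂ × ℂ} (hw : IsU w)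
    {S : Set (CV d)} (hS : MeasurableSet S)
    (hinv : ∀ (X f : CV d), VanE e u m f.1 → VanE e u m f.2 → (X + f ∈ S ↔ X ∈ S))
    {r1 r2 r3 : ℝ} (h1 : 0 ≤ r1) (h2 : 0 ≤ r2) (h3 : 0 ≤ r3) :
    gau A X0 τ (S ∩ {X | ‖wd (FF X (u m)) w‖ ≤ r1 ∧ ‖hm (FF X (u m)) w‖ ≤ r2 ∧
      ‖wd (jv X (u m) 1) w‖ ≤ r3}) ≤
      ENNReal.ofReal ((((3 * m + 2 : ℕ) : ℝ) ^ (3 * m + 2)) ^ 3 * (KE d e u m ^ 2) ^ 3 *
        (r1 * r2 * r3) ^ 2 / (d * τ ^ 6)) * gau A X0 τ S := by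
  obtain ⟨p0, p1, hj0, hj10, hj11, hv0, hv1, hc0, hc1⟩ := dualE he hd hu hw0
  have hz := hu m le_rfl
  set C : ℝ := ((3 * m + 2 : ℕ) : ℝ) ^ (3 * m + 2) with hC
  set Q : ℝ := KE d e u m ^ 2 with hQ
  have hQ0 : 0 ≤ Q := sq_nonneg _
  have hC0 : 0 ≤ C := by positivity
  have hd0 : (0 : ℝ) < d := by
    have : 0 < d := by omega
    exact_mod_cast this
  have hS' : ∀ (p : Fin (d + 1) → ℂ) (a : ℂ × ℂ), VanE e u m p →
      ∀ X, ∀ t : ℂ, X ∈ S → X + t • meas_T p a ∈ S := by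
    intro p a hp X t hX
    refine (hinv X (t • meas_T p a) ?_ ?_).2 hX
    · exact meas_van (meas_van hp a.1) t
    · exact meas_van (meas_van hp a.2) t
  set F1 : Set (CV d) := {X | ‖wd (FF X (u m)) w‖ ≤ r1} with hF1
  set F2 : Set (CV d) := {X | ‖hm (FF X (u m)) w‖ ≤ r2} with hF2
  set F3 : Set (CV d) := {X | ‖wd (jv X (u m) 1) w‖ ≤ r3} with hF3
  have hwd1 : wd (-pp w) w = 1 := meas_wd hw
  have hc1' : Continuous fun X : CV d => wd (FF X (u m)) w := by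
    exact meas_cwd (ff_cont (u m)) w
  have hc2' : Continuous fun X : CV d => hm (FF X (u m)) w := by
    exact meas_chm (ff_cont (u m)) w
  have hc3' : Continuous fun X : CV d => wd (jv X (u m) 1) w := by
    exact meas_cwd (jv_cont (u m) 1) w
  have hm1' : MeasurableSet F1 := measurableSet_le hc1'.measurable.norm measurable_const
  have hm2' : MeasurableSet F2 := measurableSet_le hc2'.measurable.norm measurable_const
  have e1 : gau A X0 τ (S ∩ F1) ≤ ENNReal.ofReal (r1 ^ 2 * (C * Q) / τ ^ 2) * gau A X0 τ S := by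
    refine meas_one hA X0 hτ hz (k := 0) (by omega) hj0 (a := -pp w) (meas_n2 hw)
      (fun X => wd (FF X (u m)) w) hc1' ?_ S hS (hS' p0 _ hv0) h1 hc0
    intro X t
    rw [← jv_zero, ← jv_zero, meas_jv, hj0, mul_one, meas_wda, hwd1, mul_one]
  have e2 : gau A X0 τ (S ∩ F1 ∩ F2) ≤
      ENNReal.ofReal (r2 ^ 2 * (C * Q) / τ ^ 2) * gau A X0 τ (S ∩ F1) := by
    refine meas_one hA X0 hτ hz (k := 0) (by omega) hj0 (a := w) hw
      (fun X => hm (FF X (u m)) w) hc2' ?_ (S ∩ F1) (hS.inter hm1') ?_ h2 hc0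
    · intro X t
      rw [← jv_zero, ← jv_zero, meas_jv, hj0, mul_one, meas_hma, meas_hmw hw, mul_one]
    · rintro X t ⟨hX, hX1⟩
      refine ⟨hS' p0 w hv0 X t hX, ?_⟩
      show ‖wd (FF (X + t • meas_T p0 w) (u m)) w‖ ≤ r1
      rw [← jv_zero, meas_jv, meas_wda, meas_wdw, mul_zero, add_zero, jv_zero]
      exact hX1
  have e3 : gau A X0 τ (S ∩ F1 ∩ F2 ∩ F3) ≤
      ENNReal.ofReal (r3 ^ 2 * (C * Q / d) / τ ^ 2) * gau A X0 τ (S ∩ F1 ∩ F2) := by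
    refine meas_one hA X0 hτ hz (k := 1) (by omega) hj11 (a := -pp w) (meas_n2 hw)
      (fun X => wd (jv X (u m) 1) w) hc3' ?_ (S ∩ F1 ∩ F2) ((hS.inter hm1').inter hm2') ?_ h3 hc1
    · intro X t
      rw [meas_jv, hj11, mul_one, meas_wda, hwd1, mul_one]
    · rintro X t ⟨⟨hX, hX1⟩, hX2⟩
      refine ⟨⟨hS' p1 _ hv1 X t hX, ?_⟩, ?_⟩
      · show ‖wd (FF (X + t • meas_T p1 (-pp w)) (u m)) w‖ ≤ r1
        rw [← jv_zero, meas_jv, hj10, mul_zero, zero_smul, add_zero, jv_zero]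
        exact hX1
      · show ‖hm (FF (X + t • meas_T p1 (-pp w)) (u m)) w‖ ≤ r2
        rw [← jv_zero, meas_jv, hj10, mul_zero, zero_smul, add_zero, jv_zero]
        exact hX2
  have hset : S ∩ {X | ‖wd (FF X (u m)) w‖ ≤ r1 ∧ ‖hm (FF X (u m)) w‖ ≤ r2 ∧
      ‖wd (jv X (u m) 1) w‖ ≤ r3} = S ∩ F1 ∩ F2 ∩ F3 := by
    ext X
    simp only [Set.mem_inter_iff, Set.mem_ofPred_eq, hF1, hF2, hF3]
    tauto
  rw [hset]
  calc gau A X0 τ (S ∩ F1 ∩ F2 ∩ F3) ≤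
      ENNReal.ofReal (r3 ^ 2 * (C * Q / d) / τ ^ 2) * gau A X0 τ (S ∩ F1 ∩ F2) := e3
    _ ≤ ENNReal.ofReal (r3 ^ 2 * (C * Q / d) / τ ^ 2) *
        (ENNReal.ofReal (r2 ^ 2 * (C * Q) / τ ^ 2) *
          (ENNReal.ofReal (r1 ^ 2 * (C * Q) / τ ^ 2) * gau A X0 τ S)) := by
      gcongr
      exact e2.trans (by gcongr)
    _ = ENNReal.ofReal (C ^ 3 * Q ^ 3 * (r1 * r2 * r3) ^ 2 / (d * τ ^ 6)) *
        gau A X0 τ S := by
      rw [← mul_assoc, ← mul_assoc, ← ENNReal.ofReal_mul (by positivity),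
        ← ENNReal.ofReal_mul (by positivity)]
      congr 2
      field_simp

/-- sum over overlapping sets -/
theorem sum_ov {α ι : Type*} [MeasurableSpace α] (μ : Measure α) {S : Set α}
    (hS : MeasurableSet S) (N : Finset ι) (A : ι → Set α) (hA : ∀ i ∈ N, MeasurableSet (A i))
    {M : ℝ} (h : ∀ x ∈ S, ∀ N' ⊆ N, (∀ i ∈ N', x ∈ A i) → (N'.card : ℝ) ≤ M) :
    ∑ i ∈ N, μ (S ∩ A i) ≤ ENNReal.ofReal M * μ S := by
  classical
  have h1 : ∀ i ∈ N, μ (S ∩ A i) = ∫⁻ x, (S ∩ A i).indicator 1 x ∂μ := by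
    intro i hi
    rw [lintegral_indicator_one (hS.inter (hA i hi))]
  rw [sum_congr rfl h1, ← lintegral_finsetSum]
  · have h2 : ENNReal.ofReal M * μ S = ∫⁻ x, S.indicator (fun _ => ENNReal.ofReal M) x ∂μ := by
      rw [lintegral_indicator_const hS]
    rw [h2]
    refine lintegral_mono fun x => ?_
    by_cases hx : x ∈ S
    · rw [Set.indicator_of_mem hx]
      have h3 : ∑ i ∈ N, (S ∩ A i).indicator (1 : α → ENNReal) x =
          ((N.filter fun i => x ∈ A i).card : ENNReal) := by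
        rw [Finset.card_filter]
        push_cast
        refine sum_congr rfl fun i _ => ?_
        by_cases hi : x ∈ A i
        · have h4 : x ∈ S ∩ A i := ⟨hx, hi⟩
          rw [Set.indicator_of_mem h4, if_pos hi]
          rfl
        · rw [Set.indicator_of_notMem (fun h => hi h.2), if_neg hi]
      rw [h3, ← ENNReal.ofReal_natCast]
      refine ENNReal.ofReal_le_ofReal (h x hx _ (Finset.filter_subset _ _) ?_)
      intro i hi
      exact (Finset.mem_filter.1 hi).2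
    · have h3 : ∑ i ∈ N, (S ∩ A i).indicator (1 : α → ENNReal) x = 0 := by
        refine sum_eq_zero fun i _ => ?_
        rw [Set.indicator_of_notMem (fun h => hx h.1)]
      rw [h3]
      exact zero_le
  · intro i hi
    exact (measurable_one.indicator (hS.inter (hA i hi)))

end Pool.Agent.H73.SG
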