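import Pool.Agent.H73.ES.Codc
import Pool.Agent.H73.SG.Meas

/-!
# [H73 SG CntA] The sum over the targets of one step, by kind

Adaptation of `Pool.Agent.H73.ES.Cnt`.
-/

set_option autoImplicit false

open Finset MeasureTheory

namespace Pool.Agent.H73.SG

open Pool.H70.SF Pool.Agent.H73.ES

theorem wd_le_one' {u w : ℂ × ℂ} (hu : IsU u) (hw : IsU w) : ‖wd u w‖ ≤ 1 := by
  unfold IsU n2 at hu hw
  unfold wd
  have h := norm_sub_le (u.1 * w.2) (u.2 * w.1)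
  rw [norm_mul, norm_mul] at h
  nlinarith [sq_nonneg (‖u.1‖ - ‖w.2‖), sq_nonneg (‖u.2‖ - ‖w.1‖)]

theorem wd_comm' (u w : ℂ × ℂ) : ‖wd u w‖ = ‖wd w u‖ := by
  unfold wd
  rw [← norm_neg]
  congr 1
  ring

theorem wd_cont' {d : ℕ} {f : CV d → ℂ × ℂ} (hf : Continuous f) (w : ℂ × ℂ) :
    Continuous fun X => ‖wd (f X) w‖ := by
  unfold wd
  fun_prop

theorem hm_cont' {d : ℕ} {f : CV d → ℂ × ℂ} (hf : Continuous f) (w : ℂ × ℂ) :
    Continuous fun X => ‖hm (f X) w‖ := by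
  unfold hm
  fun_prop

theorem nn_cont' {d : ℕ} {f : CV d → ℂ × ℂ} (hf : Continuous f) :
    Continuous fun X => nn (f X) := by
  unfold nn n2
  fun_prop

theorem tgt_closed {d : ℕ} (K e : ℝ) (v w : ℂ × ℂ) :
    IsClosed {X : CV d | (d : ℝ)⁻¹ ≤ nn (FF X v) ∧ ‖wd (FF X v) w‖ ≤ K * e * nn (FF X v)} :=
  (isClosed_le continuous_const (nn_cont' (ff_cont _))).inter
    (isClosed_le (wd_cont' (ff_cont _) _) (continuous_const.mul (nn_cont' (ff_cont _))))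

theorem stV_closed {d : ℕ} (K R e be h : ℝ) (k : Kd) (v w : ℂ × ℂ) :
    IsClosed {X : CV d | StV K R e be h k v w X} := by
  cases k with
  | full =>
    exact (isClosed_le (wd_cont' (ff_cont _) _) continuous_const).inter
      ((isClosed_le (hm_cont' (ff_cont _) _) continuous_const).inter
        (isClosed_le (wd_cont' (jv_cont _ _) _) continuous_const))
  | free => exact tgt_closed K e v w
  | der => exact (tgt_closed K e v w).inter (isClosed_le (wd_cont' (jv_cont _ _) _) continuous_const)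
  | pos => exact isClosed_le (wd_cont' (ff_cont _) _) continuous_const

theorem st0_closed {d : ℕ} (K R : ℝ) (η : ℕ → ℝ) (p : PatK) (u : ℕ → ℂ × ℂ) :
    IsClosed {X : CV d | StK0 K R η p u X} :=
  (isClosed_le (wd_cont' (ff_cont _) _) continuous_const).inter
    ((isClosed_le (hm_cont' (ff_cont _) _) continuous_const).inter
      ((isClosed_le (wd_cont' (jv_cont _ _) _) continuous_const).inter
        (isClosed_le (wd_cont' (jv_cont _ _) _) continuous_const)))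

theorem jv_van {d : ℕ} (X f : CV d) (v : ℂ × ℂ) (k : ℕ) (h1 : jt f.1 v k = 0)
    (h2 : jt f.2 v k = 0) : jv (X + f) v k = jv X v k := by
  unfold jv
  rw [Prod.fst_add, Prod.snd_add, jt_add, jt_add, h1, h2, add_zero, add_zero]

theorem ff_van {d : ℕ} (X f : CV d) (v : ℂ × ℂ) (h1 : jt f.1 v 0 = 0)
    (h2 : jt f.2 v 0 = 0) : FF (X + f) v = FF X v := by
  rw [← jv_zero, ← jv_zero, jv_van X f v 0 h1 h2]

theorem ff_van' {d : ℕ} (X f : CV d) (v : ℂ × ℂ) (h : FF f v = 0) : FF (X + f) v = FF X v := by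
  rw [← jv_zero] at h
  have h1 : jt f.1 v 0 = 0 := congrArg Prod.fst h
  have h2 : jt f.2 v 0 = 0 := congrArg Prod.snd h
  exact ff_van X f v h1 h2

/-- number of net points near a finite set of points -/
theorem card_bd {d m : ℕ} (hd : 1 ≤ d) {N : Finset (ℂ × ℂ)} {η : ℝ} (hN : IsNet N η)
    (hη0 : 0 < η) (hη : η ≤ ((d : ℝ) ^ 2)⁻¹) {u : ℕ → ℂ × ℂ} (hu : ∀ i ≤ m, IsU (u i)) {b : ℝ}
    (hb1 : b ≤ 2) (S : Finset (ℂ × ℂ))
    (hS : ∀ w ∈ S, w ∈ N ∧ (b = 0 ∨ ∃ i ≤ m, ‖wd w (u i)‖ ≤ 2 * (d : ℝ) ^ (-b))) :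
    (S.card : ℝ) ≤ (m + 1) * 40000 * ((d : ℝ) ^ (-b)) ^ 2 / η ^ 2 := by
  have hd1 : (1 : ℝ) ≤ d := by exact_mod_cast hd
  have hd0 : (0 : ℝ) < d := by linarith
  have hle : η ≤ (d : ℝ) ^ (-b) := by
    refine hη.trans ?_
    rw [← Real.rpow_natCast, ← Real.rpow_neg hd0.le]
    refine Real.rpow_le_rpow_of_exponent_le hd1 ?_
    push_cast
    linarith
  have hpos : 0 < (d : ℝ) ^ (-b) := Real.rpow_pos_of_pos hd0 _
  have hη1 : η ≤ 1 := hη.trans (inv_le_one_of_one_le₀ (one_le_pow₀ hd1))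
  rcases eq_or_ne b 0 with hb | hb
  · have h1 := hN.cnt (u 0) (hu 0 (Nat.zero_le _)) 2 (hη1.trans (by norm_num))
    have h2 : S ⊆ N.filter fun w => ‖wd (u 0) w‖ ≤ 2 := by
      intro w hw
      rw [Finset.mem_filter]
      exact ⟨(hS w hw).1, (wd_le_one' (hu 0 (Nat.zero_le _)) (hN.unit w (hS w hw).1)).trans
        (by norm_num)⟩
    have h3 : (S.card : ℝ) ≤ ((N.filter fun w => ‖wd (u 0) w‖ ≤ 2).card : ℝ) := by
      exact_mod_cast Finset.card_le_card h2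
    refine h3.trans (h1.trans ?_)
    rw [hb, neg_zero, Real.rpow_zero]
    rw [div_le_div_iff_of_pos_right (by positivity)]
    have : (0 : ℝ) ≤ m := Nat.cast_nonneg m
    nlinarith
  · have h2 : S ⊆ (range (m + 1)).biUnion fun i =>
        N.filter fun w => ‖wd (u i) w‖ ≤ 2 * (d : ℝ) ^ (-b) := by
      intro w hw
      obtain ⟨hwN, h⟩ := hS w hw
      rcases h with h | ⟨i, hi, h⟩
      · exact absurd h hb
      · rw [Finset.mem_biUnion]
        refine ⟨i, Finset.mem_range.2 (by omega), ?_⟩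
        rw [Finset.mem_filter]
        refine ⟨hwN, ?_⟩
        rw [wd_comm']
        exact h
    have h3 : (S.card : ℝ) ≤ ∑ i ∈ range (m + 1),
        ((N.filter fun w => ‖wd (u i) w‖ ≤ 2 * (d : ℝ) ^ (-b)).card : ℝ) := by
      have := (Finset.card_le_card h2).trans Finset.card_biUnion_le
      exact_mod_cast this
    refine h3.trans ?_
    have h4 : ∀ i ∈ range (m + 1),
        ((N.filter fun w => ‖wd (u i) w‖ ≤ 2 * (d : ℝ) ^ (-b)).card : ℝ) ≤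
          10000 * (2 * (d : ℝ) ^ (-b)) ^ 2 / η ^ 2 := by
      intro i hi
      exact hN.cnt (u i) (hu i (by have := Finset.mem_range.1 hi; omega)) _ (by linarith)
    refine (Finset.sum_le_sum h4).trans (le_of_eq ?_)
    rw [Finset.sum_const, Finset.card_range, nsmul_eq_mul]
    push_cast
    ring

/-- for a given map the target is one of boundedly many net points -/
theorem tgt_card {d : ℕ} (hd : 1 ≤ d) {N : Finset (ℂ × ℂ)} {η : ℝ} (hN : IsNet N η)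
    (hη0 : 0 < η) {K : ℝ} (hK : 1 ≤ K) {X : CV d} {v : ℂ × ℂ} {N' : Finset (ℂ × ℂ)}
    (h1 : N' ⊆ N) (h2 : ∀ w ∈ N', (d : ℝ)⁻¹ ≤ nn (FF X v) ∧
      ‖wd (FF X v) w‖ ≤ K * η * nn (FF X v)) :
    (N'.card : ℝ) ≤ 10000 * K ^ 2 := by
  rcases N'.eq_empty_or_nonempty with h | ⟨w0, hw0⟩
  · rw [h, card_empty, Nat.cast_zero]
    positivity
  · have hd0 : (0 : ℝ) < d := by exact_mod_cast hd
    have hpos : 0 < nn (FF X v) := lt_of_lt_of_le (inv_pos.2 hd0) (h2 w0 hw0).1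
    have hne : FF X v ≠ 0 := by
      intro hcon
      rw [hcon] at hpos
      simp [nn, n2] at hpos
    have hun : IsU (nx X v) := nx_unit hne
    have h3 := hN.cnt (nx X v) hun (K * η) (by nlinarith)
    have h4 : N' ⊆ N.filter fun w => ‖wd (nx X v) w‖ ≤ K * η := by
      intro w hw
      rw [Finset.mem_filter]
      refine ⟨h1 hw, ?_⟩
      have h5 := (h2 w hw).2
      rw [co_nx_wd hpos] at h5
      exact le_of_mul_le_mul_right h5 hpos
    have h5 : (N'.card : ℝ) ≤ ((N.filter fun w => ‖wd (nx X v) w‖ ≤ K * η).card : ℝ) := by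
      exact_mod_cast Finset.card_le_card h4
    refine h5.trans (h3.trans (le_of_eq ?_))
    field_simp

/-- constant of one step -/
noncomputable def C1 (n : ℕ) (K : ℝ) : ℝ :=
  40000 * ((n : ℝ) + 2) * (((3 * n + 5 : ℕ) : ℝ) ^ (3 * n + 5)) ^ 3 * 3 ^ (18 * (n + 2)) * K ^ 8

theorem C1_one (n : ℕ) {K : ℝ} (hK : 1 ≤ K) : 1 ≤ C1 n K := by
  unfold C1
  have h1 : (1 : ℝ) ≤ 40000 * ((n : ℝ) + 2) := by
    have : (0 : ℝ) ≤ n := Nat.cast_nonneg n
    linarith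
  have h2 : (1 : ℝ) ≤ (((3 * n + 5 : ℕ) : ℝ) ^ (3 * n + 5)) ^ 3 := by
    refine one_le_pow₀ (one_le_pow₀ ?_)
    exact_mod_cast (by omega : 1 ≤ 3 * n + 5)
  have h3 : (1 : ℝ) ≤ 3 ^ (18 * (n + 2)) := one_le_pow₀ (by norm_num)
  have h4 : (1 : ℝ) ≤ K ^ 8 := one_le_pow₀ hK
  exact one_le_mul_of_one_le_of_one_le
    (one_le_mul_of_one_le_of_one_le (one_le_mul_of_one_le_of_one_le h1 h2) h3) h4

/-- all constants are at most `C1` -/
theorem C1_le {n l T : ℕ} {K : ℝ} (hK : 1 ≤ K) (hl : l ≤ n) (hT : T ≤ n + 1) {a : ℝ}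
    (ha : a ≤ 40000 * ((n : ℝ) + 2)) {i j k : ℕ} (hi : i ≤ 3) (hj : j ≤ 3) (hk : k ≤ 8) :
    a * (((3 * (l + 1) + 2 : ℕ) : ℝ) ^ (3 * (l + 1) + 2)) ^ i * (3 ^ (6 * (T + 1))) ^ j * K ^ k ≤
      C1 n K := by
  have hM : (((3 * (l + 1) + 2 : ℕ) : ℝ) ^ (3 * (l + 1) + 2)) ≤
      (((3 * n + 5 : ℕ) : ℝ) ^ (3 * n + 5)) := by
    have h1 : ((3 * (l + 1) + 2 : ℕ) : ℝ) ≤ ((3 * n + 5 : ℕ) : ℝ) := by
      exact_mod_cast (by omega : 3 * (l + 1) + 2 ≤ 3 * n + 5)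
    have h2 : (1 : ℝ) ≤ ((3 * n + 5 : ℕ) : ℝ) := by
      exact_mod_cast (by omega : 1 ≤ 3 * n + 5)
    exact (pow_le_pow_left₀ (Nat.cast_nonneg _) h1 _).trans
      (pow_le_pow_right₀ h2 (by omega))
  have hM0 : 1 ≤ (((3 * (l + 1) + 2 : ℕ) : ℝ) ^ (3 * (l + 1) + 2)) := by
    refine one_le_pow₀ ?_
    exact_mod_cast (by omega : 1 ≤ 3 * (l + 1) + 2)
  have h1 : (((3 * (l + 1) + 2 : ℕ) : ℝ) ^ (3 * (l + 1) + 2)) ^ i ≤
      (((3 * n + 5 : ℕ) : ℝ) ^ (3 * n + 5)) ^ 3 :=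
    (pow_le_pow_right₀ hM0 hi).trans (pow_le_pow_left₀ (by linarith) hM 3)
  have h2 : ((3 : ℝ) ^ (6 * (T + 1))) ^ j ≤ 3 ^ (18 * (n + 2)) := by
    rw [← pow_mul]
    refine pow_le_pow_right₀ (by norm_num) ?_
    calc 6 * (T + 1) * j ≤ 6 * (n + 2) * 3 := Nat.mul_le_mul (by omega) hj
      _ = 18 * (n + 2) := by ring
  have h3 : K ^ k ≤ K ^ 8 := pow_le_pow_right₀ hK hk
  have hn : (0 : ℝ) ≤ n := Nat.cast_nonneg n
  unfold C1
  gcongr

end Pool.Agent.H73.SG
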