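import Pool.Agent.H73.SG.CntA

/-!
# [H73 SG CntB] The sum over the targets of one step, by kind: the bound
-/

set_option autoImplicit false

open Finset MeasureTheory

namespace Pool.Agent.H73.SG

open Pool.H70.SF Pool.Agent.H73.ES

theorem mu_le (p : PatK) (i : ℕ) : mu p i ≤ 3 := by
  cases i with
  | zero => exact le_refl _
  | succ i =>
    show (p.kd i).mul ≤ 3
    cases p.kd i <;> simp [Kd.mul]

private theorem pw_full {d : ℕ} (hd : 1 ≤ d) (h be b M : ℝ) :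
    ((d : ℝ) ^ (-h)) ^ 4 * ((d : ℝ) ^ (1 / 2 - be)) ^ 2 / d * ((d : ℝ) ^ (-b)) ^ 2 *
      ((d : ℝ) ^ (2 * M)) ^ 3 = (d : ℝ) ^ (-(4 * h + 2 * be) - 2 * b + 6 * M) := by
  have hd0 : (0 : ℝ) < d := by exact_mod_cast hd
  rw [← Real.rpow_natCast, ← Real.rpow_mul hd0.le, ← Real.rpow_natCast, ← Real.rpow_mul hd0.le,
    ← Real.rpow_natCast, ← Real.rpow_mul hd0.le, ← Real.rpow_natCast, ← Real.rpow_mul hd0.le,
    ← Real.rpow_add hd0]
  nth_rewrite 2 [← Real.rpow_one (d : ℝ)]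
  rw [← Real.rpow_sub hd0, ← Real.rpow_add hd0, ← Real.rpow_add hd0]
  congr 1
  push_cast
  ring

private theorem pw_der {d : ℕ} (hd : 1 ≤ d) (be M : ℝ) :
    ((d : ℝ) ^ (1 / 2 - be)) ^ 2 / d * (d : ℝ) ^ (2 * M) = (d : ℝ) ^ (-(2 * be) + 2 * M) := by
  have hd0 : (0 : ℝ) < d := by exact_mod_cast hd
  rw [← Real.rpow_natCast, ← Real.rpow_mul hd0.le]
  nth_rewrite 2 [← Real.rpow_one (d : ℝ)]
  rw [← Real.rpow_sub hd0, ← Real.rpow_add hd0]
  congr 1
  push_cast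
  ring

private theorem pw_pos {d : ℕ} (hd : 1 ≤ d) (b M : ℝ) :
    ((d : ℝ) ^ (-b)) ^ 2 * (d : ℝ) ^ (2 * M) = (d : ℝ) ^ (-(2 * b) + 2 * M) := by
  have hd0 : (0 : ℝ) < d := by exact_mod_cast hd
  rw [← Real.rpow_natCast, ← Real.rpow_mul hd0.le, ← Real.rpow_add hd0]
  congr 1
  push_cast
  ring

private theorem alg_full {a M Q G D K R τ η x y z dd : ℝ} (ha : 0 ≤ a) (hM : 0 ≤ M) (hQ : 0 ≤ Q)
    (hQG : Q ≤ G * D) (hτ : 0 < τ) (hη : 0 < η) (hdd : 0 < dd) :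
    (a * z ^ 2 / η ^ 2) * (M ^ 3 * Q ^ 3 * (K * R * η * x * (K * R * x) * (K * R * y)) ^ 2 /
      (dd * τ ^ 6)) ≤ (a * M ^ 3 * G ^ 3 * K ^ 6) * (R / τ) ^ 6 *
        (x ^ 4 * y ^ 2 / dd * z ^ 2 * D ^ 3) := by
  calc (a * z ^ 2 / η ^ 2) * (M ^ 3 * Q ^ 3 * (K * R * η * x * (K * R * x) * (K * R * y)) ^ 2 /
      (dd * τ ^ 6)) ≤ (a * z ^ 2 / η ^ 2) * (M ^ 3 * (G * D) ^ 3 *
        (K * R * η * x * (K * R * x) * (K * R * y)) ^ 2 / (dd * τ ^ 6)) := by
        gcongr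
    _ = _ := by
        field_simp

private theorem alg_der {a M Q G D K R τ y dd : ℝ} (ha : 0 ≤ a) (hM : 0 ≤ M)
    (hQG : Q ≤ G * D) (hτ : 0 < τ) (hdd : 0 < dd) :
    a * (M * Q * (K * R * y) ^ 2 / (dd * τ ^ 2)) ≤ (a * M ^ 1 * G ^ 1 * K ^ 2) * (R / τ) ^ 2 *
        (y ^ 2 / dd * D) := by
  calc a * (M * Q * (K * R * y) ^ 2 / (dd * τ ^ 2)) ≤
      a * (M * (G * D) * (K * R * y) ^ 2 / (dd * τ ^ 2)) := by gcongr
    _ = _ := by
        field_simp

private theorem alg_pos {a M Q G D K R τ η z : ℝ} (ha : 0 ≤ a) (hM : 0 ≤ M)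
    (hQG : Q ≤ G * D) (hτ : 0 < τ) (hη : 0 < η) :
    (a * z ^ 2 / η ^ 2) * (M * Q * (K * R * η) ^ 2 / τ ^ 2) ≤
      (a * M ^ 1 * G ^ 1 * K ^ 2) * (R / τ) ^ 2 * (z ^ 2 * D) := by
  calc (a * z ^ 2 / η ^ 2) * (M * Q * (K * R * η) ^ 2 / τ ^ 2) ≤
      (a * z ^ 2 / η ^ 2) * (M * (G * D) * (K * R * η) ^ 2 / τ ^ 2) := by gcongr
    _ = _ := by
        field_simp

/-- the measure of the step `l`, summed over the targets -/
theorem kind_sum {n : ℕ} {K : ℝ} (hK : 1 ≤ K) {d : ℕ} (hd : 3 * n + 10 ≤ d) {A : ℝ}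
    (X0 : CV d) {τ : ℝ} (hA : 0 ≤ A) (hτ : 0 < τ) (hτ1 : τ ≤ 1) {R : ℝ} (hR : 1 ≤ R) {p : PatK}
    (hp : p.ok) {T : ℕ} (hT : T ≤ n + 1) {N : Finset (ℂ × ℂ)} {η : ℝ} (hN : IsNet N η)
    (hη0 : 0 < η) (hη : η ≤ ((d : ℝ) ^ 2)⁻¹) {l : ℕ} (hl : l < T) {u : ℕ → ℂ × ℂ}
    (hU : ∀ i ≤ l + 1, IsU (u i)) (hD : DlK d p u l) {E : Set (CV d)} (hE : MeasurableSet E)
    (hinv : ∀ X f : CV d, VanE (mu p) u (l + 1) f.1 → VanE (mu p) u (l + 1) f.2 →
      (X + f ∈ E ↔ X ∈ E)) (S : Finset (ℂ × ℂ))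
    (hS : ∀ w ∈ S, w ∈ N ∧ (p.b (l + 1) = 0 ∨
      ∃ i ≤ l + 1, ‖wd w (u i)‖ ≤ 2 * (d : ℝ) ^ (-p.b (l + 1)))) :
    ∑ w ∈ S, gau A X0 τ (E ∩ {X | StV K R η (p.be l) (p.h l) (p.kd l) (u (l + 1)) w X}) ≤
      ENNReal.ofReal (C1 n K * (R / τ) ^ 6 * (d : ℝ) ^ (stE p l)) * gau A X0 τ E := by
  classical
  have hd1 : 1 ≤ d := by omega
  have hdR : (0 : ℝ) < d := by exact_mod_cast hd1
  have hdm : 3 * (l + 1) + 2 ≤ d := by omega
  have hρ1 : 1 ≤ R / τ := by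
    rw [le_div_iff₀ hτ]
    linarith
  have hn : (0 : ℝ) ≤ n := Nat.cast_nonneg n
  have hln : (l : ℝ) ≤ n := by exact_mod_cast (by omega : l ≤ n)
  have hSw : ∀ w ∈ S, IsU w := fun w hw => hN.unit w (hS w hw).1
  have hcard := card_bd (m := l + 1) hd1 hN hη0 hη hU (b := p.b (l + 1)) (hp.b0 _).2 S hS
  have hC0 : 0 ≤ C1 n K := by linarith [C1_one n hK]
  set M : ℝ := (((3 * (l + 1) + 2 : ℕ) : ℝ) ^ (3 * (l + 1) + 2)) with hM
  have hM0 : 0 ≤ M := by positivity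
  set G : ℝ := (3 : ℝ) ^ (6 * (T + 1)) with hG
  have hG1 : 1 ≤ G := one_le_pow₀ (by norm_num)
  -- the loss factor for the kinds with discs
  have hkk : p.kd l ≠ Kd.free → (∀ i < l + 1, wd (u (l + 1)) (u i) ≠ 0) ∧
      KE d (mu p) u (l + 1) ^ 2 ≤ G * (d : ℝ) ^ (2 * ML p l) := by
    intro hk
    have hD' : ∀ i ≤ l, (d : ℝ) ^ (-p.bb l i) / 2 ≤ ‖wd (u (l + 1)) (u i)‖ := by
      rcases hD with h | h
      · exact absurd h hk
      · exact h
    refine ⟨?_, ?_⟩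
    · intro i hi h
      have h1 := hD' i (by omega)
      rw [h, norm_zero] at h1
      have : 0 < (d : ℝ) ^ (-p.bb l i) := Real.rpow_pos_of_pos hdR _
      linarith
    · exact (ke_bd (T := T) hd1 (mu_le p) (q := p.bb l) (by omega)
        (fun i hi => hD' i (by omega))).2
  have hsum : ∀ (f : ℂ × ℂ → Set (CV d)) (cm : ℝ), 0 ≤ cm →
      (∀ w ∈ S, gau A X0 τ (E ∩ f w) ≤ ENNReal.ofReal cm * gau A X0 τ E) → ∀ B : ℝ,
      (((l + 1 : ℕ) : ℝ) + 1) * 40000 * ((d : ℝ) ^ (-p.b (l + 1))) ^ 2 / η ^ 2 * cm ≤ B →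
      ∑ w ∈ S, gau A X0 τ (E ∩ f w) ≤ ENNReal.ofReal B * gau A X0 τ E := by
    intro f cm hcm hf B hB
    calc ∑ w ∈ S, gau A X0 τ (E ∩ f w) ≤ ∑ _w ∈ S, ENNReal.ofReal cm * gau A X0 τ E :=
          sum_le_sum hf
      _ = ENNReal.ofReal ((S.card : ℝ) * cm) * gau A X0 τ E := by
          rw [Finset.sum_const, nsmul_eq_mul, ENNReal.ofReal_mul (Nat.cast_nonneg _),
            ENNReal.ofReal_natCast, mul_assoc]
      _ ≤ _ := by
          refine mul_le_mul_left (ENNReal.ofReal_le_ofReal ?_) _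
          exact (mul_le_mul_of_nonneg_right hcard hcm).trans hB
  have hρ26 : (R / τ) ^ 2 ≤ (R / τ) ^ 6 := pow_le_pow_right₀ hρ1 (by norm_num)
  have hρ0 : 0 ≤ R / τ := by linarith
  -- number of targets for a given map
  have hov : ∀ x : CV d, ∀ N' ⊆ S, (∀ w ∈ N', x ∈ {X : CV d | (d : ℝ)⁻¹ ≤ nn (FF X (u (l + 1))) ∧
      ‖wd (FF X (u (l + 1))) w‖ ≤ K * η * nn (FF X (u (l + 1)))}) →
      (N'.card : ℝ) ≤ 10000 * K ^ 2 := by
    intro x N' hN' h
    exact tgt_card hd1 hN hη0 hK (X := x) (v := u (l + 1))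
      (fun w hw => (hS w (hN' hw)).1) h
  cases hk : p.kd l with
  | full =>
    obtain ⟨hw0, hQ⟩ := hkk (by rw [hk]; decide)
    set x : ℝ := (d : ℝ) ^ (-p.h l) with hx
    set y : ℝ := (d : ℝ) ^ (1 / 2 - p.be l) with hy
    have hx0 : 0 < x := Real.rpow_pos_of_pos hdR _
    have hy0 : 0 < y := Real.rpow_pos_of_pos hdR _
    have hst : stE p l = -(4 * p.h l + 2 * p.be l) - 2 * p.b (l + 1) + 6 * ML p l := by
      unfold stE
      rw [hk]
    refine hsum _ (M ^ 3 * (KE d (mu p) u (l + 1) ^ 2) ^ 3 *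
        (K * R * η * x * (K * R * x) * (K * R * y)) ^ 2 / (d * τ ^ 6)) (by positivity) ?_ _ ?_
    · intro w hw
      exact mE_full (mu_le p) hA hdm X0 hτ hU hw0 (hSw w hw) hE hinv (by positivity)
        (by positivity) (by positivity)
    · refine (alg_full (G := G) (D := (d : ℝ) ^ (2 * ML p l)) (by positivity) hM0 (sq_nonneg _)
        hQ hτ hη0 hdR).trans ?_
      rw [hst, ← pw_full hd1, ← hx, ← hy]
      refine mul_le_mul_of_nonneg_right ?_ (by positivity)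
      refine mul_le_mul_of_nonneg_right ?_ (by positivity)
      refine C1_le hK (l := l) (T := T) (by omega) hT ?_ (le_refl _) (le_refl _) (by norm_num)
      push_cast
      linarith
  | free =>
    have hst : stE p l = 0 := by
      unfold stE
      rw [hk]
    have h1 := sum_ov (gau A X0 τ) hE S (fun w => {X : CV d | (d : ℝ)⁻¹ ≤ nn (FF X (u (l + 1))) ∧
      ‖wd (FF X (u (l + 1))) w‖ ≤ K * η * nn (FF X (u (l + 1)))})
      (fun w _ => (tgt_closed K η _ w).measurableSet) (M := 10000 * K ^ 2)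
      (fun x _ N' hN' h => hov x N' hN' h)
    refine h1.trans (mul_le_mul_left (ENNReal.ofReal_le_ofReal ?_) _)
    rw [hst, Real.rpow_zero, mul_one]
    have h2 := C1_le hK (l := l) (T := T) (by omega) hT (a := 10000) (by linarith)
      (i := 0) (j := 0) (k := 2) (by norm_num) (by norm_num) (by norm_num)
    rw [pow_zero, pow_zero, mul_one, mul_one] at h2
    have h3 : C1 n K * 1 ≤ C1 n K * (R / τ) ^ 6 :=
      mul_le_mul_of_nonneg_left (one_le_pow₀ hρ1) hC0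
    linarith
  | der =>
    obtain ⟨hw0, hQ⟩ := hkk (by rw [hk]; decide)
    set y : ℝ := (d : ℝ) ^ (1 / 2 - p.be l) with hy
    have hy0 : 0 < y := Real.rpow_pos_of_pos hdR _
    have hst : stE p l = -(2 * p.be l) + 2 * ML p l := by
      unfold stE
      rw [hk]
    set cm : ℝ := M * KE d (mu p) u (l + 1) ^ 2 * (K * R * y) ^ 2 / (d * τ ^ 2) with hcm
    have hcm0 : 0 ≤ cm := by positivity
    set Aw : ℂ × ℂ → Set (CV d) := fun w => {X : CV d | (d : ℝ)⁻¹ ≤ nn (FF X (u (l + 1))) ∧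
      ‖wd (FF X (u (l + 1))) w‖ ≤ K * η * nn (FF X (u (l + 1)))} with hAw
    have h0 : ∀ w ∈ S, gau A X0 τ (E ∩ {X | StV K R η (p.be l) (p.h l) Kd.der (u (l + 1)) w X}) ≤
        ENNReal.ofReal cm * gau A X0 τ (E ∩ Aw w) := by
      intro w hw
      have h1 := mE_der (mu_le p) hA hdm X0 hτ hU hw0 (hSw w hw)
        (hE.inter (tgt_closed K η (u (l + 1)) w).measurableSet) (r := K * R * y) (by
          intro X f hf1 hf2 hf3
          have h2 := ff_van' X f (u (l + 1)) hf3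
          constructor
          · rintro ⟨h3, h4⟩
            refine ⟨(hinv X f hf1 hf2).1 h3, ?_⟩
            simp only [Set.mem_ofPred_eq] at h4 ⊢
            rw [h2] at h4
            exact h4
          · rintro ⟨h3, h4⟩
            refine ⟨(hinv X f hf1 hf2).2 h3, ?_⟩
            simp only [Set.mem_ofPred_eq] at h4 ⊢
            rw [h2]
            exact h4) (by positivity)
      refine le_trans (measure_mono ?_) h1
      rintro X ⟨h3, h4, h5⟩
      exact ⟨⟨h3, h4⟩, h5⟩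
    have h1 := sum_ov (gau A X0 τ) hE S Aw
      (fun w _ => (tgt_closed K η _ w).measurableSet) (M := 10000 * K ^ 2)
      (fun x _ N' hN' h => hov x N' hN' h)
    calc ∑ w ∈ S, gau A X0 τ (E ∩ {X | StV K R η (p.be l) (p.h l) Kd.der (u (l + 1)) w X})
        ≤ ∑ w ∈ S, ENNReal.ofReal cm * gau A X0 τ (E ∩ Aw w) := sum_le_sum h0
      _ = ENNReal.ofReal cm * ∑ w ∈ S, gau A X0 τ (E ∩ Aw w) := by rw [mul_sum]
      _ ≤ ENNReal.ofReal cm * (ENNReal.ofReal (10000 * K ^ 2) * gau A X0 τ E) :=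
          mul_le_mul_right h1 _
      _ = ENNReal.ofReal (10000 * K ^ 2 * cm) * gau A X0 τ E := by
          rw [← mul_assoc, ← ENNReal.ofReal_mul hcm0, mul_comm cm]
      _ ≤ _ := by
          refine mul_le_mul_left (ENNReal.ofReal_le_ofReal ?_) _
          refine (alg_der (G := G) (D := (d : ℝ) ^ (2 * ML p l)) (by positivity) hM0
            hQ hτ hdR).trans ?_
          rw [hst, ← pw_der hd1, ← hy]
          refine mul_le_mul_of_nonneg_right ?_ (by positivity)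
          have h2 := C1_le hK (l := l) (T := T) (by omega) hT (a := 10000) (by linarith)
            (i := 1) (j := 1) (k := 4) (by norm_num) (by norm_num) (by norm_num)
          have h3 : 10000 * K ^ 2 * M ^ 1 * G ^ 1 * K ^ 2 = 10000 * M ^ 1 * G ^ 1 * K ^ 4 := by
            ring
          rw [h3]
          exact mul_le_mul h2 hρ26 (by positivity) hC0
  | pos =>
    obtain ⟨hw0, hQ⟩ := hkk (by rw [hk]; decide)
    have hst : stE p l = -(2 * p.b (l + 1)) + 2 * ML p l := by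
      unfold stE
      rw [hk]
    refine hsum _ (M * KE d (mu p) u (l + 1) ^ 2 * (K * R * η) ^ 2 / τ ^ 2) (by positivity) ?_ _ ?_
    · intro w hw
      exact mE_pos (mu_le p) hA hdm X0 hτ hU hw0 (hSw w hw) hE hinv (by positivity)
    · refine (alg_pos (G := G) (D := (d : ℝ) ^ (2 * ML p l)) (by positivity) hM0
        hQ hτ hη0).trans ?_
      rw [hst, ← pw_pos hd1]
      refine mul_le_mul_of_nonneg_right ?_ (by positivity)
      refine mul_le_mul ?_ hρ26 (by positivity) hC0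
      refine C1_le hK (l := l) (T := T) (by omega) hT ?_ (by norm_num) (by norm_num) (by norm_num)
      push_cast
      linarith

end Pool.Agent.H73.SG
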