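import Pool.Agent.H73.ES.Codc
import Pool.Agent.H73.SG.Cd

/-!
# [H73 SG Codc] Coding of a bad pattern with kinds

Adaptation of `Pool.Agent.H73.ES.Codc`.
-/

set_option autoImplicit false

open Finset MeasureTheory

namespace Pool.Agent.H73.SG

open Pool.H70.SF Pool.Agent.H73.ES

/-- the target relation -/
theorem co_tgt {d : ℕ} (hd : 1000 ≤ d) {R : ℝ} (hR : 1 ≤ R) (hRd : R ≤ d) {X : CV d}
    (hG : GG R X) {y u w : ℂ × ℂ} (hy : IsU y) (hu : IsU u) (hw : IsU w) {η η' : ℝ}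
    (h1 : ‖wd y u‖ ≤ η) (h2 : ‖wd (nx X y) w‖ ≤ η') (h3 : (d : ℝ) ^ 6 * η ≤ η')
    (h4 : (d : ℝ) ^ 6 * η' ≤ 1) : ‖wd (FF X u) w‖ ≤ 2 * η' * nn (FF X u) := by
  have hD : (1000 : ℝ) ≤ d := by exact_mod_cast hd
  have hD0 : (0 : ℝ) < d := by linarith
  have hd2 : 2 ≤ d := by omega
  have hη : 0 ≤ η := (norm_nonneg _).trans h1
  obtain ⟨n1, n2', n3, n4, n5, n6, n7⟩ := co_num hD hR hRd hη h3 h4
  have hR0 : 0 < R := by linarith
  have hs0 := Real.sqrt_nonneg (d : ℝ)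
  have hRR : ∀ u, IsU u → nn (FF X u) ≤ R := fun u hu => (hG u hu).2
  have hLL : ∀ u, IsU u → 0 < nn (FF X u) := fun u hu =>
    lt_of_lt_of_le (inv_pos.mpr hD0) (hG u hu).1
  have hyu : 8 * Real.sqrt d * ‖wd y u‖ ≤ 1 := by
    have : 8 * Real.sqrt d * ‖wd y u‖ ≤ 8 * Real.sqrt d * η := by gcongr
    linarith
  have huy : 8 * Real.sqrt d * ‖wd u y‖ ≤ 1 := by rwa [co_wd_comm u y]
  have hsm : 10 ^ 4 * R * Real.sqrt d * ‖wd y u‖ ≤ 10 ^ 4 * R * Real.sqrt d * η := by gcongr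
  have gy := (hG y hy).1
  have hpu := hLL u hu
  have hpy := hLL y hy
  have w1 : ‖wd (nx X u) (nx X y)‖ ≤ η' := by
    rw [co_nx_wd2 hpu hpy]
    have := wd_lip hd2 hRR hu hy huy
    rw [co_wd_comm u y] at this
    rw [div_le_iff₀ (by positivity)]
    refine this.trans ?_
    have q1 : 10 ^ 4 * R * Real.sqrt d * ‖wd y u‖ ≤ η' * nn (FF X y) := by
      have q2 : 10 ^ 4 * R * Real.sqrt d * η = (10 ^ 4 * R * Real.sqrt d * η * d) * (d : ℝ)⁻¹ := by
        field_simp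
      refine hsm.trans ?_
      rw [q2]
      exact mul_le_mul n3 gy (by positivity) n7
    have := mul_le_mul_of_nonneg_left q1 hpu.le
    linarith
  have hFu : FF X u ≠ 0 := by
    intro hcon
    rw [hcon] at hpu
    simp [nn, n2] at hpu
  have hFy : FF X y ≠ 0 := by
    intro hcon
    rw [hcon] at hpy
    simp [nn, n2] at hpy
  have w2 : ‖wd (nx X u) w‖ ≤ 2 * η' := by
    have := wd_tri (nx_unit hFu) (nx_unit hFy) hw
    linarith
  rw [co_nx_wd hpu]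
  exact mul_le_mul_of_nonneg_right w2 hpu.le

theorem codK (n : ℕ) : ∃ (K : ℝ) (d0 : ℕ), 1 ≤ K ∧ ∀ d ≥ d0, ∀ R : ℝ, 1 ≤ R → R ≤ d →
    ∀ p : PatK, p.ok → ∀ T ≤ n + 1, ∀ N : ℕ → Finset (ℂ × ℂ),
    (∀ k ≤ T + 1, IsNet (N k) (et d (6 * n + 30) k)) →
      (BadK R p T : Set (CV d)) ⊆ CodK K R (et d (6 * n + 30)) N p T := by
  obtain ⟨K0, d00, hK0, H0⟩ := co0
  obtain ⟨K1, d01, hK1, H1⟩ := co1
  refine ⟨max (max K0 K1) 2, max (max d00 d01) 1000,
    (hK0.trans (le_max_left _ _)).trans (le_max_left _ _), ?_⟩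
  intro d hd R hR hRd p hp T hT N hN X hX
  have hd00 : d00 ≤ d := ((le_max_left _ _).trans (le_max_left _ _)).trans hd
  have hd01 : d01 ≤ d := ((le_max_right _ _).trans (le_max_left _ _)).trans hd
  have hd1000 : 1000 ≤ d := (le_max_right _ _).trans hd
  have hd1 : 1 ≤ d := by omega
  have hD0 : (0 : ℝ) < d := by exact_mod_cast hd1
  have hD1 : (1 : ℝ) ≤ d := by exact_mod_cast hd1
  have hD : (1000 : ℝ) ≤ d := by exact_mod_cast hd1000
  obtain ⟨hG, c, hc, hJ, hcd⟩ := hX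
  have hR0 : 0 < R := by linarith
  have hne : ∀ v, IsU v → FF X v ≠ 0 := by
    intro v hv hcon
    have h1 := (hG v hv).1
    rw [hcon] at h1
    have h2 : nn (0 : ℂ × ℂ) = 0 := by simp [nn, n2]
    rw [h2] at h1
    have : (0 : ℝ) < (d : ℝ)⁻¹ := by positivity
    linarith
  have hpt : ∀ k, IsU (pt X c k) := by
    intro k
    cases k with
    | zero => exact hc
    | succ l =>
      induction l with
      | zero => exact nx_unit (hne c hc)
      | succ l ih => exact nx_unit (hne _ ih)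
  set η := et d (6 * n + 30) with hηdef
  have hη0 : ∀ k, 0 < η k := fun k => et_pos hd1 k
  have hηs : ∀ k ≤ T + 1, η k ≤ ((d : ℝ) ^ 2)⁻¹ / 4 := by
    intro k hk
    have h1 : (d : ℝ) ^ 10 * η k ≤ 1 := et_f5 hd1 (by omega)
    have h2 : 4 * (d : ℝ) ^ 2 ≤ (d : ℝ) ^ 10 := by
      have h3 : (4 : ℝ) ≤ (d : ℝ) ^ 8 := by
        calc (4 : ℝ) ≤ d := by linarith
          _ = (d : ℝ) ^ 1 := (pow_one _).symm
          _ ≤ (d : ℝ) ^ 8 := pow_le_pow_right₀ hD1 (by norm_num)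
      have h4 := mul_le_mul_of_nonneg_right h3 (by positivity : (0 : ℝ) ≤ (d : ℝ) ^ 2)
      have e : (d : ℝ) ^ 8 * (d : ℝ) ^ 2 = (d : ℝ) ^ 10 := by ring
      linarith
    have h5 := mul_le_mul_of_nonneg_right h2 (hη0 k).le
    have h6 : η k = ((d : ℝ) ^ 2)⁻¹ / 4 * (4 * (d : ℝ) ^ 2 * η k) := by field_simp
    rw [h6]
    have h7 : (0 : ℝ) ≤ ((d : ℝ) ^ 2)⁻¹ / 4 := by positivity
    have := mul_le_mul_of_nonneg_left (h5.trans h1) h7
    linarith
  have hpow : ∀ x : ℝ, x ≤ 2 → ((d : ℝ) ^ 2)⁻¹ ≤ (d : ℝ) ^ (-x) := by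
    intro x hx
    rw [← Real.rpow_natCast, ← Real.rpow_neg hD0.le]
    refine Real.rpow_le_rpow_of_exponent_le hD1 ?_
    push_cast
    linarith
  have hex : ∀ k, ∃ w : ℂ × ℂ, k ≤ T + 1 → (w ∈ N k ∧ ‖wd (pt X c k) w‖ ≤ η k) := by
    intro k
    by_cases hk : k ≤ T + 1
    · obtain ⟨w, h1, h2⟩ := (hN k hk).cov _ (hpt k)
      exact ⟨w, fun _ => ⟨h1, h2⟩⟩
    · exact ⟨0, fun h => absurd h hk⟩
  choose u hu using hex
  have huU : ∀ k ≤ T + 1, IsU (u k) := fun k hk => (hN k hk).unit _ (hu k hk).1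
  set K : ℝ := max (max K0 K1) 2 with hKdef
  have hK2 : 2 ≤ K := le_max_right _ _
  have hK0' : K0 ≤ K := (le_max_left _ _).trans (le_max_left _ _)
  have hK1' : K1 ≤ K := (le_max_right _ _).trans (le_max_left _ _)
  have hT : ∀ x : ℝ, 0 ≤ x → K0 * x ≤ K * x := fun x hx =>
    mul_le_mul_of_nonneg_right hK0' hx
  have hT' : ∀ x : ℝ, 0 ≤ x → K1 * x ≤ K * x := fun x hx =>
    mul_le_mul_of_nonneg_right hK1' hx
  refine ⟨u, fun k hk => (hu k hk).1, ?_, ?_, ?_⟩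
  · obtain ⟨a1, a2, a3, a4⟩ := H0 d hd00 R hR hRd X hG c (u 0) (u 1) hc (huU 0 (by omega))
      (huU 1 (by omega)) hJ (η 0) (η 1) (hu 0 (by omega)).2 (hu 1 (by omega)).2
      et_f1 (et_f2 hd1 (by omega)) (et_f3 hd1 (by omega)) p.th p.hc hp.th0.1 hp.th0.2
      hp.hc0.1 hp.hc0.2 hcd.cth hcd.chc
    have q1 : (0 : ℝ) < (d : ℝ) ^ (-p.hc) := Real.rpow_pos_of_pos hD0 _
    have q2 : (0 : ℝ) < (d : ℝ) ^ (1 - p.th) := Real.rpow_pos_of_pos hD0 _
    have e0 := hη0 0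
    have e1 := hη0 1
    refine ⟨a1.trans ?_, a2.trans ?_, a3.trans ?_, a4.trans ?_⟩
    · have := hT (R * η 1 * (d : ℝ) ^ (-p.hc)) (by positivity)
      linarith
    · have := hT (R * (d : ℝ) ^ (-p.hc)) (by positivity)
      linarith
    · have := hT (R * (d : ℝ) ^ (1 - p.th) * η 0) (by positivity)
      linarith
    · have := hT (R * (d : ℝ) ^ (1 - p.th)) (by positivity)
      linarith
  · intro l hl
    have h5 : (d : ℝ) ^ 10 * η (l + 2) ≤ 1 := et_f5 hd1 (by omega)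
    have h6 : (d : ℝ) ^ 6 * η (l + 2) ≤ 1 :=
      (mul_le_mul_of_nonneg_right (pow_le_pow_right₀ hD1 (by norm_num)) (hη0 _).le).trans h5
    have hb' : (p.kd l = Kd.full ∨ p.kd l = Kd.der) → (p.be l = 0 ∨
        ‖wd (FF X (ob X c l)) (jv X (ob X c l) 1)‖ ≤
          (d : ℝ) ^ (1 / 2 - p.be l) * nn (FF X (ob X c l))) := hcd.cbe l hl
    have htg : ‖wd (FF X (u (l + 1))) (u (l + 2))‖ ≤ 2 * η (l + 2) * nn (FF X (u (l + 1))) :=
      co_tgt hd1000 hR hRd hG (hpt (l + 1)) (huU (l + 1) (by omega)) (huU (l + 2) (by omega))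
        (hu (l + 1) (by omega)).2 (hu (l + 2) (by omega)).2 (et_f4 l) h6
    have hfr : (d : ℝ)⁻¹ ≤ nn (FF X (u (l + 1))) ∧ ‖wd (FF X (u (l + 1))) (u (l + 2))‖ ≤
        K * η (l + 2) * nn (FF X (u (l + 1))) := by
      refine ⟨(hG _ (huU (l + 1) (by omega))).1, htg.trans ?_⟩
      have h7 : 0 ≤ η (l + 2) * nn (FF X (u (l + 1))) :=
        mul_nonneg (hη0 _).le (co_nn_nonneg _)
      have := mul_le_mul_of_nonneg_right hK2 h7
      linarith
    have e1 := hη0 (l + 2)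
    refine ⟨?_, ?_⟩
    · unfold StK
      cases hk : p.kd l with
      | full =>
        obtain ⟨a1, a2, a3⟩ := H1 d hd01 R hR hRd X hG (ob X c l) (u (l + 1)) (u (l + 2))
          (hpt (l + 1)) (huU (l + 1) (by omega)) (huU (l + 2) (by omega)) (η (l + 1)) (η (l + 2))
          (hu (l + 1) (by omega)).2 (hu (l + 2) (by omega)).2 (et_f4 l) h6
          (p.be l) (p.h l) (hp.be0 l).1 (hp.be0 l).2 (hp.h0 l).1 (hp.h0 l).2
          (hb' (Or.inl hk)) (hcd.ch l hl hk)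
        have q1 : (0 : ℝ) < (d : ℝ) ^ (-p.h l) := Real.rpow_pos_of_pos hD0 _
        have q2 : (0 : ℝ) < (d : ℝ) ^ (1 / 2 - p.be l) := Real.rpow_pos_of_pos hD0 _
        refine ⟨a1.trans ?_, a2.trans ?_, a3.trans ?_⟩
        · have := hT' (R * η (l + 2) * (d : ℝ) ^ (-p.h l)) (by positivity)
          linarith
        · have := hT' (R * (d : ℝ) ^ (-p.h l)) (by positivity)
          linarith
        · have := hT' (R * (d : ℝ) ^ (1 / 2 - p.be l)) (by positivity)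
          linarith
      | free => exact hfr
      | der =>
        obtain ⟨a1, a2, a3⟩ := H1 d hd01 R hR hRd X hG (ob X c l) (u (l + 1)) (u (l + 2))
          (hpt (l + 1)) (huU (l + 1) (by omega)) (huU (l + 2) (by omega)) (η (l + 1)) (η (l + 2))
          (hu (l + 1) (by omega)).2 (hu (l + 2) (by omega)).2 (et_f4 l) h6
          (p.be l) 0 (hp.be0 l).1 (hp.be0 l).2 le_rfl zero_le_one
          (hb' (Or.inr hk)) (Or.inl rfl)
        have q2 : (0 : ℝ) < (d : ℝ) ^ (1 / 2 - p.be l) := Real.rpow_pos_of_pos hD0 _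
        refine ⟨hfr, a3.trans ?_⟩
        have := hT' (R * (d : ℝ) ^ (1 / 2 - p.be l)) (by positivity)
        linarith
      | pos =>
        show ‖wd (FF X (u (l + 1))) (u (l + 2))‖ ≤ K * R * η (l + 2)
        have h7 : nn (FF X (u (l + 1))) ≤ R := (hG _ (huU (l + 1) (by omega))).2
        have h8 : 2 * η (l + 2) * nn (FF X (u (l + 1))) ≤ 2 * η (l + 2) * R :=
          mul_le_mul_of_nonneg_left h7 (by positivity)
        have h9 := mul_le_mul_of_nonneg_right hK2 (by positivity : 0 ≤ R * η (l + 2))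
        linarith
    · by_cases hk : p.kd l = Kd.free
      · exact Or.inl hk
      right
      intro i hi
      have t1 := wd_tri (hpt (l + 1)) (huU (l + 1) (by omega)) (hpt i)
      have t2 := wd_tri (huU (l + 1) (by omega)) (huU i (by omega)) (hpt i)
      have t3 := (hu (l + 1) (by omega)).2
      have t4 := (hu i (by omega)).2
      rw [co_wd_comm] at t4
      have t5 := hηs (l + 1) (by omega)
      have t6 := hηs i (by omega)
      have t7 : (d : ℝ) ^ (-p.bb l i) ≤ ‖wd (pt X c (l + 1)) (pt X c i)‖ := hcd.cbb l hl hk i hi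
      have t8 : ((d : ℝ) ^ 2)⁻¹ ≤ (d : ℝ) ^ (-p.bb l i) := hpow _ (hp.bb0 l i).2
      linarith
  · intro l hl
    rcases hcd.cb l hl with h | ⟨i, hi, h⟩
    · exact Or.inl h
    · refine Or.inr ⟨i, hi, ?_⟩
      have t1 := wd_tri (huU (l + 1) (by omega)) (hpt (l + 1)) (huU i (by omega))
      have t2 := wd_tri (hpt (l + 1)) (hpt i) (huU i (by omega))
      have t3 := (hu (l + 1) (by omega)).2
      have t4 := (hu i (by omega)).2
      rw [co_wd_comm] at t3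
      have t5 := hηs (l + 1) (by omega)
      have t6 := hηs i (by omega)
      have t7 : ‖wd (pt X c (l + 1)) (pt X c i)‖ ≤ (d : ℝ) ^ (-p.b l) := h
      have t8 : ((d : ℝ) ^ 2)⁻¹ ≤ (d : ℝ) ^ (-p.b l) := hpow _ (hp.b0 l).2
      have t9 : (0 : ℝ) < (d : ℝ) ^ (-p.b l) := Real.rpow_pos_of_pos hD0 _
      linarith

end Pool.Agent.H73.SG
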