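import Pool.Agent.H73.SG.CntA

/-!
# [H73 SG Codz] The coded set is closed

Adaptation of `Pool.Agent.H73.ES.Codz`.
-/

set_option autoImplicit false

open Finset MeasureTheory

namespace Pool.Agent.H73.SG

open Pool.H70.SF Pool.Agent.H73.ES

theorem codK_closed {d : ℕ} (K R : ℝ) (η : ℕ → ℝ) (N : ℕ → Finset (ℂ × ℂ)) (p : PatK) (T : ℕ) :
    IsClosed (CodK K R η N p T : Set (CV d)) := by
  classical
  set ext : (∀ k : Fin (T + 2), {x // x ∈ N k}) → ℕ → ℂ × ℂ :=
    fun v k => if h : k < T + 2 then (v ⟨k, h⟩ : ℂ × ℂ) else 0 with hext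
  have heq : (CodK K R η N p T : Set (CV d)) =
      ⋃ v : (∀ k : Fin (T + 2), {x // x ∈ N k}), {X : CV d | StK0 K R η p (ext v) X ∧
        (∀ l < T, StK K R η p (ext v) l X ∧ DlK d p (ext v) l) ∧
          ∀ l ≤ T, DeK d p (ext v) l} := by
    ext X
    rw [Set.mem_iUnion]
    constructor
    · rintro ⟨u, h1, h2, h3, h4⟩
      refine ⟨fun k => ⟨u k, h1 k (by have := k.2; omega)⟩, ?_⟩
      have hu : ∀ k ≤ T + 1, ext (fun k => ⟨u k, h1 k (by have := k.2; omega)⟩) k = u k := by
        intro k hk
        rw [hext]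
        simp only
        rw [dif_pos (by omega)]
      obtain ⟨w, hw⟩ : ∃ w, w = ext (fun k => ⟨u k, h1 k (by have := k.2; omega)⟩) := ⟨_, rfl⟩
      rw [← hw] at hu ⊢
      refine ⟨?_, fun l hl => ⟨?_, ?_⟩, fun l hl => ?_⟩
      · unfold StK0
        rw [hu 0 (by omega), hu 1 (by omega)]
        exact h2
      · unfold StK
        rw [hu (l + 1) (by omega), hu (l + 2) (by omega)]
        exact (h3 l hl).1
      · rcases (h3 l hl).2 with h | h
        · exact Or.inl h
        · right
          intro i hi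
          rw [hu (l + 1) (by omega), hu i (by omega)]
          exact h i hi
      · rcases h4 l hl with h | ⟨i, hi, h⟩
        · exact Or.inl h
        · refine Or.inr ⟨i, hi, ?_⟩
          rw [hu (l + 1) (by omega), hu i (by omega)]
          exact h
    · rintro ⟨v, h2, h3, h4⟩
      refine ⟨ext v, fun k hk => ?_, h2, h3, h4⟩
      rw [hext]
      simp only
      rw [dif_pos (by omega)]
      exact (v ⟨k, by omega⟩).2
  rw [heq]
  refine isClosed_iUnion_of_finite fun v => ?_
  refine IsClosed.and (st0_closed K R η p (ext v)) (IsClosed.and ?_ isClosed_const)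
  simp only [Set.ofPred_forall]
  exact isClosed_iInter fun l => isClosed_iInter fun _ =>
    IsClosed.and (stV_closed _ _ _ _ _ _ _ _) isClosed_const

end Pool.Agent.H73.SG
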