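import Pool.Agent.H73.SG.Lcl

/-!
# [H73 SG Ex] Clipped exponents
-/

set_option autoImplicit false

open Finset MeasureTheory

namespace Pool.Agent.H73.SG

open Pool.H70.SF Pool.Agent.H73.ES

/-- clipped exponent: `x = d ^ (a - e)`, `e ∈ [0, hi]` -/
noncomputable def ex (d : ℕ) (a hi x : ℝ) : ℝ :=
  if x = 0 then hi else max 0 (min hi (a - Real.logb d x))

theorem ex_nonneg {d : ℕ} {a hi x : ℝ} (hh : 0 ≤ hi) : 0 ≤ ex d a hi x := by
  unfold ex
  split_ifs
  · exact hh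
  · exact le_max_left _ _

theorem ex_le {d : ℕ} {a hi x : ℝ} (hh : 0 ≤ hi) : ex d a hi x ≤ hi := by
  unfold ex
  split_ifs
  · exact le_refl _
  · exact max_le hh (min_le_left _ _)

/-- upper bound of the number -/
theorem ex_up {d : ℕ} (hd : 2 ≤ d) {a hi x : ℝ} (hx : 0 ≤ x) :
    ex d a hi x = 0 ∨ x ≤ (d : ℝ) ^ (a - ex d a hi x) := by
  have hd1 : (1 : ℝ) < d := by exact_mod_cast (by omega : 1 < d)
  have hd0 : (0 : ℝ) < d := by linarith
  by_cases h0 : x = 0
  · right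
    rw [h0]
    exact Real.rpow_nonneg hd0.le _
  have hx' : 0 < x := lt_of_le_of_ne hx (Ne.symm h0)
  unfold ex
  rw [if_neg h0]
  rcases le_or_gt (min hi (a - Real.logb d x)) 0 with h1 | h1
  · left
    exact max_eq_left h1
  · right
    rw [max_eq_right h1.le]
    have h2 : Real.logb d x ≤ a - min hi (a - Real.logb d x) := by
      have := min_le_right hi (a - Real.logb d x)
      linarith
    exact (Real.logb_le_iff_le_rpow hd1 hx').1 h2

theorem ex_up' {d : ℕ} (hd : 2 ≤ d) {a hi x δ : ℝ} (hx : 0 ≤ x) (hδ : 0 ≤ δ)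
    (h : x ≤ (d : ℝ) ^ (a + δ)) : x ≤ (d : ℝ) ^ (a - ex d a hi x + δ) := by
  have hd1 : (1 : ℝ) ≤ d := by exact_mod_cast (by omega : 1 ≤ d)
  rcases ex_up hd (a := a) (hi := hi) hx with h1 | h1
  · rw [h1, sub_zero]
    exact h
  · exact h1.trans (Real.rpow_le_rpow_of_exponent_le hd1 (by linarith))

/-- lower bound of the number -/
theorem ex_lo {d : ℕ} (hd : 2 ≤ d) {a hi x : ℝ} (hx : 0 ≤ x) (h : ex d a hi x < hi) :
    (d : ℝ) ^ (a - ex d a hi x) ≤ x := by
  have hd1 : (1 : ℝ) < d := by exact_mod_cast (by omega : 1 < d)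
  by_cases h0 : x = 0
  · exfalso
    unfold ex at h
    rw [if_pos h0] at h
    exact lt_irrefl _ h
  have hx' : 0 < x := lt_of_le_of_ne hx (Ne.symm h0)
  have h3 : a - Real.logb d x ≤ ex d a hi x := by
    unfold ex at h ⊢
    rw [if_neg h0] at h ⊢
    rcases le_or_gt hi (a - Real.logb d x) with h4 | h4
    · rw [min_eq_left h4] at h
      exact absurd (le_max_right 0 hi) (not_le.2 h)
    · rw [min_eq_right h4.le]
      exact le_max_right _ _
  exact (Real.le_logb_iff_rpow_le hd1 hx').1 (by linarith)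

theorem ex_le_of {d : ℕ} (hd : 2 ≤ d) {a hi x y : ℝ} (hy : 0 ≤ y)
    (h : (d : ℝ) ^ (a - y) ≤ x) : ex d a hi x ≤ y := by
  have hd1 : (1 : ℝ) < d := by exact_mod_cast (by omega : 1 < d)
  have hx' : 0 < x := lt_of_lt_of_le (Real.rpow_pos_of_pos (by linarith) _) h
  unfold ex
  rw [if_neg hx'.ne']
  have h1 := (Real.le_logb_iff_rpow_le hd1 hx').2 h
  exact max_le hy ((min_le_right _ _).trans (by linarith))

theorem le_ex_of {d : ℕ} (hd : 2 ≤ d) {a hi x y : ℝ} (hx : 0 ≤ x) (hy : y ≤ hi)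
    (h : x ≤ (d : ℝ) ^ (a - y)) : y ≤ ex d a hi x := by
  have hd1 : (1 : ℝ) < d := by exact_mod_cast (by omega : 1 < d)
  unfold ex
  split_ifs with h0
  · exact hy
  · have hx' : 0 < x := lt_of_le_of_ne hx (Ne.symm h0)
    have h1 := (Real.logb_le_iff_le_rpow hd1 hx').2 h
    exact (le_min hy (by linarith)).trans (le_max_right _ _)

end Pool.Agent.H73.SG
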