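import Pool.Agent.H73.SG.Ex
import Pool.Agent.H84.SG.NDef

/-!
# [H73 SG Exs] The exponents of a critical orbit satisfy `Exs`
-/

set_option autoImplicit false

open Finset MeasureTheory

namespace Pool.Agent.H73.SG

open Pool.H70.SF Pool.Agent.H73.ES

/-- exponent of the second derivative at `c` -/
noncomputable def thX {d : ℕ} (X : CV d) (c : ℂ × ℂ) : ℝ :=
  ex d 1 1 (2 * ‖wd (FF X c) (jv X c 2)‖ / nn (FF X c))

/-- exponent of `|F(c)|` -/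
noncomputable def hcX {d : ℕ} (X : CV d) (c : ℂ × ℂ) : ℝ := ex d 0 1 (nn (FF X c))

/-- exponent of the derivative at `y_l` -/
noncomputable def beX {d : ℕ} (X : CV d) (c : ℂ × ℂ) (l : ℕ) : ℝ :=
  ex d (1 / 2) 1 (‖wd (FF X (ob X c l)) (jv X (ob X c l) 1)‖ / nn (FF X (ob X c l)))

/-- exponent of `|F(y_l)|` -/
noncomputable def hX {d : ℕ} (X : CV d) (c : ℂ × ℂ) (l : ℕ) : ℝ :=
  ex d 0 1 (nn (FF X (ob X c l)))

/-- exponent of the distance of two orbit points -/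
noncomputable def DX {d : ℕ} (X : CV d) (c : ℂ × ℂ) (a b : ℕ) : ℝ :=
  ex d 0 2 ‖wd (pt X c a) (pt X c b)‖

/-- the orbit points are unit vectors -/
theorem pt_unit {d : ℕ} (hd : 1 ≤ d) {R : ℝ} {X : CV d} (hG : GG R X) {c : ℂ × ℂ} (hc : IsU c) :
    ∀ k, IsU (pt X c k) := by
  have hD0 : (0 : ℝ) < d := by exact_mod_cast hd
  have hne : ∀ v, IsU v → FF X v ≠ 0 := by
    intro v hv hcon
    have h1 := (hG v hv).1
    rw [hcon] at h1
    have h2 : nn (0 : ℂ × ℂ) = 0 := by simp [nn, n2]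
    rw [h2] at h1
    have : (0 : ℝ) < (d : ℝ)⁻¹ := by positivity
    linarith
  intro k
  cases k with
  | zero => exact hc
  | succ l =>
    induction l with
    | zero => exact nx_unit (hne c hc)
    | succ l ih => exact nx_unit (hne _ ih)

private theorem pm {d : ℕ} (hd : 2 ≤ d) {a b : ℝ} (h : a ≤ b) : (d : ℝ) ^ a ≤ (d : ℝ) ^ b :=
  Real.rpow_le_rpow_of_exponent_le (by exact_mod_cast (by omega : 1 ≤ d)) h

private theorem sq_pow {d : ℕ} : Real.sqrt d = (d : ℝ) ^ (1 / 2 : ℝ) := Real.sqrt_eq_rpow _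

/-- a constant times a power -/
private theorem cst_pow {d : ℕ} (hd : 2 ≤ d) {κ C x y : ℝ} (hC : C ≤ (d : ℝ) ^ κ)
    (h : κ + x ≤ y) : C * (d : ℝ) ^ x ≤ (d : ℝ) ^ y := by
  have hd0 : (0 : ℝ) < d := by exact_mod_cast (by omega : 0 < d)
  calc C * (d : ℝ) ^ x ≤ (d : ℝ) ^ κ * (d : ℝ) ^ x :=
        mul_le_mul_of_nonneg_right hC (Real.rpow_nonneg hd0.le _)
    _ = (d : ℝ) ^ (κ + x) := by rw [← Real.rpow_add hd0]
    _ ≤ _ := pm hd h

/-- the images of two close points -/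
private theorem near_ff {d : ℕ} (hd : 2 ≤ d) {X : CV d} {R : ℝ} (hR1 : 1 ≤ R) (hG : GG R X)
    {y z : ℂ × ℂ} (hy : IsU y) (hz : IsU z) (h8 : 8 * Real.sqrt d * ‖wd y z‖ ≤ 1)
    (hs : 2 * 10 ^ 4 * R * Real.sqrt d * ‖wd y z‖ ≤ nn (FF X y)) :
    nn (FF X z) ≤ 2 * nn (FF X y) ∧ nn (FF X y) ≤ 2 * nn (FF X z) := by
  have hRR : ∀ u, IsU u → nn (FF X u) ≤ R := fun u hu => (hG u hu).2
  have l1 := ff_lip hd hRR hy hz h8
  have l2 := ff_lip hd hRR hz hy (by rwa [co_wd_comm z y])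
  rw [co_wd_comm z y] at l2
  have h0 : 0 ≤ R * Real.sqrt d * ‖wd y z‖ := by
    have : 0 ≤ R := by linarith
    positivity
  constructor
  · linarith
  · linarith

/-- displacement of two close points, both sides -/
private theorem lin_two {d : ℕ} (hd : 2 ≤ d) {X : CV d} {R : ℝ} (hR1 : 1 ≤ R) (hG : GG R X)
    {y z : ℂ × ℂ} (hy : IsU y) (hz : IsU z) (h8 : 8 * Real.sqrt d * ‖wd y z‖ ≤ 1)
    (hs : 2 * 10 ^ 4 * R * Real.sqrt d * ‖wd y z‖ ≤ nn (FF X y))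
    (hw : 32 * R * d * ‖wd y z‖ ≤ ‖wd (FF X y) (jv X y 1)‖ / nn (FF X y)) :
    ‖wd (nx X y) (nx X z)‖ ≤
        6 * (‖wd y z‖ * (‖wd (FF X y) (jv X y 1)‖ / nn (FF X y)) / nn (FF X y)) ∧
      ‖wd y z‖ * (‖wd (FF X y) (jv X y 1)‖ / nn (FF X y)) / nn (FF X y) ≤
        8 * ‖wd (nx X y) (nx X z)‖ := by
  have hdR : (0 : ℝ) < d := by exact_mod_cast (by omega : 0 < d)
  have hRR : ∀ u, IsU u → nn (FF X u) ≤ R := fun u hu => (hG u hu).2
  have hpos : ∀ u, IsU u → 0 < nn (FF X u) := fun u hu =>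
    lt_of_lt_of_le (inv_pos.2 hdR) (hG u hu).1
  have hny := hpos y hy
  have hnz := hpos z hz
  obtain ⟨m1, m2⟩ := near_ff hd hR1 hG hy hz h8 hs
  obtain ⟨l1, l2⟩ := lcl_lin hd hRR hy hz h8
  rw [co_nx_wd2 hny hnz]
  obtain ⟨b, hb⟩ : ∃ b, b = ‖wd y z‖ := ⟨_, rfl⟩
  obtain ⟨n, hn⟩ : ∃ n, n = nn (FF X y) := ⟨_, rfl⟩
  obtain ⟨m, hm⟩ : ∃ m, m = nn (FF X z) := ⟨_, rfl⟩
  obtain ⟨W, hW⟩ : ∃ W, W = ‖wd (FF X y) (jv X y 1)‖ := ⟨_, rfl⟩
  obtain ⟨V, hV⟩ : ∃ V, V = ‖wd (FF X y) (FF X z)‖ := ⟨_, rfl⟩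
  have hb0 : 0 ≤ b := by rw [hb]; exact norm_nonneg _
  rw [← hb, ← hn, ← hW, ← hV] at l1 l2
  rw [← hb, ← hn, ← hW] at hw
  rw [← hb, ← hn, ← hW, ← hV, ← hm]
  rw [← hn] at hny
  rw [← hm] at hnz
  rw [← hn, ← hm] at m1 m2
  rw [le_div_iff₀ hny] at hw
  have e : n * (16 * R * d * b ^ 2) ≤ b * W / 2 := by
    have := mul_le_mul_of_nonneg_right hw hb0
    linarith
  have u1 : V ≤ 3 * (b * W) := by
    have : 0 ≤ b * W := by
      rw [hW]
      positivity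
    linarith
  have u2 : b * W ≤ 4 * V := by linarith
  have hV0 : 0 ≤ V := by rw [hV]; exact norm_nonneg _
  constructor
  · rw [div_le_iff₀ (by positivity)]
    have e1 : 6 * (b * (W / n) / n) * (n * m) = 6 * (b * W) * (m / n) := by
      field_simp
    rw [e1]
    have e2 : 1 / 2 ≤ m / n := by
      rw [le_div_iff₀ hny]
      linarith
    have h0 : 0 ≤ b * W := by linarith [norm_nonneg (wd (FF X y) (FF X z)), u1]
    have := mul_le_mul_of_nonneg_left e2 (by positivity : 0 ≤ 6 * (b * W))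
    linarith
  · have e0 : 8 * (V / (n * m)) = 8 * V / (n * m) := by ring
    rw [e0, le_div_iff₀ (by positivity)]
    have e1 : b * (W / n) / n * (n * m) = b * W * (m / n) := by
      field_simp
    rw [e1]
    have e2 : m / n ≤ 2 := by
      rw [div_le_iff₀ hny]
      linarith
    have h0 : 0 ≤ b * W := by linarith
    have := mul_le_mul_of_nonneg_left e2 h0
    linarith

/-- near a critical point, all estimates -/
private theorem c_two {d : ℕ} (hd : 2 ≤ d) {X : CV d} {R : ℝ} (hR1 : 1 ≤ R) (hG : GG R X)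
    {c z : ℂ × ℂ} (hc : IsU c) (hz : IsU z) (hJ : JJ X c = 0)
    (h8 : 8 * Real.sqrt d * ‖wd c z‖ ≤ 1)
    (hs : 2 * 10 ^ 4 * R * Real.sqrt d * ‖wd c z‖ ≤ nn (FF X c))
    (hw : 2000 * R * Real.sqrt d ^ 3 * ‖wd c z‖ ≤ 2 * ‖wd (FF X c) (jv X c 2)‖ / nn (FF X c)) :
    ‖wd (nx X c) (nx X z)‖ ≤
        5 * (‖wd c z‖ ^ 2 * (2 * ‖wd (FF X c) (jv X c 2)‖ / nn (FF X c)) / nn (FF X c)) ∧
      ‖wd c z‖ ^ 2 * (2 * ‖wd (FF X c) (jv X c 2)‖ / nn (FF X c)) / nn (FF X c) ≤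
        16 * ‖wd (nx X c) (nx X z)‖ ∧
      ‖wd c z‖ * (2 * ‖wd (FF X c) (jv X c 2)‖ / nn (FF X c)) ≤
        8 * (‖wd (FF X z) (jv X z 1)‖ / nn (FF X z)) := by
  have hdR : (0 : ℝ) < d := by exact_mod_cast (by omega : 0 < d)
  have hRR : ∀ u, IsU u → nn (FF X u) ≤ R := fun u hu => (hG u hu).2
  have hpos : ∀ u, IsU u → 0 < nn (FF X u) := fun u hu =>
    lt_of_lt_of_le (inv_pos.2 hdR) (hG u hu).1
  have hny := hpos c hc
  have hnz := hpos z hz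
  have hR0 : 0 < R := by linarith
  obtain ⟨m1, m2⟩ := near_ff hd hR1 hG hc hz h8 hs
  obtain ⟨l1, l2⟩ := lcl_c2 hd hRR hc hz hJ h8
  have hbs : 0 ≤ R * Real.sqrt d * ‖wd c z‖ := by positivity
  have hw' : 1000 * R * Real.sqrt d ^ 3 * ‖wd c z‖ * nn (FF X c) ≤
      ‖wd (FF X c) (jv X c 2)‖ := by
    rw [le_div_iff₀ hny] at hw
    linarith
  have l3 := lcl_c1 hd hRR hc hz hJ h8 (by linarith) hw'
  rw [co_nx_wd2 hny hnz]
  obtain ⟨b, hb⟩ : ∃ b, b = ‖wd c z‖ := ⟨_, rfl⟩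
  obtain ⟨n, hn⟩ : ∃ n, n = nn (FF X c) := ⟨_, rfl⟩
  obtain ⟨m, hm⟩ : ∃ m, m = nn (FF X z) := ⟨_, rfl⟩
  obtain ⟨W, hW⟩ : ∃ W, W = ‖wd (FF X c) (jv X c 2)‖ := ⟨_, rfl⟩
  obtain ⟨V, hV⟩ : ∃ V, V = ‖wd (FF X c) (FF X z)‖ := ⟨_, rfl⟩
  obtain ⟨U, hU⟩ : ∃ U, U = ‖wd (FF X z) (jv X z 1)‖ := ⟨_, rfl⟩
  have hb0 : 0 ≤ b := by rw [hb]; exact norm_nonneg _
  have hW0 : 0 ≤ W := by rw [hW]; exact norm_nonneg _
  rw [← hb, ← hn, ← hW, ← hV] at l1 l2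
  rw [← hb, ← hW, ← hU] at l3
  rw [← hb, ← hn, ← hW] at hw'
  rw [← hb, ← hn, ← hW, ← hV, ← hU, ← hm]
  rw [← hn] at hny
  rw [← hm] at hnz
  rw [← hn, ← hm] at m1 m2
  have e : n * (32 * R * Real.sqrt d ^ 3 * b ^ 3) ≤ b ^ 2 * W / 10 := by
    have h1 := mul_le_mul_of_nonneg_right hw' (by positivity : 0 ≤ b ^ 2)
    have h2 : 0 ≤ b ^ 2 * W := by positivity
    have h3 : n * (32 * R * Real.sqrt d ^ 3 * b ^ 3) =
        32 / 1000 * (1000 * R * Real.sqrt d ^ 3 * b * n * b ^ 2) := by ring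
    rw [h3]
    linarith
  have hbW : 0 ≤ b ^ 2 * W := by positivity
  have hbW1 : 0 ≤ b * W := by positivity
  have u1 : V ≤ 41 / 10 * (b ^ 2 * W) := by linarith
  have u2 : b ^ 2 * W ≤ 20 / 9 * V := by linarith
  refine ⟨?_, ?_, ?_⟩
  · rw [div_le_iff₀ (by positivity)]
    have e1 : 5 * (b ^ 2 * (2 * W / n) / n) * (n * m) = 10 * (b ^ 2 * W) * (m / n) := by
      field_simp
      ring
    rw [e1]
    have e2 : 1 / 2 ≤ m / n := by
      rw [le_div_iff₀ hny]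
      linarith
    have := mul_le_mul_of_nonneg_left e2 (by positivity : 0 ≤ 10 * (b ^ 2 * W))
    linarith
  · have e0 : 16 * (V / (n * m)) = 16 * V / (n * m) := by ring
    rw [e0, le_div_iff₀ (by positivity)]
    have e1 : b ^ 2 * (2 * W / n) / n * (n * m) = 2 * (b ^ 2 * W) * (m / n) := by
      field_simp
    rw [e1]
    have e2 : m / n ≤ 2 := by
      rw [div_le_iff₀ hny]
      linarith
    have := mul_le_mul_of_nonneg_left e2 (by positivity : 0 ≤ 2 * (b ^ 2 * W))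
    linarith
  · have e0 : 8 * (U / m) = 8 * U / m := by ring
    have e00 : b * (2 * W / n) = b * (2 * W) / n := by ring
    rw [e0, e00, div_le_div_iff₀ hny hnz]
    have e1 : b * (2 * W) * m ≤ (4 * U) * (2 * n) :=
      mul_le_mul (by linarith) m1 hnz.le (by linarith)
    linarith

private theorem frac_up {d : ℕ} (hd : 2 ≤ d) {s w n a b e : ℝ} (hs0 : 0 ≤ s)
    (hs : s ≤ (d : ℝ) ^ a) (hw : w ≤ (d : ℝ) ^ b) (hn : (d : ℝ) ^ e ≤ n) :
    s * w / n ≤ (d : ℝ) ^ (a + b - e) := by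
  have hd0 : (0 : ℝ) < d := by exact_mod_cast (by omega : 0 < d)
  have he : 0 < (d : ℝ) ^ e := Real.rpow_pos_of_pos hd0 _
  have hb : 0 < (d : ℝ) ^ b := Real.rpow_pos_of_pos hd0 _
  rw [div_le_iff₀ (lt_of_lt_of_le he hn)]
  calc s * w ≤ s * (d : ℝ) ^ b := mul_le_mul_of_nonneg_left hw hs0
    _ ≤ (d : ℝ) ^ a * (d : ℝ) ^ b := mul_le_mul_of_nonneg_right hs hb.le
    _ = (d : ℝ) ^ (a + b - e) * (d : ℝ) ^ e := by
        rw [← Real.rpow_add hd0, ← Real.rpow_add hd0]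
        congr 1
        ring
    _ ≤ _ := mul_le_mul_of_nonneg_left hn (Real.rpow_nonneg hd0.le _)

private theorem frac_lo {d : ℕ} (hd : 2 ≤ d) {s w n a b e : ℝ} (hn0 : 0 < n)
    (hs : (d : ℝ) ^ a ≤ s) (hw : (d : ℝ) ^ b ≤ w) (hn : n ≤ (d : ℝ) ^ e) :
    (d : ℝ) ^ (a + b - e) ≤ s * w / n := by
  have hd0 : (0 : ℝ) < d := by exact_mod_cast (by omega : 0 < d)
  have ha : 0 < (d : ℝ) ^ a := Real.rpow_pos_of_pos hd0 _
  have hb : 0 < (d : ℝ) ^ b := Real.rpow_pos_of_pos hd0 _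
  rw [le_div_iff₀ hn0]
  calc (d : ℝ) ^ (a + b - e) * n ≤ (d : ℝ) ^ (a + b - e) * (d : ℝ) ^ e :=
        mul_le_mul_of_nonneg_left hn (Real.rpow_nonneg hd0.le _)
    _ = (d : ℝ) ^ a * (d : ℝ) ^ b := by
        rw [← Real.rpow_add hd0, ← Real.rpow_add hd0]
        congr 1
        ring
    _ ≤ _ := mul_le_mul hs hw hb.le (ha.le.trans hs)

private theorem lo_cst {d : ℕ} (hd : 2 ≤ d) {κ C x V : ℝ} (hC0 : 0 < C) (hC : C ≤ (d : ℝ) ^ κ)
    (h : (d : ℝ) ^ x ≤ C * V) : (d : ℝ) ^ (x - κ) ≤ V := by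
  have h1 := cst_pow hd hC (x := x - κ) (y := x) (by linarith)
  exact le_of_mul_le_mul_left (h1.trans h) hC0

theorem exs_of {n : ℕ} {d : ℕ} (hd : 2 ≤ d) {κ : ℝ} (hκ : 0 < κ) (hκ1 : κ ≤ 1 / 4) {R : ℝ}
    (hR1 : 1 ≤ R) (hRκ : R ≤ (d : ℝ) ^ (κ / 8)) (hC : 10 ^ 6 ≤ (d : ℝ) ^ (κ / 8)) {X : CV d}
    (hG : GG R X) {c : ℂ × ℂ} (hc : IsU c) (hJ : JJ X c = 0) :
    Pool.Agent.H84.SG.Exs n κ (thX X c) (hcX X c) (beX X c) (hX X c) (DX X c) := by
  have hd1 : 1 ≤ d := by omega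
  have hdR : (0 : ℝ) < d := by exact_mod_cast hd1
  have hdR1 : (1 : ℝ) ≤ d := by exact_mod_cast hd1
  have hR0 : 0 < R := by linarith
  have hpt := pt_unit hd1 hG hc
  have hRR : ∀ u, IsU u → nn (FF X u) ≤ R := fun u hu => (hG u hu).2
  have hpos : ∀ u, IsU u → 0 < nn (FF X u) := fun u hu =>
    lt_of_lt_of_le (inv_pos.2 hdR) (hG u hu).1
  have hw0 : ∀ a b, 0 ≤ ‖wd (pt X c a) (pt X c b)‖ := fun a b => norm_nonneg _
  -- constants
  have hCR : 10 ^ 6 * R ≤ (d : ℝ) ^ (κ / 4) := by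
    calc 10 ^ 6 * R ≤ (d : ℝ) ^ (κ / 8) * (d : ℝ) ^ (κ / 8) :=
          mul_le_mul hC hRκ hR0.le (Real.rpow_nonneg hdR.le _)
      _ = (d : ℝ) ^ (κ / 4) := by
          rw [← Real.rpow_add hdR]
          congr 1
          ring
  have hs : Real.sqrt d = (d : ℝ) ^ (1 / 2 : ℝ) := sq_pow
  have hdd : (d : ℝ) = (d : ℝ) ^ (1 : ℝ) := (Real.rpow_one _).symm
  -- the norm of `F`, upper exponent
  have hnup : ∀ u, IsU u → nn (FF X u) ≤ (d : ℝ) ^ (0 + κ / 8) := by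
    intro u hu
    rw [zero_add]
    exact (hRR u hu).trans hRκ
  -- the derivative, upper exponent
  have hwup : ∀ u, IsU u → ‖wd (FF X u) (jv X u 1)‖ / nn (FF X u) ≤
      (d : ℝ) ^ (1 / 2 + κ / 4) := by
    intro u hu
    rw [div_le_iff₀ (hpos u hu), mul_comm]
    refine (wd_le _ _).trans (mul_le_mul_of_nonneg_left ?_ (hpos u hu).le)
    have h1 := cau_jet hd1 hRR hu 1
    rw [pow_one] at h1
    refine h1.trans ?_
    rw [hs]
    exact cst_pow hd (by linarith : 2 * R ≤ (d : ℝ) ^ (κ / 4)) (by linarith)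
  -- two close points
  have key : ∀ y z : ℂ × ℂ, IsU y → IsU z → ∀ D : ℝ, 1 / 2 + κ ≤ D →
      ‖wd y z‖ ≤ (d : ℝ) ^ (0 - D) → ∀ h : ℝ, h + κ ≤ D - 1 / 2 → (d : ℝ) ^ (0 - h) ≤ nn (FF X y) →
      8 * Real.sqrt d * ‖wd y z‖ ≤ 1 ∧ 2 * 10 ^ 4 * R * Real.sqrt d * ‖wd y z‖ ≤ nn (FF X y) := by
    intro y z hy hz D hD hsD h hh hn
    have h1 : Real.sqrt d * ‖wd y z‖ ≤ (d : ℝ) ^ (1 / 2 - D) := by
      rw [hs]
      calc (d : ℝ) ^ (1 / 2 : ℝ) * ‖wd y z‖ ≤ (d : ℝ) ^ (1 / 2 : ℝ) * (d : ℝ) ^ (0 - D) :=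
            mul_le_mul_of_nonneg_left hsD (Real.rpow_nonneg hdR.le _)
        _ = _ := by
            rw [← Real.rpow_add hdR]
            congr 1
            ring
    have h0 : 0 ≤ Real.sqrt d * ‖wd y z‖ := by positivity
    constructor
    · calc 8 * Real.sqrt d * ‖wd y z‖ = 8 * (Real.sqrt d * ‖wd y z‖) := by ring
        _ ≤ 8 * (d : ℝ) ^ (1 / 2 - D) := by linarith
        _ ≤ (d : ℝ) ^ (0 : ℝ) := cst_pow hd (by linarith : (8 : ℝ) ≤ (d : ℝ) ^ (κ / 8))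
            (by linarith)
        _ = 1 := Real.rpow_zero _
    · calc 2 * 10 ^ 4 * R * Real.sqrt d * ‖wd y z‖ = (2 * 10 ^ 4 * R) * (Real.sqrt d * ‖wd y z‖) := by
            ring
        _ ≤ (2 * 10 ^ 4 * R) * (d : ℝ) ^ (1 / 2 - D) :=
            mul_le_mul_of_nonneg_left h1 (by positivity)
        _ ≤ (d : ℝ) ^ (0 - h) := cst_pow hd (by linarith : 2 * 10 ^ 4 * R ≤ (d : ℝ) ^ (κ / 4))
            (by linarith)
        _ ≤ _ := hn
  -- data near an orbit point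
  have lg : ∀ i l : ℕ, DX X c (l + 1) (i + 1) ≤ 1 →
      beX X c i + κ < DX X c (l + 1) (i + 1) - 1 / 2 →
      hX X c i + κ < DX X c (l + 1) (i + 1) - 1 / 2 →
      ‖wd (nx X (pt X c (i + 1))) (nx X (pt X c (l + 1)))‖ ≤
        6 * (‖wd (pt X c (i + 1)) (pt X c (l + 1))‖ *
          (‖wd (FF X (pt X c (i + 1))) (jv X (pt X c (i + 1)) 1)‖ / nn (FF X (pt X c (i + 1)))) /
            nn (FF X (pt X c (i + 1)))) ∧
      ‖wd (pt X c (i + 1)) (pt X c (l + 1))‖ *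
          (‖wd (FF X (pt X c (i + 1))) (jv X (pt X c (i + 1)) 1)‖ / nn (FF X (pt X c (i + 1)))) /
            nn (FF X (pt X c (i + 1))) ≤
        8 * ‖wd (nx X (pt X c (i + 1))) (nx X (pt X c (l + 1)))‖ ∧
      ‖wd (pt X c (i + 1)) (pt X c (l + 1))‖ ≤ (d : ℝ) ^ (0 - DX X c (l + 1) (i + 1)) ∧
      (d : ℝ) ^ (0 - DX X c (l + 1) (i + 1)) ≤ ‖wd (pt X c (i + 1)) (pt X c (l + 1))‖ ∧
      (d : ℝ) ^ (0 - hX X c i) ≤ nn (FF X (pt X c (i + 1))) ∧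
      nn (FF X (pt X c (i + 1))) ≤ (d : ℝ) ^ (0 - hX X c i + κ / 8) ∧
      (d : ℝ) ^ (1 / 2 - beX X c i) ≤
        ‖wd (FF X (pt X c (i + 1))) (jv X (pt X c (i + 1)) 1)‖ / nn (FF X (pt X c (i + 1))) ∧
      ‖wd (FF X (pt X c (i + 1))) (jv X (pt X c (i + 1)) 1)‖ / nn (FF X (pt X c (i + 1))) ≤
        (d : ℝ) ^ (1 / 2 - beX X c i + κ / 4) := by
    intro i l hD1 hbe hh
    have hy := hpt (i + 1)
    have hz := hpt (l + 1)
    have hb0 : 0 ≤ beX X c i := ex_nonneg zero_le_one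
    have hh0 : 0 ≤ hX X c i := ex_nonneg zero_le_one
    have hcm : ‖wd (pt X c (i + 1)) (pt X c (l + 1))‖ = ‖wd (pt X c (l + 1)) (pt X c (i + 1))‖ :=
      co_wd_comm _ _
    have hs_up : ‖wd (pt X c (i + 1)) (pt X c (l + 1))‖ ≤
        (d : ℝ) ^ (0 - DX X c (l + 1) (i + 1)) := by
      rw [hcm]
      rcases ex_up hd (a := 0) (hi := 2) (hw0 (l + 1) (i + 1)) with h | h
      · exfalso
        unfold DX at hbe
        linarith
      · exact h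
    have hs_lo : (d : ℝ) ^ (0 - DX X c (l + 1) (i + 1)) ≤
        ‖wd (pt X c (i + 1)) (pt X c (l + 1))‖ := by
      rw [hcm]
      exact ex_lo hd (hw0 _ _) (by unfold DX at hD1; linarith)
    have hn_lo : (d : ℝ) ^ (0 - hX X c i) ≤ nn (FF X (pt X c (i + 1))) :=
      ex_lo hd (hpos _ hy).le (by unfold hX at hh; linarith)
    have hn_up : nn (FF X (pt X c (i + 1))) ≤ (d : ℝ) ^ (0 - hX X c i + κ / 8) :=
      ex_up' hd (hpos _ hy).le (by linarith) (hnup _ hy)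
    have hwn : 0 ≤ ‖wd (FF X (pt X c (i + 1))) (jv X (pt X c (i + 1)) 1)‖ /
        nn (FF X (pt X c (i + 1))) := div_nonneg (norm_nonneg _) (hpos _ hy).le
    have hw_lo : (d : ℝ) ^ (1 / 2 - beX X c i) ≤
        ‖wd (FF X (pt X c (i + 1))) (jv X (pt X c (i + 1)) 1)‖ / nn (FF X (pt X c (i + 1))) :=
      ex_lo hd hwn (by unfold beX at hbe; linarith)
    have hw_up : ‖wd (FF X (pt X c (i + 1))) (jv X (pt X c (i + 1)) 1)‖ /
        nn (FF X (pt X c (i + 1))) ≤ (d : ℝ) ^ (1 / 2 - beX X c i + κ / 4) :=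
      ex_up' hd hwn (by linarith) (hwup _ hy)
    obtain ⟨h8, hs'⟩ := key _ _ hy hz _ (by linarith) hs_up _ hh.le hn_lo
    have hw' : 32 * R * d * ‖wd (pt X c (i + 1)) (pt X c (l + 1))‖ ≤
        ‖wd (FF X (pt X c (i + 1))) (jv X (pt X c (i + 1)) 1)‖ /
          nn (FF X (pt X c (i + 1))) := by
      refine le_trans ?_ hw_lo
      calc 32 * R * d * ‖wd (pt X c (i + 1)) (pt X c (l + 1))‖
          ≤ 32 * R * (d : ℝ) ^ (1 : ℝ) * (d : ℝ) ^ (0 - DX X c (l + 1) (i + 1)) := by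
            rw [Real.rpow_one]
            exact mul_le_mul_of_nonneg_left hs_up (by positivity)
        _ = 32 * R * (d : ℝ) ^ (1 + (0 - DX X c (l + 1) (i + 1))) := by
            rw [mul_assoc, ← Real.rpow_add hdR]
        _ ≤ _ := cst_pow hd (by linarith : 32 * R ≤ (d : ℝ) ^ (κ / 4)) (by linarith)
    obtain ⟨L1, L2⟩ := lin_two hd hR1 hG hy hz h8 hs' hw'
    exact ⟨L1, L2, hs_up, hs_lo, hn_lo, hn_up, hw_lo, hw_up⟩
  -- data near the critical point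
  have lc : ∀ l : ℕ, DX X c (l + 1) 0 ≤ 1 →
      thX X c + κ < DX X c (l + 1) 0 - 1 / 2 → hcX X c + κ < DX X c (l + 1) 0 - 1 / 2 →
      ‖wd (nx X c) (nx X (pt X c (l + 1)))‖ ≤
        5 * (‖wd c (pt X c (l + 1))‖ ^ 2 * (2 * ‖wd (FF X c) (jv X c 2)‖ / nn (FF X c)) /
          nn (FF X c)) ∧
      ‖wd c (pt X c (l + 1))‖ ^ 2 * (2 * ‖wd (FF X c) (jv X c 2)‖ / nn (FF X c)) / nn (FF X c) ≤
        16 * ‖wd (nx X c) (nx X (pt X c (l + 1)))‖ ∧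
      ‖wd c (pt X c (l + 1))‖ * (2 * ‖wd (FF X c) (jv X c 2)‖ / nn (FF X c)) ≤
        8 * (‖wd (FF X (ob X c l)) (jv X (ob X c l) 1)‖ / nn (FF X (ob X c l))) ∧
      ‖wd c (pt X c (l + 1))‖ ≤ (d : ℝ) ^ (0 - DX X c (l + 1) 0) ∧
      (d : ℝ) ^ (0 - DX X c (l + 1) 0) ≤ ‖wd c (pt X c (l + 1))‖ ∧
      (d : ℝ) ^ (0 - hcX X c) ≤ nn (FF X c) ∧
      nn (FF X c) ≤ (d : ℝ) ^ (0 - hcX X c + κ / 8) ∧
      (d : ℝ) ^ (1 - thX X c) ≤ 2 * ‖wd (FF X c) (jv X c 2)‖ / nn (FF X c) ∧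
      2 * ‖wd (FF X c) (jv X c 2)‖ / nn (FF X c) ≤ (d : ℝ) ^ (1 - thX X c + κ / 4) := by
    intro l hD1 hth hhc
    have hz := hpt (l + 1)
    have ht0 : 0 ≤ thX X c := ex_nonneg zero_le_one
    have hh0 : 0 ≤ hcX X c := ex_nonneg zero_le_one
    have hcm : ‖wd c (pt X c (l + 1))‖ = ‖wd (pt X c (l + 1)) (pt X c 0)‖ :=
      co_wd_comm _ _
    have hs_up : ‖wd c (pt X c (l + 1))‖ ≤ (d : ℝ) ^ (0 - DX X c (l + 1) 0) := by
      rw [hcm]
      rcases ex_up hd (a := 0) (hi := 2) (hw0 (l + 1) 0) with h | h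
      · exfalso
        unfold DX at hth
        linarith
      · exact h
    have hs_lo : (d : ℝ) ^ (0 - DX X c (l + 1) 0) ≤ ‖wd c (pt X c (l + 1))‖ := by
      rw [hcm]
      exact ex_lo hd (hw0 _ _) (by unfold DX at hD1; linarith)
    have hn_lo : (d : ℝ) ^ (0 - hcX X c) ≤ nn (FF X c) :=
      ex_lo hd (hpos _ hc).le (by unfold hcX at hhc; linarith)
    have hn_up : nn (FF X c) ≤ (d : ℝ) ^ (0 - hcX X c + κ / 8) :=
      ex_up' hd (hpos _ hc).le (by linarith) (hnup _ hc)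
    have hwn : 0 ≤ 2 * ‖wd (FF X c) (jv X c 2)‖ / nn (FF X c) :=
      div_nonneg (by positivity) (hpos _ hc).le
    have hw_lo : (d : ℝ) ^ (1 - thX X c) ≤ 2 * ‖wd (FF X c) (jv X c 2)‖ / nn (FF X c) :=
      ex_lo hd hwn (by unfold thX at hth; linarith)
    have hw_up : 2 * ‖wd (FF X c) (jv X c 2)‖ / nn (FF X c) ≤
        (d : ℝ) ^ (1 - thX X c + κ / 4) := by
      refine ex_up' hd hwn (by linarith) ?_
      rw [div_le_iff₀ (hpos c hc)]
      have h1 := cau_jet hd1 hRR hc 2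
      rw [Real.sq_sqrt hdR.le] at h1
      have h2 := (wd_le (FF X c) (jv X c 2)).trans
        (mul_le_mul_of_nonneg_left h1 (hpos c hc).le)
      have h3 : 4 * R * (d : ℝ) ≤ (d : ℝ) ^ (1 + κ / 4) := by
        have := cst_pow hd (by linarith : 4 * R ≤ (d : ℝ) ^ (κ / 4)) (x := 1)
          (y := 1 + κ / 4) (by linarith)
        rwa [Real.rpow_one] at this
      have h4 := mul_le_mul_of_nonneg_right h3 (hpos c hc).le
      linarith
    obtain ⟨h8, hs'⟩ := key _ _ hc hz _ (by linarith) hs_up _ hhc.le hn_lo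
    have hw' : 2000 * R * Real.sqrt d ^ 3 * ‖wd c (pt X c (l + 1))‖ ≤
        2 * ‖wd (FF X c) (jv X c 2)‖ / nn (FF X c) := by
      refine le_trans ?_ hw_lo
      have e1 : Real.sqrt d ^ 3 = (d : ℝ) ^ (3 / 2 : ℝ) := by
        rw [hs, ← Real.rpow_natCast, ← Real.rpow_mul hdR.le]
        congr 1
        norm_num
      calc 2000 * R * Real.sqrt d ^ 3 * ‖wd c (pt X c (l + 1))‖
          ≤ 2000 * R * (d : ℝ) ^ (3 / 2 : ℝ) * (d : ℝ) ^ (0 - DX X c (l + 1) 0) := by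
            rw [e1]
            exact mul_le_mul_of_nonneg_left hs_up (by positivity)
        _ = 2000 * R * (d : ℝ) ^ (3 / 2 + (0 - DX X c (l + 1) 0)) := by
            rw [mul_assoc, ← Real.rpow_add hdR]
        _ ≤ _ := cst_pow hd (by linarith : 2000 * R ≤ (d : ℝ) ^ (κ / 4)) (by linarith)
    obtain ⟨L1, L2, L3⟩ := c_two hd hR1 hG hc hz hJ h8 hs' hw'
    exact ⟨L1, L2, L3, hs_up, hs_lo, hn_lo, hn_up, hw_lo, hw_up⟩
  refine ⟨ex_nonneg zero_le_one, ex_nonneg zero_le_one, fun l => ex_nonneg zero_le_one,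
    fun l => ex_le zero_le_one, fun l => ex_nonneg zero_le_one, fun a b => ex_nonneg zero_le_two,
    fun a b => ex_le zero_le_two, ?_, ?_, ?_, ?_, ?_, ?_, ?_⟩
  · intro a b
    unfold DX
    rw [co_wd_comm]
  · intro a b e _ _ _ _
    obtain ⟨m, hm⟩ : ∃ m, m = min (DX X c a b) (DX X c b e) := ⟨_, rfl⟩
    rw [← hm]
    have h0 : 0 ≤ DX X c a e := ex_nonneg zero_le_two
    rcases le_or_gt m κ with h1 | h1
    · linarith
    have ha : m ≤ DX X c a b := by rw [hm]; exact min_le_left _ _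
    have hb : m ≤ DX X c b e := by rw [hm]; exact min_le_right _ _
    have h2 : ‖wd (pt X c a) (pt X c b)‖ ≤ (d : ℝ) ^ (0 - m) := by
      rcases ex_up hd (a := 0) (hi := 2) (hw0 a b) with h | h
      · exfalso
        unfold DX at ha
        linarith
      · exact h.trans (pm hd (by unfold DX at ha; linarith))
    have h3 : ‖wd (pt X c b) (pt X c e)‖ ≤ (d : ℝ) ^ (0 - m) := by
      rcases ex_up hd (a := 0) (hi := 2) (hw0 b e) with h | h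
      · exfalso
        unfold DX at hb
        linarith
      · exact h.trans (pm hd (by unfold DX at hb; linarith))
    have h4 := wd_tri (hpt a) (hpt b) (hpt e)
    have h5 : m - κ ≤ DX X c a e := by
      have hm2 : DX X c a b ≤ 2 := ex_le zero_le_two
      refine le_ex_of hd (hw0 a e) (by linarith) ?_
      calc ‖wd (pt X c a) (pt X c e)‖ ≤ 2 * (d : ℝ) ^ (0 - m) := by linarith
        _ ≤ (d : ℝ) ^ (0 - (m - κ)) := cst_pow hd (by linarith : (2 : ℝ) ≤ (d : ℝ) ^ (κ / 8))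
            (by linarith)
    linarith
  · -- lg0
    intro i l hil hl hD1 hbe hh
    obtain ⟨L1, L2, hs_up, hs_lo, hn_lo, hn_up, hw_lo, hw_up⟩ := lg i l hD1 hbe hh
    have hD2 : DX X c (l + 2) (i + 2) =
        ex d 0 2 ‖wd (nx X (pt X c (i + 1))) (nx X (pt X c (l + 1)))‖ := by
      unfold DX
      rw [co_wd_comm]
      rfl
    rw [hD2]
    have hb1 : beX X c i ≤ 1 := ex_le zero_le_one
    refine le_ex_of hd (norm_nonneg _) ?_ (L1.trans ?_)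
    · have : 0 ≤ hX X c i := ex_nonneg zero_le_one
      linarith
    · have h1 := frac_up hd (norm_nonneg _) hs_up hw_up hn_lo
      calc _ ≤ 6 * (d : ℝ) ^ (0 - DX X c (l + 1) (i + 1) + (1 / 2 - beX X c i + κ / 4) -
            (0 - hX X c i)) := mul_le_mul_of_nonneg_left h1 (by norm_num)
        _ ≤ _ := cst_pow hd (by linarith : (6 : ℝ) ≤ (d : ℝ) ^ (κ / 8)) (by linarith)
  · -- lg1
    intro i l hil hl hD1 hbe hh
    obtain ⟨L1, L2, hs_up, hs_lo, hn_lo, hn_up, hw_lo, hw_up⟩ := lg i l hD1 hbe hh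
    have hD2 : DX X c (l + 2) (i + 2) =
        ex d 0 2 ‖wd (nx X (pt X c (i + 1))) (nx X (pt X c (l + 1)))‖ := by
      unfold DX
      rw [co_wd_comm]
      rfl
    rw [hD2]
    have hb0 : 0 ≤ beX X c i := ex_nonneg zero_le_one
    refine ex_le_of hd (by linarith) ?_
    have h1 := frac_lo hd (hpos _ (hpt (i + 1))) hs_lo hw_lo hn_up
    have h2 := lo_cst hd (by norm_num : (0 : ℝ) < 8) (by linarith : (8 : ℝ) ≤ (d : ℝ) ^ (κ / 8))
      (h1.trans L2)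
    refine le_trans (pm hd ?_) h2
    linarith
  · -- lc1
    intro l hl hD1 hth hhc
    obtain ⟨L1, L2, L3, hs_up, hs_lo, hn_lo, hn_up, hw_lo, hw_up⟩ := lc l hD1 hth hhc
    have ht0 : 0 ≤ thX X c := ex_nonneg zero_le_one
    refine ex_le_of hd (by linarith) ?_
    have h1 : (d : ℝ) ^ (0 - DX X c (l + 1) 0 + (1 - thX X c)) ≤
        ‖wd c (pt X c (l + 1))‖ * (2 * ‖wd (FF X c) (jv X c 2)‖ / nn (FF X c)) := by
      rw [Real.rpow_add hdR]
      exact mul_le_mul hs_lo hw_lo (Real.rpow_nonneg hdR.le _)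
        ((Real.rpow_nonneg hdR.le _).trans hs_lo)
    have h2 := lo_cst hd (by norm_num : (0 : ℝ) < 8) (by linarith : (8 : ℝ) ≤ (d : ℝ) ^ (κ / 8))
      (h1.trans L3)
    refine le_trans (pm hd ?_) h2
    linarith
  · -- lc2
    intro l hl hD1 hth hhc
    obtain ⟨L1, L2, L3, hs_up, hs_lo, hn_lo, hn_up, hw_lo, hw_up⟩ := lc l hD1 hth hhc
    have hD2 : DX X c (l + 2) 1 = ex d 0 2 ‖wd (nx X c) (nx X (pt X c (l + 1)))‖ := by
      unfold DX
      rw [co_wd_comm]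
      rfl
    rw [hD2]
    have hh0 : 0 ≤ hcX X c := ex_nonneg zero_le_one
    refine le_ex_of hd (norm_nonneg _) (by linarith) (L1.trans ?_)
    have hs2 : ‖wd c (pt X c (l + 1))‖ ^ 2 ≤ (d : ℝ) ^ (2 * (0 - DX X c (l + 1) 0)) := by
      rw [mul_comm 2, Real.rpow_mul hdR.le, Real.rpow_two]
      exact pow_le_pow_left₀ (norm_nonneg _) hs_up 2
    have h1 := frac_up hd (sq_nonneg _) hs2 hw_up hn_lo
    calc _ ≤ 5 * (d : ℝ) ^ (2 * (0 - DX X c (l + 1) 0) + (1 - thX X c + κ / 4) -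
          (0 - hcX X c)) := mul_le_mul_of_nonneg_left h1 (by norm_num)
      _ ≤ _ := cst_pow hd (by linarith : (5 : ℝ) ≤ (d : ℝ) ^ (κ / 8)) (by linarith)
  · -- lc3
    intro l hl hD1 hth hhc
    obtain ⟨L1, L2, L3, hs_up, hs_lo, hn_lo, hn_up, hw_lo, hw_up⟩ := lc l hD1 hth hhc
    have hD2 : DX X c (l + 2) 1 = ex d 0 2 ‖wd (nx X c) (nx X (pt X c (l + 1)))‖ := by
      unfold DX
      rw [co_wd_comm]
      rfl
    rw [hD2]
    have ht0 : 0 ≤ thX X c := ex_nonneg zero_le_one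
    refine ex_le_of hd (by linarith) ?_
    have hs2 : (d : ℝ) ^ (2 * (0 - DX X c (l + 1) 0)) ≤ ‖wd c (pt X c (l + 1))‖ ^ 2 := by
      rw [mul_comm 2, Real.rpow_mul hdR.le, Real.rpow_two]
      exact pow_le_pow_left₀ (Real.rpow_nonneg hdR.le _) hs_lo 2
    have h1 := frac_lo hd (hpos _ hc) hs2 hw_lo hn_up
    have h2 := lo_cst hd (by norm_num : (0 : ℝ) < 16) (by linarith : (16 : ℝ) ≤ (d : ℝ) ^ (κ / 8))
      (h1.trans L2)
    refine le_trans (pm hd ?_) h2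
    linarith

end Pool.Agent.H73.SG
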