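import Pool.Agent.H73.ES.Crn
import Pool.Agent.H73.ES.Co1

/-!
# [H73 SG Lcl] Local expansions (two sided)

`lcl_lin`: displacement of the image near a point; `lcl_c2`: near a critical point; `lcl_c1`: the derivative near a critical point, lower
bound, in the range `R √d s ≪ |F(c)|`, `R √d ^ 3 s |F(c)| ≪ |wd F F''|`.
-/

set_option autoImplicit false

open Finset MeasureTheory

namespace Pool.Agent.H73.SG

open Pool.H70.SF Pool.Agent.H73.ES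

theorem pol_rem (g : Polynomial ℂ) {ρ A : ℝ} (hρ : 0 < ρ)
    (h : ∀ t : ℂ, ‖t‖ ≤ ρ → ‖g.eval t‖ ≤ A) {t : ℂ} (ht : 2 * ‖t‖ ≤ ρ) (m : ℕ) :
    ‖g.eval t - ∑ k ∈ range m, g.coeff k * t ^ k‖ ≤ 2 * A * (‖t‖ / ρ) ^ m := by
  have hA : 0 ≤ A := (norm_nonneg _).trans (h 0 (by rw [norm_zero]; exact hρ.le))
  obtain ⟨M, hM⟩ : ∃ M, M = g.natDegree + 1 := ⟨_, rfl⟩
  have h1 : g.eval t = ∑ k ∈ range (m + M), g.coeff k * t ^ k :=
    Polynomial.eval_eq_sum_range' (by omega) t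
  rw [sum_range_add] at h1
  have h2 : g.eval t - ∑ k ∈ range m, g.coeff k * t ^ k =
      ∑ k ∈ range M, g.coeff (m + k) * t ^ (m + k) := by
    rw [h1]
    ring
  obtain ⟨x, hx⟩ : ∃ x : ℝ, x = ‖t‖ / ρ := ⟨_, rfl⟩
  have hx0 : 0 ≤ x := by rw [hx]; positivity
  have hx1 : x ≤ 1 / 2 := by
    rw [hx, div_le_iff₀ hρ]
    linarith
  rw [h2, ← hx]
  refine (norm_sum_le _ _).trans ?_
  have h3 : ∀ k ∈ range M, ‖g.coeff (m + k) * t ^ (m + k)‖ ≤
      A * x ^ m * (1 / 2 : ℝ) ^ k := by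
    intro k _
    rw [norm_mul, norm_pow]
    have h4 := cau_coeff g hρ h (m + k)
    have h5 : ‖g.coeff (m + k)‖ * ‖t‖ ^ (m + k) ≤
        A / ρ ^ (m + k) * ‖t‖ ^ (m + k) :=
      mul_le_mul_of_nonneg_right h4 (by positivity)
    refine h5.trans ?_
    have h6 : A / ρ ^ (m + k) * ‖t‖ ^ (m + k) = A * x ^ m * x ^ k := by
      rw [hx, div_pow, div_pow, pow_add, pow_add]
      field_simp
    rw [h6]
    exact mul_le_mul_of_nonneg_left (pow_le_pow_left₀ hx0 hx1 k) (by positivity)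
  refine (sum_le_sum h3).trans ?_
  rw [← mul_sum]
  have h7 := sum_geometric_two_le M
  have h8 : 0 ≤ A * x ^ m := by positivity
  nlinarith

theorem pol_rem' (g : Polynomial ℂ) {ρ A : ℝ} (hρ : 0 < ρ)
    (h : ∀ t : ℂ, ‖t‖ ≤ ρ → ‖g.eval t‖ ≤ A) {t : ℂ} (ht : 4 * ‖t‖ ≤ ρ) (m : ℕ) :
    ‖(Polynomial.derivative g).eval t - ∑ k ∈ range m, (Polynomial.derivative g).coeff k * t ^ k‖ ≤
      4 * A / ρ * (2 * ‖t‖ / ρ) ^ m := by
  have hρ2 : 0 < ρ / 2 := by positivity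
  have h1 : ∀ t : ℂ, ‖t‖ ≤ ρ / 2 → ‖(Polynomial.derivative g).eval t‖ ≤ A / (ρ / 2) := by
    intro t ht
    have h2 : ‖deriv (fun t => g.eval t) t‖ ≤ A / (ρ / 2) := by
      refine Complex.norm_deriv_le_of_forall_mem_sphere_norm_le hρ2
        g.differentiable.diffContOnCl ?_
      intro s hs
      apply h
      rw [mem_sphere_iff_norm] at hs
      have h3 : ‖s‖ ≤ ‖s - t‖ + ‖t‖ := by
        have := norm_add_le (s - t) t
        rwa [sub_add_cancel] at this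
      linarith
    rwa [Polynomial.deriv] at h2
  have h2 := pol_rem (Polynomial.derivative g) hρ2 h1 (t := t) (by linarith) m
  refine h2.trans (le_of_eq ?_)
  have e1 : ‖t‖ / (ρ / 2) = 2 * ‖t‖ / ρ := by
    field_simp
  rw [e1]
  have e2 : 2 * (A / (ρ / 2)) = 4 * A / ρ := by
    field_simp
    ring
  rw [e2]

/-- the geometric data -/
theorem lcl_geo {d : ℕ} (hd : 2 ≤ d) {c z : ℂ × ℂ} (hc : IsU c) (hz : IsU z)
    (h : 8 * Real.sqrt d * ‖wd c z‖ ≤ 1) :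
    ∃ a ζ : ℂ, a ≠ 0 ∧ ‖a‖ ≤ 1 ∧ z = a • (c + ζ • pp c) ∧ ‖ζ‖ ≤ 2 * ‖wd c z‖ ∧
      ‖wd c z‖ ≤ ‖ζ‖ ∧ 4 * (Real.sqrt d * ‖ζ‖) ≤ 1 ∧ 1 / 2 ≤ ‖a‖ ^ d ∧
      1 / 2 ≤ (‖a‖ ^ (d - 1)) ^ 2 := by
  have hs : 1 ≤ Real.sqrt d := by
    rw [Real.one_le_sqrt]
    exact_mod_cast (by omega : 1 ≤ d)
  obtain ⟨b, hb⟩ : ∃ b, b = wd c z := ⟨_, rfl⟩
  obtain ⟨a, ha⟩ : ∃ a, a = hm z c := ⟨_, rfl⟩
  rw [← hb] at h ⊢
  have hb8 : 8 * ‖b‖ ≤ 1 := by
    have : 0 ≤ ‖b‖ := norm_nonneg b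
    nlinarith
  have hlag := lag c z
  have hcc : n2 c = 1 := hc
  have hzz : n2 z = 1 := hz
  rw [hcc, hzz, ← hb, mul_one] at hlag
  have hhm : ‖hm c z‖ = ‖a‖ := by
    rw [ha]
    have : hm c z = starRingEnd ℂ (hm z c) := by
      unfold hm
      rw [map_add, map_mul, map_mul, Complex.conj_conj, Complex.conj_conj]
      ring
    rw [this, Complex.norm_conj]
  rw [hhm] at hlag
  have hb0 := norm_nonneg b
  have ha0 := norm_nonneg a
  have ha1 : ‖a‖ ≤ 1 := by nlinarith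
  have ha2 : 1 / 2 ≤ ‖a‖ := by
    by_contra hcon
    push Not at hcon
    nlinarith
  have hane : a ≠ 0 := by
    intro h0
    rw [h0, norm_zero] at ha2
    norm_num at ha2
  have hζ : ‖b / a‖ ≤ 2 * ‖b‖ := by
    rw [norm_div, div_le_iff₀ (by linarith)]
    nlinarith
  have hζ2 : ‖b‖ ≤ ‖b / a‖ := by
    rw [norm_div, le_div_iff₀ (by linarith)]
    nlinarith
  have hdb : (d : ℝ) * ‖b‖ ^ 2 ≤ 1 / 64 := by
    have h1 : (d : ℝ) * ‖b‖ ^ 2 = (Real.sqrt d * ‖b‖) ^ 2 := by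
      rw [mul_pow, Real.sq_sqrt (Nat.cast_nonneg d)]
    rw [h1]
    have h2 : Real.sqrt d * ‖b‖ ≤ 1 / 8 := by linarith
    have h3 : 0 ≤ Real.sqrt d * ‖b‖ := by positivity
    nlinarith
  have hpw : 1 / 2 ≤ (‖a‖ ^ 2) ^ d := by
    have h1 : ‖a‖ ^ 2 = 1 + (-‖b‖ ^ 2) := by linarith
    have h2 := one_add_mul_le_pow (a := -‖b‖ ^ 2) (by nlinarith) d
    rw [h1]
    refine le_trans ?_ h2
    linarith
  have hp2 : (‖a‖ ^ 2) ^ d ≤ ‖a‖ ^ d := by
    rw [← pow_mul]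
    exact pow_le_pow_of_le_one ha0 ha1 (by omega)
  have hp3 : (‖a‖ ^ 2) ^ d ≤ (‖a‖ ^ (d - 1)) ^ 2 := by
    rw [← pow_mul, ← pow_mul]
    exact pow_le_pow_of_le_one ha0 ha1 (by omega)
  refine ⟨a, b / a, hane, ha1, ?_, hζ, hζ2, ?_, hpw.trans hp2, hpw.trans hp3⟩
  · have h1 := dec hc z
    rw [← ha, ← hb] at h1
    rw [smul_add, smul_smul, mul_div_cancel₀ _ hane]
    exact h1
  · have h2 : Real.sqrt d * ‖b / a‖ ≤ Real.sqrt d * (2 * ‖b‖) :=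
      mul_le_mul_of_nonneg_left hζ (by linarith)
    linarith

private theorem crn_hom {d : ℕ} (X : CV d) (a : ℂ) (w : ℂ × ℂ) :
    FF X (a • w) = a ^ d • FF X w := by
  unfold FF
  rw [hev_hom, hev_hom]
  rfl

private theorem crn_wds (v w : ℂ × ℂ) (a : ℂ) : wd v (a • w) = a * wd v w := by
  unfold wd
  simp only [Prod.smul_fst, Prod.smul_snd, smul_eq_mul]
  ring

private theorem crn_dd {d : ℕ} (hd : 2 ≤ d) {t : ℂ} (h : Real.sqrt d * ‖t‖ ≤ 1) :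
    (d : ℝ) * ‖t‖ ^ 2 ≤ 1 := by
  have hd0 : (0 : ℝ) ≤ d := Nat.cast_nonneg d
  have h1 : (d : ℝ) * ‖t‖ ^ 2 = (Real.sqrt d * ‖t‖) ^ 2 := by
    rw [mul_pow, Real.sq_sqrt hd0]
  rw [h1]
  exact pow_le_one₀ (by positivity) h

/-- the scalar polynomial `wd v (Φ s)` -/
private theorem crn_v {d : ℕ} (hd : 2 ≤ d) {X : CV d} {R : ℝ}
    (hR : ∀ u, IsU u → nn (FF X u) ≤ R) {c : ℂ × ℂ} (hc : IsU c) (v : ℂ × ℂ) {t : ℂ}
    (ht : Real.sqrt d * ‖t‖ ≤ 1) :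
    ‖(Polynomial.C v.1 * rsP X.2 c - Polynomial.C v.2 * rsP X.1 c).eval t‖ ≤ nn v * (2 * R) := by
  have h1 : (Polynomial.C v.1 * rsP X.2 c - Polynomial.C v.2 * rsP X.1 c).eval t =
      wd v (FF X (c + t • pp c)) := by
    rw [Polynomial.eval_sub, Polynomial.eval_mul, Polynomial.eval_mul, Polynomial.eval_C,
      Polynomial.eval_C, rs_eval, rs_eval]
    rfl
  rw [h1]
  refine (wd_le _ _).trans ?_
  refine mul_le_mul_of_nonneg_left (cau_sup (by omega) hR hc (crn_dd hd ht)) ?_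
  exact Real.sqrt_nonneg _

private theorem crn_pw (k : ℕ) (x : ℂ) : (k : ℂ) * x ^ (k - 1) * x = k * x ^ k := by
  rcases k with _ | k
  · simp
  · rw [Nat.add_sub_cancel, pow_succ]
    ring

private theorem crn_eul {d : ℕ} (p : Fin (d + 1) → ℂ) (w : ℂ × ℂ) :
    (d : ℂ) * hev p w = w.1 * hev1 p w + w.2 * hev2 p w := by
  unfold hev hev1 hev2
  rw [mul_sum, mul_sum, mul_sum, ← sum_add_distrib]
  refine sum_congr rfl fun k _ => ?_
  have h1 := crn_pw (k : ℕ) w.1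
  have h2 := crn_pw (d - (k : ℕ)) w.2
  have h3 : (d : ℂ) = ((k : ℕ) : ℂ) + ((d - (k : ℕ) : ℕ) : ℂ) := by
    rw [← Nat.cast_add]
    congr 1
    have := k.2
    omega
  calc (d : ℂ) * (p k * w.1 ^ (k : ℕ) * w.2 ^ (d - (k : ℕ))) =
        p k * (((k : ℕ) : ℂ) * w.1 ^ (k : ℕ)) * w.2 ^ (d - (k : ℕ)) +
        p k * w.1 ^ (k : ℕ) * (((d - (k : ℕ) : ℕ) : ℂ) * w.2 ^ (d - (k : ℕ))) := by
        rw [h3]
        ring
    _ = _ := by
        rw [← h1, ← h2]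
        ring

private theorem crn_hom1 {d : ℕ} (p : Fin (d + 1) → ℂ) (x : ℂ) (w : ℂ × ℂ) :
    hev1 p (x • w) = x ^ (d - 1) * hev1 p w := by
  unfold hev1
  rw [mul_sum]
  refine sum_congr rfl fun k _ => ?_
  simp only [Prod.smul_fst, Prod.smul_snd, smul_eq_mul]
  rcases Nat.eq_zero_or_pos (k : ℕ) with h0 | h0
  · rw [h0]
    simp
  · have h1 : x ^ (d - 1) = x ^ ((k : ℕ) - 1) * x ^ (d - (k : ℕ)) := by
      rw [← pow_add]
      congr 1
      have := k.2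
      omega
    rw [h1, mul_pow, mul_pow]
    ring

private theorem crn_hom2 {d : ℕ} (p : Fin (d + 1) → ℂ) (x : ℂ) (w : ℂ × ℂ) :
    hev2 p (x • w) = x ^ (d - 1) * hev2 p w := by
  unfold hev2
  rw [mul_sum]
  refine sum_congr rfl fun k _ => ?_
  simp only [Prod.smul_fst, Prod.smul_snd, smul_eq_mul]
  rcases Nat.eq_zero_or_pos (d - (k : ℕ)) with h0 | h0
  · rw [h0]
    simp
  · have h1 : x ^ (d - 1) = x ^ (k : ℕ) * x ^ (d - (k : ℕ) - 1) := by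
      rw [← pow_add]
      congr 1
      have := k.2
      omega
    rw [h1, mul_pow, mul_pow]
    ring

private theorem crn_der {d : ℕ} (p : Fin (d + 1) → ℂ) (u : ℂ × ℂ) (s : ℂ) :
    (Polynomial.derivative (rsP p u)).eval s =
      hev1 p (u + s • pp u) * (pp u).1 + hev2 p (u + s • pp u) * (pp u).2 := by
  unfold rsP hev1 hev2
  rw [Polynomial.derivative_sum, Polynomial.eval_finsetSum, sum_mul, sum_mul, ← sum_add_distrib]
  refine sum_congr rfl fun k _ => ?_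
  have e1 : ∀ x y : ℂ, Polynomial.eval s (Polynomial.C x + Polynomial.C y * Polynomial.X) =
      x + s * y := by
    intro x y
    rw [Polynomial.eval_add, Polynomial.eval_mul, Polynomial.eval_C, Polynomial.eval_C,
      Polynomial.eval_X]
    ring
  have e2 : ∀ (x y : ℂ) (n : ℕ), Polynomial.eval s (Polynomial.derivative
      ((Polynomial.C x + Polynomial.C y * Polynomial.X) ^ n)) =
      (n : ℂ) * (x + s * y) ^ (n - 1) * y := by
    intro x y n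
    rw [Polynomial.derivative_pow, Polynomial.eval_mul, Polynomial.eval_mul,
      Polynomial.eval_pow, e1, Polynomial.eval_C, Polynomial.derivative_add,
      Polynomial.derivative_C, Polynomial.derivative_C_mul, Polynomial.derivative_X, zero_add,
      mul_one, Polynomial.eval_C]
  rw [Polynomial.derivative_mul, Polynomial.derivative_C_mul, Polynomial.eval_add,
    Polynomial.eval_mul, Polynomial.eval_mul, Polynomial.eval_mul, Polynomial.eval_mul,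
    Polynomial.eval_C, Polynomial.eval_pow, Polynomial.eval_pow, e1, e1, e2, e2]
  simp only [Prod.fst_add, Prod.snd_add, Prod.smul_fst, Prod.smul_snd, smul_eq_mul]
  ring

/-- the Wronskian -/
private noncomputable def crnW {d : ℕ} (X : CV d) (c : ℂ × ℂ) : Polynomial ℂ :=
  rsP X.1 c * Polynomial.derivative (rsP X.2 c) - rsP X.2 c * Polynomial.derivative (rsP X.1 c)

private theorem crn_JJ {d : ℕ} (X : CV d) {c : ℂ × ℂ} (hc : IsU c) (s : ℂ) :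
    (d : ℂ) * (crnW X c).eval s = JJ X (c + s • pp c) := by
  have hcc : c.1 * starRingEnd ℂ c.1 + c.2 * starRingEnd ℂ c.2 = 1 := by
    rw [Complex.mul_conj, Complex.mul_conj, Complex.normSq_eq_norm_sq, Complex.normSq_eq_norm_sq,
      ← Complex.ofReal_add]
    have h1 : ‖c.1‖ ^ 2 + ‖c.2‖ ^ 2 = 1 := hc
    rw [h1, Complex.ofReal_one]
  unfold crnW
  rw [Polynomial.eval_sub, Polynomial.eval_mul, Polynomial.eval_mul, rs_eval, rs_eval, crn_der,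
    crn_der, mul_sub, ← mul_assoc, ← mul_assoc, crn_eul, crn_eul]
  obtain ⟨w, hw⟩ : ∃ w, w = c + s • pp c := ⟨_, rfl⟩
  have hw1 : w.1 * (pp c).2 - w.2 * (pp c).1 = 1 := by
    rw [hw]
    simp only [Prod.fst_add, Prod.snd_add, Prod.smul_fst, Prod.smul_snd, smul_eq_mul]
    have h2 : (c.1 + s * (pp c).1) * (pp c).2 - (c.2 + s * (pp c).2) * (pp c).1 =
        c.1 * (pp c).2 - c.2 * (pp c).1 := by ring
    rw [h2]
    unfold pp
    show c.1 * starRingEnd ℂ c.1 - c.2 * (-(starRingEnd ℂ c.2)) = 1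
    rw [← hcc]
    ring
  rw [← hw]
  unfold JJ
  calc (w.1 * hev1 X.1 w + w.2 * hev2 X.1 w) * (hev1 X.2 w * (pp c).1 + hev2 X.2 w * (pp c).2) -
        (w.1 * hev1 X.2 w + w.2 * hev2 X.2 w) * (hev1 X.1 w * (pp c).1 + hev2 X.1 w * (pp c).2) =
        (w.1 * (pp c).2 - w.2 * (pp c).1) *
          (hev1 X.1 w * hev2 X.2 w - hev2 X.1 w * hev1 X.2 w) := by ring
    _ = _ := by rw [hw1, one_mul]

private theorem crn_W {d : ℕ} (hd : 2 ≤ d) {X : CV d} {c z : ℂ × ℂ} (hc : IsU c) (hz : IsU z)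
    {a ζ : ℂ} (hza : z = a • (c + ζ • pp c)) :
    wd (FF X z) (jv X z 1) = (a ^ (d - 1)) ^ 2 * (crnW X c).eval ζ := by
  have hd0 : (d : ℂ) ≠ 0 := by
    exact_mod_cast (by omega : d ≠ 0)
  apply mul_left_cancel₀ hd0
  have h1 : (d : ℂ) * ((a ^ (d - 1)) ^ 2 * (crnW X c).eval ζ) =
      (a ^ (d - 1)) ^ 2 * ((d : ℂ) * (crnW X c).eval ζ) := by ring
  rw [h1, crn_JJ X hc, hrel X hz, hza]
  unfold JJ
  rw [crn_hom1, crn_hom1, crn_hom2, crn_hom2]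
  ring

/-- the scalar polynomial `hm (Φ s) v` -/
private theorem crn_h {d : ℕ} (hd : 2 ≤ d) {X : CV d} {R : ℝ}
    (hR : ∀ u, IsU u → nn (FF X u) ≤ R) {c : ℂ × ℂ} (hc : IsU c) (v : ℂ × ℂ) {t : ℂ}
    (ht : Real.sqrt d * ‖t‖ ≤ 1) :
    ‖(Polynomial.C (starRingEnd ℂ v.1) * rsP X.1 c +
      Polynomial.C (starRingEnd ℂ v.2) * rsP X.2 c).eval t‖ ≤ nn v * (2 * R) := by
  have h1 : (Polynomial.C (starRingEnd ℂ v.1) * rsP X.1 c +
      Polynomial.C (starRingEnd ℂ v.2) * rsP X.2 c).eval t = hm (FF X (c + t • pp c)) v := by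
    rw [Polynomial.eval_add, Polynomial.eval_mul, Polynomial.eval_mul, Polynomial.eval_C,
      Polynomial.eval_C, rs_eval, rs_eval]
    unfold hm FF
    simp only
    ring
  rw [h1]
  refine (hm_le _ _).trans ?_
  rw [mul_comm]
  refine mul_le_mul_of_nonneg_left (cau_sup (by omega) hR hc (crn_dd hd ht)) ?_
  exact Real.sqrt_nonneg _

private theorem sqrt_ge {d : ℕ} (hd : 2 ≤ d) : 1 ≤ Real.sqrt d := by
  rw [Real.one_le_sqrt]
  exact_mod_cast (by omega : 1 ≤ d)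

/-- displacement near a point -/
theorem lcl_lin {d : ℕ} (hd : 2 ≤ d) {X : CV d} {R : ℝ} (hR : ∀ u, IsU u → nn (FF X u) ≤ R)
    {c z : ℂ × ℂ} (hc : IsU c) (hz : IsU z) (h : 8 * Real.sqrt d * ‖wd c z‖ ≤ 1) :
    ‖wd (FF X c) (FF X z)‖ ≤ 2 * ‖wd c z‖ * ‖wd (FF X c) (jv X c 1)‖ +
        nn (FF X c) * (16 * R * d * ‖wd c z‖ ^ 2) ∧
      ‖wd c z‖ * ‖wd (FF X c) (jv X c 1)‖ ≤ 2 * ‖wd (FF X c) (FF X z)‖ +
        nn (FF X c) * (16 * R * d * ‖wd c z‖ ^ 2) := by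
  obtain ⟨a, ζ, ha0, ha1, hza, hζ, hζ2, hζ1, hp1, hp2⟩ := lcl_geo hd hc hz h
  obtain ⟨b, hb⟩ : ∃ b, b = ‖wd c z‖ := ⟨_, rfl⟩
  rw [← hb] at hζ hζ2 ⊢
  have hn0 : 0 ≤ nn (FF X c) := Real.sqrt_nonneg _
  have hR0 : 0 ≤ R := hn0.trans (hR c hc)
  have hs := sqrt_ge hd
  have hs0 : 0 < Real.sqrt d := by linarith
  obtain ⟨g, hg⟩ : ∃ g : Polynomial ℂ, g = Polynomial.C (FF X c).1 * rsP X.2 c -
    Polynomial.C (FF X c).2 * rsP X.1 c := ⟨_, rfl⟩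
  have hgb : ∀ t : ℂ, ‖t‖ ≤ 1 / Real.sqrt d → ‖g.eval t‖ ≤ nn (FF X c) * (2 * R) := by
    intro t ht
    rw [hg]
    refine crn_v hd hR hc (FF X c) ?_
    rw [le_div_iff₀ hs0] at ht
    linarith
  have hg0 : g.coeff 0 = 0 := by
    have h1 : (FF X c).1 = (rsP X.1 c).coeff 0 := (jt_zero X.1 c).symm
    have h2 : (FF X c).2 = (rsP X.2 c).coeff 0 := (jt_zero X.2 c).symm
    rw [hg, Polynomial.coeff_sub, Polynomial.coeff_C_mul, Polynomial.coeff_C_mul, h1, h2]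
    ring
  have hg1 : g.coeff 1 = wd (FF X c) (jv X c 1) := by
    rw [hg, Polynomial.coeff_sub, Polynomial.coeff_C_mul, Polynomial.coeff_C_mul]
    rfl
  have h1 := pol_rem g (by positivity) hgb (t := ζ) (by
    rw [le_div_iff₀ hs0]
    linarith) 2
  rw [sum_range_succ, sum_range_one, hg0, hg1, zero_mul, zero_add, pow_one] at h1
  have h2 : wd (FF X c) (FF X z) = a ^ d * g.eval ζ := by
    rw [hza, crn_hom, crn_wds, hg, Polynomial.eval_sub, Polynomial.eval_mul, Polynomial.eval_mul,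
      Polynomial.eval_C, Polynomial.eval_C, rs_eval, rs_eval]
    rfl
  have h5 : (‖ζ‖ / (1 / Real.sqrt d)) ^ 2 = d * ‖ζ‖ ^ 2 := by
    rw [div_div_eq_mul_div, div_one, mul_pow, Real.sq_sqrt (Nat.cast_nonneg d), mul_comm]
  rw [h5] at h1
  have h6 : ‖ζ‖ ^ 2 ≤ (2 * b) ^ 2 := pow_le_pow_left₀ (norm_nonneg _) hζ 2
  have hd0 : (0 : ℝ) ≤ d := Nat.cast_nonneg d
  have h7 : 2 * (nn (FF X c) * (2 * R)) * (d * ‖ζ‖ ^ 2) ≤ nn (FF X c) * (16 * R * d * b ^ 2) := by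
    calc 2 * (nn (FF X c) * (2 * R)) * (d * ‖ζ‖ ^ 2)
        ≤ 2 * (nn (FF X c) * (2 * R)) * (d * (2 * b) ^ 2) := by gcongr
      _ = nn (FF X c) * (16 * R * d * b ^ 2) := by ring
  obtain ⟨w, hw⟩ : ∃ w, w = wd (FF X c) (jv X c 1) := ⟨_, rfl⟩
  rw [← hw] at h1 ⊢
  have h8 := h1.trans h7
  have hw0 := norm_nonneg w
  have h9 : ‖w * ζ‖ ≤ 2 * b * ‖w‖ := by
    rw [norm_mul, mul_comm]
    exact mul_le_mul_of_nonneg_right hζ hw0
  have h10 : b * ‖w‖ ≤ ‖w * ζ‖ := by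
    rw [norm_mul, mul_comm ‖w‖]
    exact mul_le_mul_of_nonneg_right hζ2 hw0
  have h11 : ‖g.eval ζ‖ ≤ ‖w * ζ‖ + ‖g.eval ζ - w * ζ‖ := by
    have := norm_add_le (w * ζ) (g.eval ζ - w * ζ)
    rwa [add_sub_cancel] at this
  have h12 : ‖w * ζ‖ ≤ ‖g.eval ζ‖ + ‖g.eval ζ - w * ζ‖ := by
    have := norm_sub_le (g.eval ζ) (g.eval ζ - w * ζ)
    rwa [sub_sub_cancel] at this
  have h13 : ‖wd (FF X c) (FF X z)‖ ≤ ‖g.eval ζ‖ := by
    rw [h2, norm_mul, norm_pow]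
    exact mul_le_of_le_one_left (norm_nonneg _) (pow_le_one₀ (norm_nonneg a) ha1)
  have h14 : ‖g.eval ζ‖ ≤ 2 * ‖wd (FF X c) (FF X z)‖ := by
    rw [h2, norm_mul, norm_pow]
    have := mul_le_mul_of_nonneg_right hp1 (norm_nonneg (g.eval ζ))
    linarith
  exact ⟨by linarith, by linarith⟩

/-- displacement near a critical point -/
theorem lcl_c2 {d : ℕ} (hd : 2 ≤ d) {X : CV d} {R : ℝ} (hR : ∀ u, IsU u → nn (FF X u) ≤ R)
    {c z : ℂ × ℂ} (hc : IsU c) (hz : IsU z) (hJ : JJ X c = 0)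
    (h : 8 * Real.sqrt d * ‖wd c z‖ ≤ 1) :
    ‖wd (FF X c) (FF X z)‖ ≤ 4 * ‖wd c z‖ ^ 2 * ‖wd (FF X c) (jv X c 2)‖ +
        nn (FF X c) * (32 * R * Real.sqrt d ^ 3 * ‖wd c z‖ ^ 3) ∧
      ‖wd c z‖ ^ 2 * ‖wd (FF X c) (jv X c 2)‖ ≤ 2 * ‖wd (FF X c) (FF X z)‖ +
        nn (FF X c) * (32 * R * Real.sqrt d ^ 3 * ‖wd c z‖ ^ 3) := by
  obtain ⟨a, ζ, ha0, ha1, hza, hζ, hζ2, hζ1, hp1, hp2⟩ := lcl_geo hd hc hz h
  obtain ⟨b, hb⟩ : ∃ b, b = ‖wd c z‖ := ⟨_, rfl⟩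
  rw [← hb] at hζ hζ2 ⊢
  have hb0 : 0 ≤ b := by rw [hb]; exact norm_nonneg _
  have hn0 : 0 ≤ nn (FF X c) := Real.sqrt_nonneg _
  have hR0 : 0 ≤ R := hn0.trans (hR c hc)
  have hs := sqrt_ge hd
  have hs0 : 0 < Real.sqrt d := by linarith
  obtain ⟨g, hg⟩ : ∃ g : Polynomial ℂ, g = Polynomial.C (FF X c).1 * rsP X.2 c -
    Polynomial.C (FF X c).2 * rsP X.1 c := ⟨_, rfl⟩
  have hgb : ∀ t : ℂ, ‖t‖ ≤ 1 / Real.sqrt d → ‖g.eval t‖ ≤ nn (FF X c) * (2 * R) := by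
    intro t ht
    rw [hg]
    refine crn_v hd hR hc (FF X c) ?_
    rw [le_div_iff₀ hs0] at ht
    linarith
  have hg0 : g.coeff 0 = 0 := by
    have h1 : (FF X c).1 = (rsP X.1 c).coeff 0 := (jt_zero X.1 c).symm
    have h2 : (FF X c).2 = (rsP X.2 c).coeff 0 := (jt_zero X.2 c).symm
    rw [hg, Polynomial.coeff_sub, Polynomial.coeff_C_mul, Polynomial.coeff_C_mul, h1, h2]
    ring
  have hg1 : g.coeff 1 = 0 := by
    have h1 := crit_wd (by omega) hc hJ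
    rw [hg, Polynomial.coeff_sub, Polynomial.coeff_C_mul, Polynomial.coeff_C_mul]
    exact h1
  have hg2 : g.coeff 2 = wd (FF X c) (jv X c 2) := by
    rw [hg, Polynomial.coeff_sub, Polynomial.coeff_C_mul, Polynomial.coeff_C_mul]
    rfl
  have h1 := pol_rem g (by positivity) hgb (t := ζ) (by
    rw [le_div_iff₀ hs0]
    linarith) 3
  rw [sum_range_succ, sum_range_succ, sum_range_one, hg0, hg1, hg2, zero_mul, zero_mul, zero_add,
    zero_add] at h1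
  have h2 : wd (FF X c) (FF X z) = a ^ d * g.eval ζ := by
    rw [hza, crn_hom, crn_wds, hg, Polynomial.eval_sub, Polynomial.eval_mul, Polynomial.eval_mul,
      Polynomial.eval_C, Polynomial.eval_C, rs_eval, rs_eval]
    rfl
  have h5 : (‖ζ‖ / (1 / Real.sqrt d)) ^ 3 = Real.sqrt d ^ 3 * ‖ζ‖ ^ 3 := by
    rw [div_div_eq_mul_div, div_one, mul_pow, mul_comm]
  rw [h5] at h1
  have h6 : ‖ζ‖ ^ 3 ≤ (2 * b) ^ 3 := pow_le_pow_left₀ (norm_nonneg _) hζ 3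
  have hd0 : (0 : ℝ) ≤ d := Nat.cast_nonneg d
  have h7 : 2 * (nn (FF X c) * (2 * R)) * (Real.sqrt d ^ 3 * ‖ζ‖ ^ 3) ≤
      nn (FF X c) * (32 * R * Real.sqrt d ^ 3 * b ^ 3) := by
    calc 2 * (nn (FF X c) * (2 * R)) * (Real.sqrt d ^ 3 * ‖ζ‖ ^ 3)
        ≤ 2 * (nn (FF X c) * (2 * R)) * (Real.sqrt d ^ 3 * (2 * b) ^ 3) := by gcongr
      _ = nn (FF X c) * (32 * R * Real.sqrt d ^ 3 * b ^ 3) := by ring
  obtain ⟨w, hw⟩ : ∃ w, w = wd (FF X c) (jv X c 2) := ⟨_, rfl⟩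
  rw [← hw] at h1 ⊢
  have h8 := h1.trans h7
  have hw0 := norm_nonneg w
  have h9 : ‖w * ζ ^ 2‖ ≤ 4 * b ^ 2 * ‖w‖ := by
    rw [norm_mul, norm_pow]
    have : ‖ζ‖ ^ 2 ≤ (2 * b) ^ 2 := pow_le_pow_left₀ (norm_nonneg _) hζ 2
    have := mul_le_mul_of_nonneg_left this hw0
    linarith
  have h10 : b ^ 2 * ‖w‖ ≤ ‖w * ζ ^ 2‖ := by
    rw [norm_mul, norm_pow, mul_comm ‖w‖]
    exact mul_le_mul_of_nonneg_right (pow_le_pow_left₀ hb0 hζ2 2) hw0
  have h11 : ‖g.eval ζ‖ ≤ ‖w * ζ ^ 2‖ + ‖g.eval ζ - w * ζ ^ 2‖ := by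
    have := norm_add_le (w * ζ ^ 2) (g.eval ζ - w * ζ ^ 2)
    rwa [add_sub_cancel] at this
  have h12 : ‖w * ζ ^ 2‖ ≤ ‖g.eval ζ‖ + ‖g.eval ζ - w * ζ ^ 2‖ := by
    have := norm_sub_le (g.eval ζ) (g.eval ζ - w * ζ ^ 2)
    rwa [sub_sub_cancel] at this
  have h13 : ‖wd (FF X c) (FF X z)‖ ≤ ‖g.eval ζ‖ := by
    rw [h2, norm_mul, norm_pow]
    exact mul_le_of_le_one_left (norm_nonneg _) (pow_le_one₀ (norm_nonneg a) ha1)
  have h14 : ‖g.eval ζ‖ ≤ 2 * ‖wd (FF X c) (FF X z)‖ := by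
    rw [h2, norm_mul, norm_pow]
    have := mul_le_mul_of_nonneg_right hp1 (norm_nonneg (g.eval ζ))
    linarith
  exact ⟨by linarith, by linarith⟩

private theorem id_wh (v a b : ℂ × ℂ) :
    ((n2 v : ℝ) : ℂ) * wd a b = hm a v * wd v b - wd v a * hm b v := by
  unfold n2 wd hm
  push_cast
  rw [← Complex.conj_mul', ← Complex.conj_mul']
  ring

/-- the derivative near a critical point -/
theorem lcl_c1 {d : ℕ} (hd : 2 ≤ d) {X : CV d} {R : ℝ} (hR : ∀ u, IsU u → nn (FF X u) ≤ R)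
    {c z : ℂ × ℂ} (hc : IsU c) (hz : IsU z) (hJ : JJ X c = 0)
    (h : 8 * Real.sqrt d * ‖wd c z‖ ≤ 1)
    (h1 : 1000 * R * Real.sqrt d * ‖wd c z‖ ≤ nn (FF X c))
    (h2 : 1000 * R * Real.sqrt d ^ 3 * ‖wd c z‖ * nn (FF X c) ≤ ‖wd (FF X c) (jv X c 2)‖) :
    ‖wd c z‖ * ‖wd (FF X c) (jv X c 2)‖ ≤ 2 * ‖wd (FF X z) (jv X z 1)‖ := by
  obtain ⟨a, ζ, ha0, ha1, hza, hζ, hζ2, hζ1, hp1, hp2⟩ := lcl_geo hd hc hz h
  obtain ⟨b, hb⟩ : ∃ b, b = ‖wd c z‖ := ⟨_, rfl⟩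
  rw [← hb] at hζ hζ2 h1 h2 ⊢
  have hb0 : 0 ≤ b := by rw [hb]; exact norm_nonneg _
  have hn0 : 0 ≤ nn (FF X c) := Real.sqrt_nonneg _
  have hR0 : 0 ≤ R := hn0.trans (hR c hc)
  have hs := sqrt_ge hd
  have hs0 : 0 < Real.sqrt d := by linarith
  obtain ⟨q, hq⟩ : ∃ q, q = Real.sqrt d := ⟨_, rfl⟩
  obtain ⟨v, hv⟩ : ∃ v, v = FF X c := ⟨_, rfl⟩
  obtain ⟨w, hw⟩ : ∃ w, w = wd v (jv X c 2) := ⟨_, rfl⟩
  have hW := crn_W hd (X := X) hc hz hza
  rw [hW, norm_mul, norm_pow, norm_pow]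
  rw [← hv, ← hw] at h2 ⊢
  rw [← hv] at h1 hn0
  rw [← hq] at h1 h2 hs0 hζ1
  have hw0 := norm_nonneg w
  rcases eq_or_lt_of_le hn0 with hn | hn
  · have h3 : w = 0 := by
      rw [← norm_le_zero_iff, hw]
      refine (wd_le _ _).trans ?_
      rw [← hn, zero_mul]
    rw [h3, norm_zero, mul_zero]
    positivity
  obtain ⟨gb, hgb⟩ : ∃ g : Polynomial ℂ, g = Polynomial.C v.1 * rsP X.2 c -
    Polynomial.C v.2 * rsP X.1 c := ⟨_, rfl⟩
  obtain ⟨ga, hga⟩ : ∃ g : Polynomial ℂ, g = Polynomial.C (starRingEnd ℂ v.1) * rsP X.1 c +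
    Polynomial.C (starRingEnd ℂ v.2) * rsP X.2 c := ⟨_, rfl⟩
  have hgbb : ∀ t : ℂ, ‖t‖ ≤ 1 / q → ‖gb.eval t‖ ≤ nn v * (2 * R) := by
    intro t ht
    rw [hgb]
    refine crn_v hd hR hc v ?_
    rw [le_div_iff₀ hs0] at ht
    rw [← hq]
    linarith
  have hgab : ∀ t : ℂ, ‖t‖ ≤ 1 / q → ‖ga.eval t‖ ≤ nn v * (2 * R) := by
    intro t ht
    rw [hga]
    refine crn_h hd hR hc v ?_
    rw [le_div_iff₀ hs0] at ht
    rw [← hq]
    linarith
  have hgb0 : gb.coeff 0 = 0 := by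
    have h1 : v.1 = (rsP X.1 c).coeff 0 := by rw [hv]; exact (jt_zero X.1 c).symm
    have h2 : v.2 = (rsP X.2 c).coeff 0 := by rw [hv]; exact (jt_zero X.2 c).symm
    rw [hgb, Polynomial.coeff_sub, Polynomial.coeff_C_mul, Polynomial.coeff_C_mul, h1, h2]
    ring
  have hgb1 : gb.coeff 1 = 0 := by
    have h1 := crit_wd (by omega) hc hJ
    rw [← hv] at h1
    rw [hgb, Polynomial.coeff_sub, Polynomial.coeff_C_mul, Polynomial.coeff_C_mul]
    exact h1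
  have hgb2 : gb.coeff 2 = w := by
    rw [hgb, hw, Polynomial.coeff_sub, Polynomial.coeff_C_mul, Polynomial.coeff_C_mul]
    rfl
  have hga0 : ga.coeff 0 = ((nn v ^ 2 : ℝ) : ℂ) := by
    have h1 : v.1 = (rsP X.1 c).coeff 0 := by rw [hv]; exact (jt_zero X.1 c).symm
    have h2 : v.2 = (rsP X.2 c).coeff 0 := by rw [hv]; exact (jt_zero X.2 c).symm
    rw [hga, Polynomial.coeff_add, Polynomial.coeff_C_mul, Polynomial.coeff_C_mul, ← h1, ← h2,
      co_nn_sq]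
    unfold n2
    push_cast
    rw [← Complex.conj_mul', ← Complex.conj_mul']
  have hid : ((nn v ^ 2 : ℝ) : ℂ) * (crnW X c).eval ζ =
      ga.eval ζ * (Polynomial.derivative gb).eval ζ - gb.eval ζ *
        (Polynomial.derivative ga).eval ζ := by
    have h3 := id_wh v ((rsP X.1 c).eval ζ, (rsP X.2 c).eval ζ)
      ((Polynomial.derivative (rsP X.1 c)).eval ζ, (Polynomial.derivative (rsP X.2 c)).eval ζ)
    rw [co_nn_sq]
    have e1 : (crnW X c).eval ζ = wd ((rsP X.1 c).eval ζ, (rsP X.2 c).eval ζ)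
      ((Polynomial.derivative (rsP X.1 c)).eval ζ,
        (Polynomial.derivative (rsP X.2 c)).eval ζ) := by
      unfold crnW wd
      rw [Polynomial.eval_sub, Polynomial.eval_mul, Polynomial.eval_mul]
    have e2 : ga.eval ζ = hm ((rsP X.1 c).eval ζ, (rsP X.2 c).eval ζ) v := by
      rw [hga, Polynomial.eval_add, Polynomial.eval_mul, Polynomial.eval_mul, Polynomial.eval_C,
        Polynomial.eval_C]
      unfold hm
      ring
    have e3 : gb.eval ζ = wd v ((rsP X.1 c).eval ζ, (rsP X.2 c).eval ζ) := by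
      rw [hgb, Polynomial.eval_sub, Polynomial.eval_mul, Polynomial.eval_mul, Polynomial.eval_C,
        Polynomial.eval_C]
      rfl
    have e4 : (Polynomial.derivative ga).eval ζ =
        hm ((Polynomial.derivative (rsP X.1 c)).eval ζ,
          (Polynomial.derivative (rsP X.2 c)).eval ζ) v := by
      rw [hga, Polynomial.derivative_add, Polynomial.derivative_C_mul,
        Polynomial.derivative_C_mul, Polynomial.eval_add, Polynomial.eval_mul,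
        Polynomial.eval_mul, Polynomial.eval_C, Polynomial.eval_C]
      unfold hm
      ring
    have e5 : (Polynomial.derivative gb).eval ζ =
        wd v ((Polynomial.derivative (rsP X.1 c)).eval ζ,
          (Polynomial.derivative (rsP X.2 c)).eval ζ) := by
      rw [hgb, Polynomial.derivative_sub, Polynomial.derivative_C_mul,
        Polynomial.derivative_C_mul, Polynomial.eval_sub, Polynomial.eval_mul,
        Polynomial.eval_mul, Polynomial.eval_C, Polynomial.eval_C]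
      rfl
    rw [e1, e2, e3, e4, e5, h3]
  have hq1 : 0 < 1 / q := by positivity
  have hx2 : 2 * ‖ζ‖ ≤ 1 / q := by
    rw [le_div_iff₀ hs0]
    linarith
  have hx4 : 4 * ‖ζ‖ ≤ 1 / q := by
    rw [le_div_iff₀ hs0]
    linarith
  have A1 := pol_rem ga hq1 hgab hx2 1
  have A2 := pol_rem' ga hq1 hgab hx4 0
  have B1 := pol_rem gb hq1 hgbb hx2 3
  have B2 := pol_rem' gb hq1 hgbb hx4 2
  rw [sum_range_one, pow_zero, mul_one, hga0, pow_one] at A1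
  rw [range_zero, sum_empty, sub_zero, pow_zero, mul_one] at A2
  rw [sum_range_succ, sum_range_succ, sum_range_one, hgb0, hgb1, hgb2, zero_mul, zero_mul,
    zero_add, zero_add] at B1
  rw [sum_range_succ, sum_range_one, Polynomial.coeff_derivative, Polynomial.coeff_derivative,
    zero_add, hgb1, hgb2, zero_mul, zero_mul, zero_add, pow_one] at B2
  obtain ⟨x, hx⟩ : ∃ x, x = ‖ζ‖ := ⟨_, rfl⟩
  obtain ⟨n, hnd⟩ : ∃ n, n = nn v := ⟨_, rfl⟩
  obtain ⟨B, hB⟩ : ∃ B, B = ‖w‖ := ⟨_, rfl⟩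
  have hx0 : 0 ≤ x := by rw [hx]; exact norm_nonneg _
  rw [← hx] at hζ hζ2 hζ1 A1 B1 B2
  rw [← hnd] at A1 A2 B1 B2 hn h1 h2 hid hn0
  rw [← hB] at h2 hw0 ⊢
  have e1 : x / (1 / q) = q * x := by field_simp
  have e2 : 2 * x / (1 / q) = 2 * (q * x) := by field_simp
  have e3 : 4 * (n * (2 * R)) / (1 / q) = 8 * R * n * q := by field_simp; ring
  rw [e1] at A1 B1
  rw [e2, e3] at B2
  rw [e3] at A2
  -- numbers
  have k1 : R * q * x ≤ n / 500 := by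
    have h3 : R * q * x ≤ R * q * (2 * b) := mul_le_mul_of_nonneg_left hζ (by positivity)
    linarith
  have k2 : R * q ^ 3 * x * n ≤ B / 500 := by
    have h3 : R * q ^ 3 * n * x ≤ R * q ^ 3 * n * (2 * b) :=
      mul_le_mul_of_nonneg_left hζ (by positivity)
    linarith
  have k3 : R * q * x * n ≤ n ^ 2 / 500 := by
    have := mul_le_mul_of_nonneg_right k1 hn.le
    linarith
  have a1 : 99 / 100 * n ^ 2 ≤ ‖ga.eval ζ‖ := by
    have h3 : ‖((n ^ 2 : ℝ) : ℂ)‖ = n ^ 2 := by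
      rw [Complex.norm_real, Real.norm_eq_abs, abs_of_nonneg (sq_nonneg n)]
    have h4 := norm_sub_le (ga.eval ζ) (ga.eval ζ - ((n ^ 2 : ℝ) : ℂ))
    rw [sub_sub_cancel, h3] at h4
    have h5 : 2 * (n * (2 * R)) * (q * x) = 4 * (R * q * x * n) := by ring
    rw [h5] at A1
    nlinarith
  have b2 : 193 / 100 * (B * x) ≤ ‖(Polynomial.derivative gb).eval ζ‖ := by
    have h3 := norm_sub_le ((Polynomial.derivative gb).eval ζ)
      ((Polynomial.derivative gb).eval ζ - w * (((1 : ℕ) : ℂ) + 1) * ζ)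
    rw [sub_sub_cancel] at h3
    have h4 : ‖w * (((1 : ℕ) : ℂ) + 1) * ζ‖ = 2 * (B * x) := by
      rw [norm_mul, norm_mul, ← hB, ← hx]
      have : ‖(((1 : ℕ) : ℂ) + 1)‖ = 2 := by
        rw [Nat.cast_one]
        have : (1 : ℂ) + 1 = ((2 : ℝ) : ℂ) := by push_cast; ring
        rw [this, Complex.norm_real]
        norm_num
      rw [this]
      ring
    rw [h4] at h3
    have h5 : 8 * R * n * q * (2 * (q * x)) ^ 2 = 32 * (R * q ^ 3 * x * n) * x := by ring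
    rw [h5] at B2
    have h6 : 32 * (R * q ^ 3 * x * n) * x ≤ 32 * (B / 500) * x := by gcongr
    have h7 : 0 ≤ B * x := mul_nonneg hw0 hx0
    linarith
  have b1 : ‖gb.eval ζ‖ ≤ 101 / 100 * (B * x ^ 2) := by
    have h3 := norm_add_le (w * ζ ^ 2) (gb.eval ζ - w * ζ ^ 2)
    rw [add_sub_cancel] at h3
    have h4 : ‖w * ζ ^ 2‖ = B * x ^ 2 := by
      rw [norm_mul, norm_pow, ← hB, ← hx]
    rw [h4] at h3
    have h5 : 2 * (n * (2 * R)) * (q * x) ^ 3 = 4 * (R * q ^ 3 * x * n) * x ^ 2 := by ring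
    rw [h5] at B1
    have h6 : 4 * (R * q ^ 3 * x * n) * x ^ 2 ≤ 4 * (B / 500) * x ^ 2 := by gcongr
    have h7 : 0 ≤ B * x ^ 2 := by positivity
    linarith
  have hmain : n ^ 2 * ‖(crnW X c).eval ζ‖ ≥ 189 / 100 * (n ^ 2 * (B * x)) := by
    have h3 : n ^ 2 * ‖(crnW X c).eval ζ‖ = ‖((n ^ 2 : ℝ) : ℂ) * (crnW X c).eval ζ‖ := by
      rw [norm_mul, Complex.norm_real, Real.norm_eq_abs, abs_of_nonneg (sq_nonneg n)]
    rw [h3, hid]
    have h4 := norm_sub_norm_le (ga.eval ζ * (Polynomial.derivative gb).eval ζ)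
      (gb.eval ζ * (Polynomial.derivative ga).eval ζ)
    rw [norm_mul, norm_mul] at h4
    have h5 : 99 / 100 * n ^ 2 * (193 / 100 * (B * x)) ≤
        ‖ga.eval ζ‖ * ‖(Polynomial.derivative gb).eval ζ‖ :=
      mul_le_mul a1 b2 (by positivity) (norm_nonneg _)
    have h6 : ‖gb.eval ζ‖ * ‖(Polynomial.derivative ga).eval ζ‖ ≤
        101 / 100 * (B * x ^ 2) * (8 * R * n * q) :=
      mul_le_mul b1 A2 (norm_nonneg _) (by positivity)
    have h7 : 101 / 100 * (B * x ^ 2) * (8 * R * n * q) = 808 / 100 * (B * x) * (R * q * x * n) := by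
      ring
    have h8 : 808 / 100 * (B * x) * (R * q * x * n) ≤ 808 / 100 * (B * x) * (n ^ 2 / 500) := by
      gcongr
    have h9 : 0 ≤ n ^ 2 * (B * x) := by positivity
    linarith
  have hfin : B * x ≤ ‖(crnW X c).eval ζ‖ := by
    have h3 : 0 < n ^ 2 := by positivity
    have h4 : 0 ≤ n ^ 2 * (B * x) := by positivity
    have h5 : n ^ 2 * (B * x) ≤ n ^ 2 * ‖(crnW X c).eval ζ‖ := by linarith
    exact le_of_mul_le_mul_left h5 h3
  have h3 : b * B ≤ B * x := by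
    rw [mul_comm]
    exact mul_le_mul_of_nonneg_left hζ2 hw0
  have h4 := mul_le_mul_of_nonneg_right hp2 (norm_nonneg ((crnW X c).eval ζ))
  linarith

end Pool.Agent.H73.SG
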